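import Pool.Agent.DCP.Dyn

/-!
# d-colour paths: translations and reflections
-/

set_option autoImplicit false

namespace Pool.Agent.DCP

variable {d : ℕ} {L : Type} [AddCommGroup L] (D : LD d L)

/-- translation of states -/
def tr (z : L) (s : St d L) : St d L := (s.1 + z, s.2)

/-- the reflection in `{rt b b' = m}` -/
def rf (b b' : Fin (d + 1)) (m : ℤ) (x : L) : L := x + (m - D.rt b b' x) • (D.v b - D.v b')

/-- reflection of states -/
def rfs (b b' : Fin (d + 1)) (m : ℤ) (s : St d L) : St d L :=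
  (rf D b b' m s.1, s.2.trans (Equiv.swap b b'))

section Tr

variable {D}

theorem letter_tr (z : L) (s : St d L) (i : ℕ) : letter (tr z s) i = letter s i := rfl

theorem cell_tr (z : L) (s : St d L) (k : ℕ) : cell D (tr z s) k = cell D s k + z := by
  rw [cell, cell]
  show s.1 + z + _ = _
  rw [add_right_comm]
  rfl

theorem fc_tr (z : L) (s : St d L) (j : Fin d) : fc D (tr z s) j = fc D s j + z :=
  cell_tr z s _

theorem turn_tr (z : L) (s : St d L) (k : ℕ) : turn D k (tr z s) = tr z (turn D k s) := by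
  refine Prod.ext ?_ rfl
  exact cell_tr z s k

theorem R_tr (z : L) (s : St d L) : R D (tr z s) = tr z (R D s) := by
  refine Prod.ext ?_ rfl
  show s.1 + z + D.v (letter s 0) - D.v (letter s d) = s.1 + D.v (letter s 0) - D.v (letter s d) + z
  abel

theorem rb_tr (c : L → Fin d) (z : L) (s : St d L) :
    rb D c (tr z s) ↔ rb D (fun x => c (x + z)) s := by
  rw [rb, rb]
  simp only [fc_tr]

theorem J_tr (c : L → Fin d) (z : L) (s : St d L) :
    J D c (tr z s) = tr z (J D (fun x => c (x + z)) s) := by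
  by_cases h : rb D (fun x => c (x + z)) s
  · obtain ⟨j, hj⟩ := exists_fc_eq h (c (s.1 + z))
    rw [J_eq h hj, J_eq ((rb_tr c z s).2 h) (j := j) (by rw [fc_tr]; exact hj), turn_tr]
  · rw [J_not h, J_not (fun h1 => h ((rb_tr c z s).1 h1))]

theorem Phi_tr (c : L → Fin d) (z : L) (s : St d L) :
    Phi D c (tr z s) = tr z (Phi D (fun x => c (x + z)) s) := by
  rw [Phi_apply, Phi_apply, R_tr, J_tr]

theorem Phi_inv_tr (c : L → Fin d) (z : L) (s : St d L) :
    (Phi D c)⁻¹ (tr z s) = tr z ((Phi D (fun x => c (x + z)))⁻¹ s) := by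
  rw [Phi_symm, Phi_symm, J_tr, R_tr]

theorem Phi_pow_tr (c : L → Fin d) (z : L) (s : St d L) (k : ℕ) :
    (Phi D c ^ k) (tr z s) = tr z ((Phi D (fun x => c (x + z)) ^ k) s) := by
  induction k with
  | zero => rfl
  | succ k ih =>
    rw [pow_succ', pow_succ', Equiv.Perm.mul_apply, Equiv.Perm.mul_apply, ih, Phi_tr]

theorem Phi_inv_pow_tr (c : L → Fin d) (z : L) (s : St d L) (k : ℕ) :
    ((Phi D c)⁻¹ ^ k) (tr z s) = tr z (((Phi D (fun x => c (x + z)))⁻¹ ^ k) s) := by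
  induction k with
  | zero => rfl
  | succ k ih =>
    rw [pow_succ', pow_succ', Equiv.Perm.mul_apply, Equiv.Perm.mul_apply, ih, Phi_inv_tr]

end Tr

section Rf

variable {D} {b b' : Fin (d + 1)}

theorem rt_rf (hb : b ≠ b') (m : ℤ) (x : L) :
    D.rt b b' (rf D b b' m x) = 2 * m - D.rt b b' x := by
  rw [rf, map_add, map_zsmul, map_sub, D.rt_v, D.rt_v, if_pos rfl, if_neg hb, if_neg hb.symm,
    if_pos rfl, smul_eq_mul]
  ring

theorem rf_rf (hb : b ≠ b') (m : ℤ) (x : L) : rf D b b' m (rf D b b' m x) = x := by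
  conv_lhs => rw [rf, rt_rf hb, rf]
  rw [add_assoc, ← add_smul]
  rw [show m - D.rt b b' x + (m - (2 * m - D.rt b b' x)) = 0 by ring, zero_smul, add_zero]

theorem rf_fix {m : ℤ} {x : L} (h : D.rt b b' x = m) : rf D b b' m x = x := by
  rw [rf, h, sub_self, zero_smul, add_zero]

theorem rf_add_v (hb : b ≠ b') (m : ℤ) (x : L) (k : Fin (d + 1)) :
    rf D b b' m (x + D.v k) = rf D b b' m x + D.v (Equiv.swap b b' k) := by
  rw [rf, rf, map_add, D.rt_v]
  by_cases h1 : k = b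
  · subst h1
    rw [if_pos rfl, if_neg hb, Equiv.swap_apply_left, sub_zero, ← sub_sub, sub_smul _ (1 : ℤ),
      one_smul]
    abel
  · by_cases h2 : k = b'
    · subst h2
      rw [if_neg h1, if_pos rfl, Equiv.swap_apply_right, zero_sub, ← sub_sub, sub_smul _ (-1 : ℤ),
        neg_smul, one_smul]
      abel
    · rw [if_neg h1, if_neg h2, Equiv.swap_apply_of_ne_of_ne h1 h2, sub_zero, add_zero]
      abel

theorem letter_rfs (m : ℤ) (s : St d L) (i : ℕ) :
    letter (rfs D b b' m s) i = Equiv.swap b b' (letter s i) := rfl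

theorem cell_rfs (hb : b ≠ b') (m : ℤ) (s : St d L) (k : ℕ) :
    cell D (rfs D b b' m s) k = rf D b b' m (cell D s k) := by
  induction k with
  | zero => rw [cell_zero, cell_zero]; rfl
  | succ k ih => rw [cell_succ, cell_succ, ih, rf_add_v hb, letter_rfs]

theorem fc_rfs (hb : b ≠ b') (m : ℤ) (s : St d L) (j : Fin d) :
    fc D (rfs D b b' m s) j = rf D b b' m (fc D s j) := cell_rfs hb m s _

theorem turn_rfs (hb : b ≠ b') (m : ℤ) (s : St d L) (k : ℕ) :
    turn D k (rfs D b b' m s) = rfs D b b' m (turn D k s) := by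
  refine Prod.ext ?_ rfl
  exact cell_rfs hb m s k

theorem R_rfs (hb : b ≠ b') (m : ℤ) (s : St d L) :
    R D (rfs D b b' m s) = rfs D b b' m (R D s) := by
  refine Prod.ext ?_ rfl
  rw [R_fst, letter_rfs, letter_rfs]
  show rf D b b' m s.1 + _ - _ = rf D b b' m (R D s).1
  rw [← rf_add_v hb, sub_eq_iff_eq_add, ← rf_add_v hb, R_fst, sub_add_cancel]

theorem rb_rfs (hb : b ≠ b') (c : L → Fin d) (m : ℤ) (s : St d L) :
    rb D c (rfs D b b' m s) ↔ rb D (fun x => c (rf D b b' m x)) s := by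
  rw [rb, rb]
  simp only [fc_rfs hb]

theorem J_rfs (hb : b ≠ b') (c : L → Fin d) (m : ℤ) (s : St d L) :
    J D c (rfs D b b' m s) = rfs D b b' m (J D (fun x => c (rf D b b' m x)) s) := by
  by_cases h : rb D (fun x => c (rf D b b' m x)) s
  · obtain ⟨j, hj⟩ := exists_fc_eq h (c (rf D b b' m s.1))
    rw [J_eq h hj, J_eq ((rb_rfs hb c m s).2 h) (j := j) (by rw [fc_rfs hb]; exact hj),
      turn_rfs hb]
  · rw [J_not h, J_not (fun h1 => h ((rb_rfs hb c m s).1 h1))]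

theorem Phi_rfs (hb : b ≠ b') (c : L → Fin d) (m : ℤ) (s : St d L) :
    Phi D c (rfs D b b' m s) = rfs D b b' m (Phi D (fun x => c (rf D b b' m x)) s) := by
  rw [Phi_apply, Phi_apply, R_rfs hb, J_rfs hb]

theorem Phi_pow_rfs (hb : b ≠ b') (c : L → Fin d) (m : ℤ) (s : St d L) (k : ℕ) :
    (Phi D c ^ k) (rfs D b b' m s) =
      rfs D b b' m ((Phi D (fun x => c (rf D b b' m x)) ^ k) s) := by
  induction k with
  | zero => rfl
  | succ k ih =>
    rw [pow_succ', pow_succ', Equiv.Perm.mul_apply, Equiv.Perm.mul_apply, ih, Phi_rfs hb]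

theorem psi_rf {ψ : L →+ ℤ} (h : ψ (D.v b) = ψ (D.v b')) (m : ℤ) (x : L) :
    ψ (rf D b b' m x) = ψ x := by
  rw [rf, map_add, map_zsmul, map_sub, h, sub_self, smul_zero, add_zero]

end Rf

/-! ### events -/

/-- the ray from `s` is in `{ψ ≤ l}`, its hole is not -/
def Ev (ψ : L →+ ℤ) (c : L → Fin d) (s : St d L) (l : ℤ) : Prop :=
  rb D c s ∧ (∀ k j, ψ (fc D ((Phi D c ^ k) s) j) ≤ l) ∧ l < ψ s.1

/-- the ray from `s` is in `{ψ ≤ l}`, its hole is on the boundary and is not touched -/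
def Dv (ψ : L →+ ℤ) (c : L → Fin d) (s : St d L) (l : ℤ) : Prop :=
  rb D c s ∧ (∀ k j, ψ (fc D ((Phi D c ^ k) s) j) ≤ l) ∧ ψ s.1 = l ∧
    ∀ k j, fc D ((Phi D c ^ k) s) j ≠ s.1

/-- the height of an edge -/
def Hh (ψ : L →+ ℤ) (s : St d L) : ℤ := ψ s.1 + ψ (R D s).1

/-- `s` is the last maximum of the height along its path -/
def Top (ψ : L →+ ℤ) (c : L → Fin d) (s : St d L) : Prop :=
  rb D c s ∧ (∀ k, Hh D ψ ((Phi D c ^ (k + 1)) s) < Hh D ψ s) ∧
    ∀ k, Hh D ψ (((Phi D c)⁻¹ ^ k) s) ≤ Hh D ψ s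

/-- the directions considered: negative on all `v i`, `i ≠ a`; equal on `v b`, `v b'` -/
structure Dir (ψ : L →+ ℤ) (a b b' : Fin (d + 1)) : Prop where
  neg : ∀ i, i ≠ a → ψ (D.v i) < 0
  ba : b ≠ a
  ba' : b' ≠ a
  bb : b ≠ b'
  eq : ψ (D.v b) = ψ (D.v b')

variable {D}

theorem Ev_rfs {ψ : L →+ ℤ} {a b b' : Fin (d + 1)} (h : Dir D ψ a b b') (c : L → Fin d) (m : ℤ)
    (s : St d L) (l : ℤ) :
    Ev D ψ c (rfs D b b' m s) l ↔ Ev D ψ (fun x => c (rf D b b' m x)) s l := by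
  rw [Ev, Ev, rb_rfs h.bb]
  simp only [Phi_pow_rfs h.bb, fc_rfs h.bb, psi_rf h.eq]
  show _ ∧ _ ∧ l < ψ (rf D b b' m s.1) ↔ _
  rw [psi_rf h.eq]

theorem Hh_tr (ψ : L →+ ℤ) (z : L) (s : St d L) : Hh D ψ (tr z s) = Hh D ψ s + 2 * ψ z := by
  rw [Hh, Hh, R_tr]
  show ψ (s.1 + z) + ψ ((R D s).1 + z) = _
  rw [map_add, map_add]
  ring

theorem Top_tr (ψ : L →+ ℤ) (c : L → Fin d) (z : L) (s : St d L) :
    Top D ψ c (tr z s) ↔ Top D ψ (fun x => c (x + z)) s := by
  rw [Top, Top, rb_tr]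
  simp only [Phi_pow_tr, Phi_inv_pow_tr, Hh_tr, add_lt_add_iff_right, add_le_add_iff_right]

theorem Hh_R (ψ : L →+ ℤ) (s : St d L) : Hh D ψ (R D s) = Hh D ψ s := by
  rw [Hh, Hh, R_R, add_comm]

end Pool.Agent.DCP
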