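import Pool.Agent.DCP.Equi

/-!
# d-colour paths: measurability

`L` is countable, `Fin d` has the discrete σ-algebra, `L → Fin d` the product σ-algebra.

`meas_fin`: `A` is the preimage under the restriction `c ↦ (fun x : F => c x)` (measurable) of its
image, and every subset of `F → Fin d` (finite, measurable singletons) is measurable.

`meas_J`: by `meas_fin` with the finite set of the cells `cell D s k`, `k ≤ d`, and `J_congr`.
`meas_rb`: by `meas_fin` with the cells `fc D s j`. `meas_Phi`: `Phi D c s = J D c (R D s)`.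
`meas_Phi_inv`: `(Phi D c)⁻¹ s = R D (J D c s)` (`Phi_symm`), `= t` iff `J D c s = R D t` (`R_R`).
`meas_Phi_pow`: induction (`pow_succ'`, `Equiv.Perm.mul_apply`):
`{c | Φ^(k+1) s = t} = ⋃ u, {c | Φ^k s = u} ∩ {c | Φ u = t}`, countable union (`St d L` is countable).
`meas_pow_pred`: `{c | P (Φ_c^k s)} = ⋃ (t) (h : P t), {c | Φ_c^k s = t}`.
`meas_Ev`, `meas_Top`: countable intersections of such sets.
-/

set_option autoImplicit false

namespace Pool.Agent.DCP

open MeasureTheory

variable {d : ℕ} {L : Type} [AddCommGroup L] (D : LD d L)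

theorem meas_fin {L : Type} (A : Set (L → Fin d)) (F : Finset L)
    (h : ∀ c c' : L → Fin d, (∀ x ∈ F, c x = c' x) → c ∈ A → c' ∈ A) : MeasurableSet A := by
  have h1 : A = (fun (c : L → Fin d) (x : F) => c x) ⁻¹'
      ((fun (c : L → Fin d) (x : F) => c x) '' A) := by
    ext c
    constructor
    · intro hc
      exact ⟨c, hc, rfl⟩
    · rintro ⟨c', hc', he⟩
      exact h c' c (fun x hx => congrFun he ⟨x, hx⟩) hc'
  rw [h1]
  have h2 : Measurable (fun (c : L → Fin d) (x : F) => c x) :=
    measurable_pi_lambda _ fun x => measurable_pi_apply _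
  exact h2 (Set.toFinite _).measurableSet

theorem meas_rb (s : St d L) : MeasurableSet {c : L → Fin d | rb D c s} := by
  classical
  refine meas_fin _ (Finset.univ.image (fc D s)) fun c c' h hc => ?_
  have h1 : ∀ j, c (fc D s j) = c' (fc D s j) := fun j =>
    h _ (Finset.mem_image_of_mem _ (Finset.mem_univ j))
  have hc1 : rb D c s := hc
  show rb D c' s
  rw [rb] at hc1 ⊢
  simp only [h1] at hc1
  exact hc1

theorem meas_J (s t : St d L) : MeasurableSet {c : L → Fin d | J D c s = t} := by
  classical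
  refine meas_fin _ ((Finset.range (d + 1)).image (cell D s)) fun c c' h hc => ?_
  have hc1 : J D c s = t := hc
  show J D c' s = t
  rw [← hc1]
  refine (J_congr fun k hk => h _ ?_).symm
  exact Finset.mem_image_of_mem _ (Finset.mem_range.2 (by omega))

theorem meas_Phi (s t : St d L) : MeasurableSet {c : L → Fin d | Phi D c s = t} :=
  meas_J D (R D s) t

private theorem meas_Phi_inv (s t : St d L) :
    MeasurableSet {c : L → Fin d | (Phi D c)⁻¹ s = t} := by
  have h1 : {c : L → Fin d | (Phi D c)⁻¹ s = t} = {c : L → Fin d | J D c s = R D t} := by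
    ext c
    show (Phi D c)⁻¹ s = t ↔ J D c s = R D t
    rw [Phi_symm]
    constructor
    · intro h
      rw [← h, R_R]
    · intro h
      rw [h, R_R]
  rw [h1]
  exact meas_J D s (R D t)

private theorem meas_iter [Countable L] (f : (L → Fin d) → Equiv.Perm (St d L))
    (hf : ∀ s t : St d L, MeasurableSet {c : L → Fin d | f c s = t}) (s t : St d L) (k : ℕ) :
    MeasurableSet {c : L → Fin d | (f c ^ k) s = t} := by
  induction k generalizing t with
  | zero =>
    have h1 : {c : L → Fin d | (f c ^ 0) s = t} = {_c : L → Fin d | s = t} := by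
      ext c
      show (f c ^ 0) s = t ↔ s = t
      rw [pow_zero]
      rfl
    rw [h1]
    exact MeasurableSet.const _
  | succ k ih =>
    have h1 : {c : L → Fin d | (f c ^ (k + 1)) s = t} =
        ⋃ u : St d L, {c : L → Fin d | (f c ^ k) s = u} ∩ {c : L → Fin d | f c u = t} := by
      ext c
      rw [Set.mem_iUnion]
      show (f c ^ (k + 1)) s = t ↔ ∃ u, (f c ^ k) s = u ∧ f c u = t
      rw [pow_succ', Equiv.Perm.mul_apply]
      constructor
      · intro h
        exact ⟨_, rfl, h⟩
      · rintro ⟨u, h2, h3⟩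
        rw [h2]
        exact h3
    rw [h1]
    exact MeasurableSet.iUnion fun u => (ih u).inter (hf u t)

private theorem meas_pred [Countable L] (g : (L → Fin d) → St d L)
    (hg : ∀ t : St d L, MeasurableSet {c : L → Fin d | g c = t}) (P : St d L → Prop) :
    MeasurableSet {c : L → Fin d | P (g c)} := by
  have h1 : {c : L → Fin d | P (g c)} =
      ⋃ (t : St d L) (_ : P t), {c : L → Fin d | g c = t} := by
    ext c
    rw [Set.mem_iUnion]
    constructor
    · intro h
      refine ⟨g c, ?_⟩
      rw [Set.mem_iUnion]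
      exact ⟨h, rfl⟩
    · rintro ⟨t, h⟩
      rw [Set.mem_iUnion] at h
      obtain ⟨h2, h3⟩ := h
      have h4 : g c = t := h3
      show P (g c)
      rw [h4]
      exact h2
  rw [h1]
  exact MeasurableSet.iUnion fun t => MeasurableSet.iUnion fun _ => hg t

theorem meas_Phi_pow [Countable L] (s t : St d L) (k : ℕ) :
    MeasurableSet {c : L → Fin d | (Phi D c ^ k) s = t} :=
  meas_iter (fun c => Phi D c) (meas_Phi D) s t k

theorem meas_Phi_inv_pow [Countable L] (s t : St d L) (k : ℕ) :
    MeasurableSet {c : L → Fin d | ((Phi D c)⁻¹ ^ k) s = t} :=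
  meas_iter (fun c => (Phi D c)⁻¹) (meas_Phi_inv D) s t k

theorem meas_pow_pred [Countable L] (P : St d L → Prop) (s : St d L) (k : ℕ) :
    MeasurableSet {c : L → Fin d | P ((Phi D c ^ k) s)} :=
  meas_pred (fun c => (Phi D c ^ k) s) (fun t => meas_Phi_pow D s t k) P

theorem meas_inv_pow_pred [Countable L] (P : St d L → Prop) (s : St d L) (k : ℕ) :
    MeasurableSet {c : L → Fin d | P (((Phi D c)⁻¹ ^ k) s)} :=
  meas_pred (fun c => ((Phi D c)⁻¹ ^ k) s) (fun t => meas_Phi_inv_pow D s t k) P

theorem meas_Ev [Countable L] (ψ : L →+ ℤ) (s : St d L) (l : ℤ) :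
    MeasurableSet {c : L → Fin d | Ev D ψ c s l} := by
  have h1 : {c : L → Fin d | Ev D ψ c s l} = {c : L → Fin d | rb D c s} ∩
      ((⋂ (k : ℕ) (j : Fin d), {c : L → Fin d | ψ (fc D ((Phi D c ^ k) s) j) ≤ l}) ∩
        {_c : L → Fin d | l < ψ s.1}) := by
    ext c
    simp only [Set.mem_inter_iff, Set.mem_iInter, Set.mem_setOf_eq]
    rfl
  rw [h1]
  refine (meas_rb D s).inter (MeasurableSet.inter ?_ (MeasurableSet.const _))
  exact MeasurableSet.iInter fun k => MeasurableSet.iInter fun j =>
    meas_pow_pred D (fun t => ψ (fc D t j) ≤ l) s k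

theorem meas_Top [Countable L] (ψ : L →+ ℤ) (s : St d L) :
    MeasurableSet {c : L → Fin d | Top D ψ c s} := by
  have h1 : {c : L → Fin d | Top D ψ c s} = {c : L → Fin d | rb D c s} ∩
      ((⋂ k : ℕ, {c : L → Fin d | Hh D ψ ((Phi D c ^ (k + 1)) s) < Hh D ψ s}) ∩
        ⋂ k : ℕ, {c : L → Fin d | Hh D ψ (((Phi D c)⁻¹ ^ k) s) ≤ Hh D ψ s}) := by
    ext c
    simp only [Set.mem_inter_iff, Set.mem_iInter, Set.mem_setOf_eq]
    rfl
  rw [h1]
  refine (meas_rb D s).inter (MeasurableSet.inter ?_ ?_)
  · exact MeasurableSet.iInter fun k =>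
      meas_pow_pred D (fun t => Hh D ψ t < Hh D ψ s) s (k + 1)
  · exact MeasurableSet.iInter fun k =>
      meas_inv_pow_pred D (fun t => Hh D ψ t ≤ Hh D ψ s) s k

end Pool.Agent.DCP
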