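import Pool.Agent.DCP.PathDef

/-!
# d-colour paths: the recoloured configuration has a last maximum
-/

set_option autoImplicit false

namespace Pool.Agent.DCP

variable {d : ℕ} {L : Type} [AddCommGroup L] {D : LD d L}

theorem Phi_inv_pow_Phi_pow (c : L → Fin d) (s : St d L) (k : ℕ) :
    (Phi D c ^ k) (((Phi D c)⁻¹ ^ k) s) = s := by
  rw [← Equiv.Perm.mul_apply, inv_pow, mul_inv_cancel]
  rfl

theorem Phi_pow_inv_le (c : L → Fin d) (s : St d L) {n k : ℕ} (h : n ≤ k) :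
    (Phi D c ^ n) (((Phi D c)⁻¹ ^ k) s) = ((Phi D c)⁻¹ ^ (k - n)) s := by
  obtain ⟨j, rfl⟩ := Nat.exists_eq_add_of_le h
  rw [pow_add (Phi D c)⁻¹ n j, Equiv.Perm.mul_apply, Phi_inv_pow_Phi_pow, Nat.add_sub_cancel_left]

theorem Phi_pow_inv_ge (c : L → Fin d) (s : St d L) {n k : ℕ} (h : k ≤ n) :
    (Phi D c ^ n) (((Phi D c)⁻¹ ^ k) s) = (Phi D c ^ (n - k)) s := by
  obtain ⟨j, rfl⟩ := Nat.exists_eq_add_of_le' h
  rw [pow_add (Phi D c) j k, Equiv.Perm.mul_apply, Phi_inv_pow_Phi_pow, Nat.add_sub_cancel]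

theorem Phi_pow_Phi_inv_pow (c : L → Fin d) (s : St d L) (k : ℕ) :
    ((Phi D c)⁻¹ ^ k) ((Phi D c ^ k) s) = s := by
  rw [← Equiv.Perm.mul_apply, inv_pow, inv_mul_cancel]
  rfl

/-- the heights along a ray in the half space -/
theorem Hh_ray {ψ : L →+ ℤ} {c : L → Fin d} {s : St d L} {l : ℤ} (h : rb D c s)
    (h1 : ∀ k j, ψ (fc D ((Phi D c ^ k) s) j) ≤ l) (k : ℕ) :
    Hh D ψ ((Phi D c ^ (k + 1)) s) ≤ 2 * l := by
  obtain ⟨j, hj, -⟩ := Phi_fst ((rb_Phi_pow (D := D) (c := c) (s := s) k).2 h)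
  obtain ⟨i, hi⟩ := R_fst_mem ((rb_Phi_pow (D := D) (c := c) (s := s) (k + 1)).2 h)
  rw [← Equiv.Perm.mul_apply, ← pow_succ'] at hj hi
  rw [Hh, hj, hi]
  have := h1 k j
  have := h1 (k + 1 + 1) i
  linarith

theorem exists_top {ψ : L →+ ℤ} {b b' : Fin (d + 1)} (hb : b ≠ b')
    {s : St d L} {l : ℤ} {r : ℕ → St d L} {k : ℕ → ℕ} {N : ℕ} {m : ℤ}
    (P : Pth D ψ b b' s l r k N m) {c c' : L → Fin d} (hE : Ev D ψ c s l)
    (hE' : Ev D ψ c (rfs D b b' m s) l) (hc : ∀ x, ψ x ≤ l → c' x = c x)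
    (h1 : ∀ i ≤ N, rb D c' (r i) ∧ c' (r i).1 = c' (cell D (r i) (k i)))
    (h2 : ∀ i ≤ N, ∀ n ≤ d, c' (rf D b b' m (cell D (r i) n)) = c' (cell D (r i) n)) :
    ∃ t, Top D ψ c' t := by
  -- the two rays
  have ray : ∀ t, Ev D ψ c t l → rb D c' t ∧ ∀ n j, ψ (fc D ((Phi D c' ^ n) t) j) ≤ l := by
    intro t ht
    obtain ⟨h3, h4⟩ := Phi_pow_congr (c' := c') ht.1 (fun n j => hc _ (ht.2.1 n j))
    refine ⟨h3, fun n j => ?_⟩
    rw [h4]
    exact ht.2.1 n j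
  obtain ⟨ra, rb1⟩ := ray s hE
  obtain ⟨ra', rb1'⟩ := ray _ hE'
  -- the steps
  have hJ : ∀ i ≤ N, J D c' (r i) = turn D (k i) (r i) := fun i hi =>
    J_turn (h1 i hi).1 (P.pos i) (P.le i) (h1 i hi).2.symm
  have step : ∀ i ≤ N, (Phi D c')⁻¹ (r i) = r (i + 1) := by
    intro i hi
    rw [Phi_symm, hJ i hi, P.succ]
  have step' : ∀ i ≤ N, (Phi D c')⁻¹ (rfs D b b' m (r i)) = rfs D b b' m (r (i + 1)) := by
    intro i hi
    rw [Phi_symm, J_rfs hb, J_congr (c' := c') (h2 i hi), hJ i hi, R_rfs hb, P.succ]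
  have pow1 : ∀ i ≤ N + 1, ((Phi D c')⁻¹ ^ i) s = r i := by
    intro i
    induction i with
    | zero => intro _; rw [pow_zero, P.zero]; rfl
    | succ i ih =>
      intro hi
      rw [pow_succ', Equiv.Perm.mul_apply, ih (by omega), step i (by omega)]
  have pow2 : ∀ i ≤ N + 1, ((Phi D c')⁻¹ ^ i) (rfs D b b' m s) = rfs D b b' m (r i) := by
    intro i
    induction i with
    | zero => intro _; rw [pow_zero, P.zero]; rfl
    | succ i ih =>
      intro hi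
      rw [pow_succ', Equiv.Perm.mul_apply, ih (by omega), step' i (by omega)]
  -- the joint
  have hN : r (N + 1) = R D (turn D 1 (r N)) := by rw [P.succ, P.last]
  have join : R D (r (N + 1)) = rfs D b b' m (r (N + 1)) := by
    rw [hN, ← R_rfs hb, P.join]
  -- the whole path, backwards from `s`
  have back : ∀ n, ((Phi D c')⁻¹ ^ (2 * (N + 1) + n)) s =
      R D ((Phi D c' ^ n) (rfs D b b' m s)) := by
    intro n
    have e1 : r (N + 1) = R D (((Phi D c')⁻¹ ^ (N + 1)) (rfs D b b' m s)) := by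
      rw [pow2 (N + 1) le_rfl, ← join, R_R]
    rw [show 2 * (N + 1) + n = n + ((N + 1) + (N + 1)) by ring, pow_add, pow_add,
      Equiv.Perm.mul_apply, Equiv.Perm.mul_apply, pow1 (N + 1) le_rfl, e1, R_Phi_inv_pow,
      Phi_pow_Phi_inv_pow, R_Phi_pow]
  -- heights
  set h : ℕ → ℤ := fun n => Hh D ψ (((Phi D c')⁻¹ ^ n) s) with hh
  have hfar : ∀ n, 2 * (N + 1) < n → h n ≤ 2 * l := by
    intro n hn
    obtain ⟨n', rfl⟩ : ∃ n', n = 2 * (N + 1) + (n' + 1) := ⟨n - (2 * (N + 1)) - 1, by omega⟩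
    rw [hh]
    show Hh D ψ (((Phi D c')⁻¹ ^ (2 * (N + 1) + (n' + 1))) s) ≤ 2 * l
    rw [back, Hh_R]
    exact Hh_ray ra' rb1' n'
  have htop : 2 * l < h N := by
    rw [hh]
    show 2 * l < Hh D ψ (((Phi D c')⁻¹ ^ N) s)
    rw [pow1 N (by omega)]
    exact P.top
  -- the first maximum of `h`
  obtain ⟨k0, hk0, hk1⟩ : ∃ k0, (∀ n, h n ≤ h k0) ∧ ∀ n < k0, h n < h k0 := by
    have hne : ((Finset.range (2 * (N + 1) + 1)).image h).Nonempty :=
      ⟨h 0, Finset.mem_image_of_mem _ (by simp)⟩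
    have hmax := Finset.max'_mem _ hne
    set M := ((Finset.range (2 * (N + 1) + 1)).image h).max' hne with hM
    have hMn : ∀ n, h n ≤ M := by
      intro n
      rcases Nat.lt_or_ge n (2 * (N + 1) + 1) with h3 | h3
      · exact Finset.le_max' _ _ (Finset.mem_image_of_mem _ (Finset.mem_range.2 h3))
      · have h4 := hfar n (by omega)
        have h5 : h N ≤ M :=
          Finset.le_max' _ _ (Finset.mem_image_of_mem _ (Finset.mem_range.2 (by omega)))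
        linarith
    obtain ⟨n0, -, hn0⟩ := Finset.mem_image.1 hmax
    have hex : ∃ n, h n = M := ⟨n0, hn0⟩
    classical
    refine ⟨Nat.find hex, fun n => ?_, fun n hn => ?_⟩
    · rw [Nat.find_spec hex]
      exact hMn n
    · rw [Nat.find_spec hex]
      exact lt_of_le_of_ne (hMn n) (Nat.find_min hex hn)
  refine ⟨((Phi D c')⁻¹ ^ k0) s, (rb_Phi_inv_pow k0).2 ra, fun n => ?_, fun n => ?_⟩
  · rcases Nat.lt_or_ge n k0 with h3 | h3
    · rw [Phi_pow_inv_le c' s (show n + 1 ≤ k0 by omega)]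
      exact hk1 _ (by omega)
    · rw [Phi_pow_inv_ge c' s (show k0 ≤ n + 1 by omega),
        show n + 1 - k0 = n - k0 + 1 by omega]
      have h5 := Hh_ray ra rb1 (n - k0)
      have h6 := hk0 N
      exact lt_of_le_of_lt h5 (lt_of_lt_of_le htop h6)
  · rw [← Equiv.Perm.mul_apply, ← pow_add]
    exact hk0 _

end Pool.Agent.DCP
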