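import Pool.Agent.DCP.PathDef
import Pool.Agent.DCP.TopE

/-!
# d-colour paths: the events, deterministic part
-/

set_option autoImplicit false

namespace Pool.Agent.DCP

variable {d : ℕ} {L : Type} [AddCommGroup L] {D : LD d L}

theorem psi_cell_last (ψ : L →+ ℤ) (s : St d L) :
    ψ (cell D s d) + ψ (D.v (letter s d)) = ψ s.1 := by
  rw [← map_add, ← cell_succ, cell_full]

theorem fc_last (hd : 1 ≤ d) (s : St d L) : fc D s ⟨d - 1, by omega⟩ = cell D s d := by
  rw [fc]
  congr 1
  show d - 1 + 1 = d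
  omega

theorem letter_of_Ev (hd : 1 ≤ d) {ψ : L →+ ℤ} {a b b' : Fin (d + 1)} (hD : Dir D ψ a b b')
    {c : L → Fin d} {s : St d L} {l : ℤ} (h : Ev D ψ c s l) : letter s d = a := by
  by_contra hne
  have h1 := h.2.1 0 ⟨d - 1, by omega⟩
  rw [pow_zero, Equiv.Perm.one_apply, fc_last hd] at h1
  have h2 := psi_cell_last (D := D) ψ s
  have h3 := hD.neg _ hne
  have h4 := h.2.2
  linarith

theorem letter_of_Dv (hd : 1 ≤ d) {ψ : L →+ ℤ} {a b b' : Fin (d + 1)} (hD : Dir D ψ a b b')
    {c : L → Fin d} {s : St d L} {l : ℤ} (h : Dv D ψ c s l) : letter s d = a := by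
  by_contra hne
  have h1 := h.2.1 0 ⟨d - 1, by omega⟩
  rw [pow_zero, Equiv.Perm.one_apply, fc_last hd] at h1
  have h2 := psi_cell_last (D := D) ψ s
  have h3 := hD.neg _ hne
  have h4 := h.2.2.1
  linarith

open Classical in
theorem Ev_of_Dv (hd : 1 ≤ d) {ψ : L →+ ℤ} {a b b' : Fin (d + 1)} (hD : Dir D ψ a b b')
    {c : L → Fin d} {s : St d L} {l : ℤ} (h : Dv D ψ c s l) :
    Ev D ψ (Function.update c s.1 (c (cell D s d))) (R D (turn D d s)) l := by
  have ha := letter_of_Dv hd hD h
  obtain ⟨h1, h2, h3, h4⟩ := h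
  set c' := Function.update c s.1 (c (cell D s d)) with hc'
  have hoff : ∀ x, x ≠ s.1 → c' x = c x := fun x hx => Function.update_of_ne hx _ _
  obtain ⟨h5, h6⟩ := Phi_pow_congr (c' := c') h1 (fun k j => hoff _ (h4 k j))
  have hlast : cell D s d ≠ s.1 := by
    rw [← fc_last hd]
    exact fc_ne D s _
  have hJ : J D c' s = turn D d s := by
    refine J_turn h5 hd le_rfl ?_
    rw [hoff _ hlast, hc', Function.update_self]
  have hinv : (Phi D c')⁻¹ s = R D (turn D d s) := by rw [Phi_symm, hJ]
  have hnext : Phi D c' (R D (turn D d s)) = s := by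
    rw [← hinv, ← Equiv.Perm.mul_apply, mul_inv_cancel]
    rfl
  refine ⟨?_, ?_, ?_⟩
  · rw [← hinv, rb_Phi_inv]
    exact h5
  · intro k j
    cases k with
    | zero =>
      rw [pow_zero, Equiv.Perm.one_apply, fc_R, fc, cell_turn]
      rcases Nat.eq_zero_or_pos (j : ℕ) with hj | hj
      · rw [hj, zero_add, cell_full, h3]
      · rw [show d + ((j : ℕ) + 1) = j + (d + 1) by omega, cell_period]
        obtain ⟨i, -, hi⟩ := exists_fc D s hj (by omega)
        rw [← hi]
        have := h2 0 i
        rwa [pow_zero, Equiv.Perm.one_apply] at this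
    | succ k =>
      rw [pow_succ, Equiv.Perm.mul_apply, hnext, h6]
      exact h2 k j
  · rw [R_fst, letter_turn, letter_turn, turn_fst, add_zero, ← cell_succ, cell_full,
      show d + d = d - 1 + (d + 1) by omega, letter_period, map_sub, h3]
    have h7 : letter s (d - 1) ≠ a := by
      intro h8
      have := letter_inj s (by omega) le_rfl (h8.trans ha.symm)
      omega
    have := hD.neg _ h7
    linarith

/-- the reflection as a bijection -/
def rfE (D : LD d L) {b b' : Fin (d + 1)} (hb : b ≠ b') (m : ℤ) : L ≃ L where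
  toFun := rf D b b' m
  invFun := rf D b b' m
  left_inv := rf_rf hb m
  right_inv := rf_rf hb m

end Pool.Agent.DCP
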