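import Pool.Agent.DCP.Law

/-!
# d-colour paths: invariance and finite energy

Law.lean gives `mu_box`, `meas_box`, `mu_eq` (a measure which agrees with `mu` on boxes is `mu`).

`mu_equiv`. The map `F c = fun x => c (e x)` is measurable; `F ⁻¹' (Set.pi s t)` is
`Set.pi (s.image e) (fun y => t (e.symm y))`, so its measure is `∏ i ∈ s, ν (t i)`; apply `mu_eq` to
`(mu L ν).map F`.

`mu_update`. Let `F : (L → Fin d) × Fin d → (L → Fin d)`, `F (c, κ) = Function.update c x κ` (measurable:
coordinatewise). Claim `((mu L ν).prod ν).map F = mu L ν`: on a box `Set.pi s t`,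
`F ⁻¹' (Set.pi s t) = (Set.pi (s.erase x) t) ×ˢ (if x ∈ s then t x else univ)`; use `mu_eq`. Let `B ⊆ B'`
measurable with `mu L ν B' = 0` (`toMeasurable`). So `0 = ((mu L ν).prod ν) (F ⁻¹' B')`; hence (e.g.
`Measure.measure_prod_null`, or lower bound by the rectangle: `F ⁻¹' B' ⊇ A ×ˢ {κ}`,
`A = {c | update c x κ ∈ B'}`, whose measure is `mu A * ν {κ}`) `mu L ν A = 0` since `ν {κ} ≠ 0`.

`mu_modify`. Induction on `Q`. Empty: `c' = c` (funext). `insert x Q` (`x ∉ Q`): let
`B_Q = {c | ∃ c' ∈ B, ∀ y ∉ Q, c' y = c y}` (null by induction). If `c'∈ B` agrees with `c` off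
`insert x Q` then `c'` agrees with `update c x (c' x)` off `Q`, so
`c ∈ ⋃ κ, {c | update c x κ ∈ B_Q}`; `mu_update` and `measure_iUnion_null`.
-/

set_option autoImplicit false

namespace Pool.Agent.DCP

open MeasureTheory

variable {L : Type} {d : ℕ} (ν : Measure (Fin d)) [IsProbabilityMeasure ν]

theorem mu_equiv (e : L ≃ L) :
    MeasurePreserving (fun (c : L → Fin d) (x : L) => c (e x)) (mu L ν) (mu L ν) := by
  have hF : Measurable (fun (c : L → Fin d) (x : L) => c (e x)) :=
    measurable_pi_lambda _ (fun x => measurable_pi_apply (e x))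
  refine ⟨hF, ?_⟩
  refine mu_eq (fun s t => ?_)
  rw [Measure.map_apply hF (meas_box s t)]
  have h1 : (fun (c : L → Fin d) (x : L) => c (e x)) ⁻¹' (Set.pi (s : Set L) t) =
      Set.pi ((s.map e.toEmbedding : Finset L) : Set L) (fun y => t (e.symm y)) := by
    ext c
    simp only [Set.mem_preimage, Set.mem_pi, Finset.mem_coe, Finset.mem_map,
      Equiv.coe_toEmbedding, forall_exists_index, and_imp, forall_apply_eq_imp_iff₂,
      Equiv.symm_apply_apply]
  rw [h1, mu_box, Finset.prod_map]
  simp

theorem mu_update [DecidableEq L] (hν : ∀ i, ν {i} ≠ 0) {B : Set (L → Fin d)}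
    (hB : mu L ν B = 0) (x : L) (κ : Fin d) :
    mu L ν {c | Function.update c x κ ∈ B} = 0 := by
  have hF : Measurable (fun p : (L → Fin d) × Fin d => Function.update p.1 x p.2) := by
    rw [measurable_pi_iff]
    intro y
    by_cases hy : y = x
    · subst hy
      simpa using measurable_snd
    · have h1 : (fun p : (L → Fin d) × Fin d => Function.update p.1 x p.2 y) = fun p => p.1 y := by
        funext p
        rw [Function.update_of_ne hy]
      rw [h1]
      exact (measurable_pi_apply y).comp measurable_fst
  have hmap : ((mu L ν).prod ν).map (fun p : (L → Fin d) × Fin d => Function.update p.1 x p.2) =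
      mu L ν := by
    refine mu_eq (fun s t => ?_)
    rw [Measure.map_apply hF (meas_box s t)]
    have h1 : (fun p : (L → Fin d) × Fin d => Function.update p.1 x p.2) ⁻¹'
        (Set.pi (s : Set L) t) =
        (Set.pi ((s.erase x : Finset L) : Set L) t) ×ˢ (if x ∈ s then t x else Set.univ) := by
      ext p
      simp only [Set.mem_preimage, Set.mem_pi, Finset.mem_coe, Set.mem_prod, Finset.mem_erase]
      constructor
      · intro h
        refine ⟨fun y hy => ?_, ?_⟩
        · have h2 := h y hy.2
          rwa [Function.update_of_ne hy.1] at h2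
        · split_ifs with hx
          · have h2 := h x hx
            rwa [Function.update_self] at h2
          · exact Set.mem_univ _
      · rintro ⟨h2, h3⟩ y hy
        by_cases hyx : y = x
        · subst hyx
          rw [if_pos hy] at h3
          rwa [Function.update_self]
        · rw [Function.update_of_ne hyx]
          exact h2 y ⟨hyx, hy⟩
    rw [h1, Measure.prod_prod, mu_box]
    split_ifs with hx
    · exact Finset.prod_erase_mul s (fun i => ν (t i)) hx
    · rw [measure_univ, mul_one, Finset.erase_eq_of_notMem hx]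
  set B' := toMeasurable (mu L ν) B with hB'
  have h0 : mu L ν B' = 0 := by rw [hB', measure_toMeasurable, hB]
  have hBm : MeasurableSet B' := measurableSet_toMeasurable _ _
  have h1 : ((mu L ν).prod ν)
      ((fun p : (L → Fin d) × Fin d => Function.update p.1 x p.2) ⁻¹' B') = 0 := by
    rw [← Measure.map_apply hF hBm, hmap, h0]
  have h2 : ({c : L → Fin d | Function.update c x κ ∈ B'} ×ˢ ({κ} : Set (Fin d))) ⊆
      (fun p : (L → Fin d) × Fin d => Function.update p.1 x p.2) ⁻¹' B' := by
    rintro ⟨c, k⟩ ⟨hc, hk⟩
    simp only [Set.mem_singleton_iff] at hk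
    subst hk
    exact hc
  have h3 := measure_mono_null h2 h1
  rw [Measure.prod_prod] at h3
  rcases mul_eq_zero.1 h3 with h4 | h4
  · refine measure_mono_null ?_ h4
    intro c hc
    exact subset_toMeasurable _ _ hc
  · exact absurd h4 (hν κ)

theorem mu_modify (hν : ∀ i, ν {i} ≠ 0) {B : Set (L → Fin d)} (hB : mu L ν B = 0)
    (Q : Finset L) : mu L ν {c | ∃ c' ∈ B, ∀ y, y ∉ Q → c' y = c y} = 0 := by
  classical
  induction Q using Finset.induction_on with
  | empty =>
    refine measure_mono_null ?_ hB
    rintro c ⟨c', hc', h⟩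
    have : c' = c := by
      funext y
      exact h y (Finset.notMem_empty y)
    rwa [← this]
  | insert x Q hx ih =>
    refine measure_mono_null (t := ⋃ κ : Fin d, {c | Function.update c x κ ∈
      {c | ∃ c' ∈ B, ∀ y, y ∉ Q → c' y = c y}}) ?_ ?_
    · rintro c ⟨c', hc', h⟩
      rw [Set.mem_iUnion]
      refine ⟨c' x, c', hc', fun y hy => ?_⟩
      by_cases hyx : y = x
      · subst hyx
        rw [Function.update_self]
      · rw [Function.update_of_ne hyx]
        exact h y (fun h1 => by
          rcases Finset.mem_insert.1 h1 with h2 | h2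
          · exact hyx h2
          · exact hy h2)
    · rw [measure_iUnion_null_iff]
      intro κ
      exact mu_update ν hν ih x κ

end Pool.Agent.DCP
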