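import Pool.Agent.DCP.GeoV

/-!
# d-colour paths: geometric rays are orbits

Uses `vertex_state` (GeoB), `vtx_turn`, `vtx_R`, `vtx_Phi` (GeoV), `ty_cell`, `cell_inj` (Basic), the lemmas of `Dyn`.

`edge_state`. PROOF. `cellsAt p` has `d + 1` elements, the intersection `d`, so there is exactly one `z ∈ cellsAt p`, `z ∉ cellsAt q`; likewise
`z' ∈ cellsAt q`, `z' ∉ cellsAt p`. `vertex_state` gives `π` (for `p`, `z`) and `π'` (for `q`, `z'`). Let `s = (z, π)`, `t = (z', π')`. The cells of
`s` with `1 ≤ k ≤ d` are exactly `cellsAt p \ {z} = cellsAt p ∩ cellsAt q` (`cell_inj`, `cell_zero`), the same for `t`. By `ty_cell` the types of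
the cells `k = 1..d` of `s` are all types other than `ty z`, the same for `t`, so `ty z = ty z'` and, comparing types (`ty_cell`, as in `cell_inj`),
`cell s k = cell t k` for `1 ≤ k ≤ d`. So `v (letter s k) = v (letter t k)`, `letter s k = letter t k` for `1 ≤ k ≤ d - 1`
(`cell_succ`, `v_inj`). The two remaining letters: `{letter s 0, letter s d} = {letter t 0, letter t d}` (permutations). If
`letter t 0 = letter s 0` then `t = s` (`t.1 = cell t 1 - v (letter t 0)`), contradiction with `z ∈ cellsAt p`, `z' ∉ cellsAt p`. So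
`letter t 0 = letter s d`, `letter t d = letter s 0`, `t = R s` (`R_fst`: `(R s).1 = cell s 1 - v (letter s d)`). `rb` is `hc` (`InjOn`) and
`fc` injective (`cell_inj`).

`vertex_unique`: if `vtx`-states: two states `s, t` with the same hole and the same cells (as sets) are equal: `cell s k = cell t k` by types,
then the letters.

`orbit`. Let `s k` be the state of `edge_state` for `(γ k, γ (k+1))`. `R (s k)` and `s (k+1)` are states whose cells are
`cellsAt (γ (k+1))`; both `rb`. Their holes are different: if they were equal then the sets of the other cells would be equal, i.e.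
`cellsAt (γ k) ∩ cellsAt (γ (k+1)) = cellsAt (γ (k+1)) ∩ cellsAt (γ (k+2))`, and `s (k+1) = R (s k)` (`state_unique`), so
`γ (k+2) = vtx (R (s (k+1))) = vtx (R (R (s k))) = vtx (s k) = γ k`, contradiction to `hi`. So with `t = R (s k)`: the hole of `s (k+1)` is
`cell t l`, `1 ≤ l ≤ d`; `turn l t` has the same hole and the same cells as `s (k+1)`, so `s (k+1) = turn l t` (`state_unique`). As
both `t` and `turn l t` are `rb`: the colours of the cells of `t` other than the hole are all `d` colours, the same for `turn l t`, so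
`c t.1 = c (cell t l)`: [`c t.1 = c (cell t i)` for exactly one `1 ≤ i ≤ d` (`exists_fc_eq`); if `i ≠ l` then `t.1` and `cell t i` are two cells of
`turn l t` other than its hole with the same colour, contradiction]. So `J c t = turn l t` (`J_turn`): `s (k+1) = Phi c (s k)`.
-/

set_option autoImplicit false

namespace Pool.Agent.DCP

private theorem cell_one' {d : ℕ} {L : Type} [AddCommGroup L] (D : LD d L) (s : St d L) :
    cell D s 1 = s.1 + D.v (letter s 0) := by
  have h := cell_succ D s 0
  rwa [cell_zero] at h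

/-- the cell with a given type -/
private theorem cell_type {d : ℕ} {L : Type} [AddCommGroup L] {D : LD d L} {s t : St d L}
    (h1 : D.ty s.1 = D.ty t.1) {k l : ℕ} (hk : k ≤ d) (hl : l ≤ d)
    (h : cell D s k = cell D t l) : k = l := by
  have h2 := congrArg D.ty h
  rw [ty_cell, ty_cell, h1, add_right_inj, ZMod.natCast_eq_natCast_iff'] at h2
  rwa [Nat.mod_eq_of_lt (by omega), Nat.mod_eq_of_lt (by omega)] at h2

/-- states with the same hole and the same cells are equal -/
theorem state_unique {d : ℕ} {L : Type} [AddCommGroup L] {D : LD d L} (hd : 1 ≤ d)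
    {s t : St d L} (h1 : s.1 = t.1)
    (h2 : ∀ k ≤ d, ∃ l ≤ d, cell D s k = cell D t l) : s = t := by
  have hc : ∀ k ≤ d, cell D s k = cell D t k := by
    intro k hk
    obtain ⟨l, hl, hkl⟩ := h2 k hk
    have h3 := cell_type (D := D) (s := s) (t := t) (by rw [h1]) hk hl hkl
    rw [h3] at hkl ⊢
    exact hkl
  have hl : ∀ k ≤ d, letter s k = letter t k := by
    intro k hk
    apply v_inj D hd
    have h4 : cell D s (k + 1) = cell D t (k + 1) := by
      rcases Nat.lt_or_ge k d with h | h
      · exact hc _ (by omega)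
      · have h5 : k = d := le_antisymm hk h
        rw [h5, cell_full, cell_full, h1]
    rw [cell_succ, cell_succ, hc k hk] at h4
    exact add_left_cancel h4
  refine Prod.ext h1 ?_
  apply Equiv.ext
  intro i
  have h6 := hl i.val (by omega)
  have h7 : Fin.ofNat (d + 1) i.val = i := by
    ext
    simp [Fin.ofNat, Nat.mod_eq_of_lt i.2]
  rw [letter, letter, h7] at h6
  exact h6

theorem edge_state {d : ℕ} (hd : 1 ≤ d) {c : Ast d → Fin d} {p q : Fin (d + 1) → ℝ}
    (h : ColEdge c p q) :
    ∃ s : St d (Ast d), rb (AD d) c s ∧ vtx s = p ∧ vtx (R (AD d) s) = q ∧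
      (∀ x, x ∈ cellsAt p ↔ ∃ k ≤ d, x = cell (AD d) s k) ∧
      (∀ x, x ∈ cellsAt q ↔ ∃ k ≤ d, x = cell (AD d) (R (AD d) s) k) ∧
      ∀ x, x ∈ cellsAt p ∩ cellsAt q ↔ ∃ j : Fin d, x = fc (AD d) s j := by
  obtain ⟨hp, hq, hpq, hc⟩ := h
  have hPn := hp.2
  have hQn := hq.2
  have hPf : (cellsAt p).Finite := Set.finite_of_ncard_pos (by omega)
  have hQf : (cellsAt q).Finite := Set.finite_of_ncard_pos (by omega)
  have hIf : (cellsAt p ∩ cellsAt q).Finite := hPf.subset Set.inter_subset_left
  obtain ⟨z, hzP, hzI⟩ := Set.exists_mem_notMem_of_ncard_lt_ncard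
    (s := cellsAt p ∩ cellsAt q) (t := cellsAt p) (by omega) hIf
  obtain ⟨z', hzQ', hzI'⟩ := Set.exists_mem_notMem_of_ncard_lt_ncard
    (s := cellsAt p ∩ cellsAt q) (t := cellsAt q) (by omega) hIf
  have hzQ : z ∉ cellsAt q := fun h => hzI ⟨hzP, h⟩
  have hzP' : z' ∉ cellsAt p := fun h => hzI' ⟨h, hzQ'⟩
  have hI : cellsAt p ∩ cellsAt q = cellsAt p \ {z} := by
    apply Set.eq_of_subset_of_ncard_le
    · intro x hx
      exact ⟨hx.1, fun h => hzI (by rw [← Set.mem_singleton_iff.1 h]; exact hx)⟩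
    · rw [Set.ncard_sdiff_singleton_of_mem hzP]
      omega
    · exact hPf.subset Set.sdiff_subset
  have hI' : cellsAt p ∩ cellsAt q = cellsAt q \ {z'} := by
    apply Set.eq_of_subset_of_ncard_le
    · intro x hx
      exact ⟨hx.2, fun h => hzI' (by rw [← Set.mem_singleton_iff.1 h]; exact hx)⟩
    · rw [Set.ncard_sdiff_singleton_of_mem hzQ']
      omega
    · exact hQf.subset Set.sdiff_subset
  obtain ⟨π, hπ, hπc⟩ := vertex_state hd hp hzP
  obtain ⟨π', hπ', hπc'⟩ := vertex_state hd hq hzQ'
  set s : St d (Ast d) := (z, π) with hs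
  set t : St d (Ast d) := (z', π') with ht
  have hs1 : s.1 = z := rfl
  have ht1 : t.1 = z' := rfl
  have hIs : ∀ x, x ∈ cellsAt p ∩ cellsAt q ↔ ∃ k, 1 ≤ k ∧ k ≤ d ∧ x = cell (AD d) s k := by
    intro x
    rw [hI]
    constructor
    · rintro ⟨hx, hxz⟩
      obtain ⟨k, hk, rfl⟩ := (hπc x).1 hx
      refine ⟨k, ?_, hk, rfl⟩
      rcases Nat.eq_zero_or_pos k with h | h
      · exfalso
        apply hxz
        rw [h, cell_zero]
        exact Set.mem_singleton _
      · exact h
    · rintro ⟨k, hk1, hk2, rfl⟩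
      refine ⟨(hπc _).2 ⟨k, hk2, rfl⟩, fun h => ?_⟩
      rw [Set.mem_singleton_iff, ← hs1, ← cell_zero (AD d) s] at h
      have := cell_inj (AD d) s hk2 (Nat.zero_le _) h
      omega
  have hIt : ∀ x, x ∈ cellsAt p ∩ cellsAt q ↔ ∃ k, 1 ≤ k ∧ k ≤ d ∧ x = cell (AD d) t k := by
    intro x
    rw [hI']
    constructor
    · rintro ⟨hx, hxz⟩
      obtain ⟨k, hk, rfl⟩ := (hπc' x).1 hx
      refine ⟨k, ?_, hk, rfl⟩
      rcases Nat.eq_zero_or_pos k with h | h
      · exfalso
        apply hxz
        rw [h, cell_zero]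
        exact Set.mem_singleton _
      · exact h
    · rintro ⟨k, hk1, hk2, rfl⟩
      refine ⟨(hπc' _).2 ⟨k, hk2, rfl⟩, fun h => ?_⟩
      rw [Set.mem_singleton_iff, ← ht1, ← cell_zero (AD d) t] at h
      have := cell_inj (AD d) t hk2 (Nat.zero_le _) h
      omega
  have hty : (AD d).ty s.1 = (AD d).ty t.1 := by
    by_contra hne
    set k : ℕ := ((AD d).ty t.1 - (AD d).ty s.1).val with hk
    have hkd : k < d + 1 := ZMod.val_lt _
    have hk0 : k ≠ 0 := by
      intro h
      rw [hk, ZMod.val_eq_zero, sub_eq_zero] at h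
      exact hne h.symm
    have hkc : ((k : ℕ) : ZMod (d + 1)) = (AD d).ty t.1 - (AD d).ty s.1 := by
      rw [hk, ZMod.natCast_zmod_val]
    obtain ⟨l, hl1, hl2, hl⟩ := (hIt _).1 ((hIs _).2 ⟨k, by omega, by omega, rfl⟩)
    have h5 := congrArg (AD d).ty hl
    rw [ty_cell, ty_cell, hkc, add_sub_cancel, left_eq_add] at h5
    have h6 := congrArg ZMod.val h5
    rw [ZMod.val_natCast, ZMod.val_zero, Nat.mod_eq_of_lt (by omega)] at h6
    omega
  have hcell : ∀ k, 1 ≤ k → k ≤ d → cell (AD d) s k = cell (AD d) t k := by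
    intro k hk1 hk2
    obtain ⟨l, hl1, hl2, hl⟩ := (hIt _).1 ((hIs _).2 ⟨k, hk1, hk2, rfl⟩)
    have h5 := cell_type hty hk2 hl2 hl
    rw [h5] at hl ⊢
    exact hl
  have hletter : ∀ k, 1 ≤ k → k < d → letter s k = letter t k := by
    intro k hk1 hk2
    apply v_inj (AD d) hd
    have h5 := hcell (k + 1) (by omega) (by omega)
    rw [cell_succ, cell_succ, hcell k hk1 hk2.le] at h5
    exact add_left_cancel h5
  have hzz : z ≠ z' := fun h => hzP' (h ▸ hzP)
  have hl0 : letter t 0 = letter s d := by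
    obtain ⟨i, hi, hil⟩ := exists_letter s (letter t 0)
    rcases Nat.eq_zero_or_pos i with h | h
    · exfalso
      apply hzz
      rw [h] at hil
      have h5 := hcell 1 le_rfl hd
      rw [cell_one', cell_one', hil] at h5
      exact add_right_cancel h5
    · rcases Nat.lt_or_ge i d with h' | h'
      · exfalso
        rw [hletter i h h'] at hil
        have := letter_inj t hi (Nat.zero_le _) hil
        omega
      · rw [← hil, le_antisymm hi h']
  have hRt : R (AD d) s = t := by
    apply state_unique hd (D := AD d)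
    · rw [R_fst, ← hl0]
      have h5 := hcell 1 le_rfl hd
      rw [cell_one', cell_one'] at h5
      rw [h5]
      abel
    · intro k hk
      refine ⟨k, hk, ?_⟩
      rcases Nat.eq_zero_or_pos k with h | h
      · rw [h, cell_zero, cell_zero, R_fst, ← hl0]
        have h5 := hcell 1 le_rfl hd
        rw [cell_one', cell_one'] at h5
        rw [h5]
        abel
      · rw [cell_R (AD d) s h hk, hcell k h hk]
  have hfc : ∀ x, x ∈ cellsAt p ∩ cellsAt q ↔ ∃ j : Fin d, x = fc (AD d) s j := by
    intro x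
    rw [hIs]
    constructor
    · rintro ⟨k, hk1, hk2, rfl⟩
      obtain ⟨j, -, hj⟩ := exists_fc (AD d) s hk1 hk2
      exact ⟨j, hj.symm⟩
    · rintro ⟨j, rfl⟩
      exact ⟨j + 1, by omega, by omega, rfl⟩
  refine ⟨s, ?_, hπ, ?_, hπc, ?_, hfc⟩
  · intro i j hij
    have h5 := hc ((hfc _).2 ⟨i, rfl⟩) ((hfc _).2 ⟨j, rfl⟩) hij
    have h6 := cell_inj (AD d) s (by omega) (by omega) h5
    ext
    omega
  · rw [hRt]
    exact hπ'
  · rw [hRt]
    exact hπc'

theorem orbit {d : ℕ} (hd : 1 ≤ d) {c : Ast d → Fin d} {γ : ℕ → Fin (d + 1) → ℝ}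
    (hi : Function.Injective γ) (he : ∀ k, ColEdge c (γ k) (γ (k + 1))) :
    ∃ s : St d (Ast d), rb (AD d) c s ∧ ∀ k, vtx ((Phi (AD d) c ^ k) s) = γ k := by
  choose s hrb hv hv' hP hQ hI using fun k => edge_state hd (he k)
  have key : ∀ k, s (k + 1) = Phi (AD d) c (s k) := by
    intro k
    set t := R (AD d) (s k) with ht
    set u := s (k + 1) with hu
    have hrt : rb (AD d) c t := rb_R.2 (hrb k)
    have hru : rb (AD d) c u := hrb (k + 1)
    have hut : ∀ i ≤ d, ∃ l ≤ d, cell (AD d) u i = cell (AD d) t l := fun i hi =>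
      (hQ k _).1 ((hP (k + 1) _).2 ⟨i, hi, rfl⟩)
    have htu : ∀ i ≤ d, ∃ l ≤ d, cell (AD d) t i = cell (AD d) u l := fun i hi =>
      (hP (k + 1) _).1 ((hQ k _).2 ⟨i, hi, rfl⟩)
    obtain ⟨l, hl, hul⟩ := hut 0 (Nat.zero_le _)
    rw [cell_zero] at hul
    have hl1 : 1 ≤ l := by
      rcases Nat.eq_zero_or_pos l with h | h
      · exfalso
        rw [h, cell_zero] at hul
        have h1 : u = t := state_unique hd hul hut
        have h2 : γ (k + 2) = γ k := by
          rw [← hv' (k + 1), ← hu, h1, ht, R_R, hv k]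
        have := hi h2
        omega
      · exact h
    have hturn : u = turn (AD d) l t := by
      apply state_unique hd (D := AD d)
      · rw [turn_fst, hul]
      · intro i hi
        obtain ⟨j, hj, hij⟩ := hut i hi
        rcases Nat.lt_or_ge j l with h | h
        · refine ⟨j + (d + 1) - l, by omega, ?_⟩
          rw [cell_turn, show l + (j + (d + 1) - l) = j + (d + 1) by omega, cell_period, hij]
        · refine ⟨j - l, by omega, ?_⟩
          rw [cell_turn, show l + (j - l) = j by omega, hij]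
    -- every cell of `t` other than the cell `l` is a cell of the edge `u`
    have hfc : ∀ i ≤ d, i ≠ l → ∃ a : Fin d, cell (AD d) t i = fc (AD d) u a := by
      intro i hi hil
      obtain ⟨a, ha, hia⟩ := htu i hi
      have ha0 : 1 ≤ a := by
        rcases Nat.eq_zero_or_pos a with h | h
        · exfalso
          rw [h, cell_zero, hul] at hia
          exact hil (cell_inj (AD d) t hi hl hia)
        · exact h
      obtain ⟨b, -, hb⟩ := exists_fc (AD d) u ha0 ha
      exact ⟨b, by rw [hb, hia]⟩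
    obtain ⟨j, hj⟩ := exists_fc_eq hrt (c t.1)
    have hjl : (j : ℕ) + 1 = l := by
      by_contra hne
      obtain ⟨a, ha⟩ := hfc (j + 1) (by omega) hne
      obtain ⟨b, hb⟩ := hfc 0 (Nat.zero_le _) (by omega)
      have h1 : c (fc (AD d) u a) = c (fc (AD d) u b) := by
        rw [← ha, ← hb, cell_zero]
        exact hj
      have h2 : a = b := hru h1
      rw [h2, ← hb] at ha
      have := cell_inj (AD d) t (by omega) (Nat.zero_le _) ha
      omega
    have h3 : c (cell (AD d) t l) = c t.1 := by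
      rw [← hjl]
      exact hj
    rw [Phi_apply, ← ht, J_turn hrt hl1 hl h3]
    exact hturn
  refine ⟨s 0, hrb 0, fun k => ?_⟩
  have h4 : ∀ k, (Phi (AD d) c ^ k) (s 0) = s k := by
    intro k
    induction k with
    | zero => rfl
    | succ k ih => rw [pow_succ', Equiv.Perm.mul_apply, ih, key k]
  rw [h4, hv]

/-- the tessellation is symmetric -/
theorem ColEdge_neg {d : ℕ} {c : Ast d → Fin d} {p q : Fin (d + 1) → ℝ} (h : ColEdge c p q) :
    ColEdge (fun x => c (-x)) (-p) (-q) := by
  have hneg : ∀ (p : Fin (d + 1) → ℝ) (x : Ast d), sqd (-p) (x : Fin (d + 1) → ℝ) =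
      sqd p ((-x : Ast d) : Fin (d + 1) → ℝ) := by
    intro p x
    unfold sqd
    refine Finset.sum_congr rfl fun i _ => ?_
    simp only [Pi.neg_apply, NegMemClass.coe_neg]
    ring
  have hc : ∀ p : Fin (d + 1) → ℝ, cellsAt (-p) = (fun x : Ast d => -x) '' cellsAt p := by
    intro p
    ext x
    constructor
    · intro hx
      refine ⟨-x, fun y => ?_, neg_neg x⟩
      have h1 := hx (-y)
      rwa [hneg, hneg, neg_neg] at h1
    · rintro ⟨y, hy, rfl⟩
      intro w
      rw [hneg, hneg, neg_neg]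
      exact hy (-w)
  have hV : ∀ p : Fin (d + 1) → ℝ, IsVertex p → IsVertex (-p) := by
    rintro p ⟨h1, h2⟩
    refine ⟨?_, ?_⟩
    · simp only [Pi.neg_apply, Finset.sum_neg_distrib, h1, neg_zero]
    · rw [hc, Set.ncard_image_of_injective _ neg_injective, h2]
  have hinter : cellsAt (-p) ∩ cellsAt (-q) =
      (fun x : Ast d => -x) '' (cellsAt p ∩ cellsAt q) := by
    rw [hc, hc, Set.image_inter neg_injective]
  refine ⟨hV p h.1, hV q h.2.1, ?_, ?_⟩
  · rw [hinter, Set.ncard_image_of_injective _ neg_injective, h.2.2.1]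
  · rw [hinter]
    rintro _ ⟨x, hx, rfl⟩ _ ⟨y, hy, rfl⟩ hxy
    simp only [neg_neg] at hxy
    rw [h.2.2.2 hx hy hxy]

end Pool.Agent.DCP
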