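import Pool.Agent.DCP.Basic

/-!
# d-colour paths: the dynamics

`rb D c s`: the `d` cells of the edge `s` have distinct colours. `J D c s`: the other `d`-colour edge
at the vertex of `s`. `Phi D c`: the next edge of the `d`-colour path.
-/

set_option autoImplicit false

namespace Pool.Agent.DCP

variable {d : ℕ} {L : Type} [AddCommGroup L] (D : LD d L)

/-- the edge is a `d`-colour edge -/
def rb (c : L → Fin d) (s : St d L) : Prop := Function.Injective (fun j : Fin d => c (fc D s j))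

open Classical in
/-- the other `d`-colour edge at the vertex -/
noncomputable def J (c : L → Fin d) (s : St d L) : St d L :=
  if h : rb D c s ∧ ∃ j : Fin d, c (fc D s j) = c s.1 then turn D (h.2.choose + 1) s else s

variable {D}

theorem exists_fc_eq {c : L → Fin d} {s : St d L} (h : rb D c s) (q : Fin d) :
    ∃ j : Fin d, c (fc D s j) = q := (Finite.surjective_of_injective h) q

theorem J_not {c : L → Fin d} {s : St d L} (h : ¬rb D c s) : J D c s = s := by
  rw [J, dif_neg]
  exact fun h1 => h h1.1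

theorem J_eq {c : L → Fin d} {s : St d L} (h : rb D c s) {j : Fin d}
    (hj : c (fc D s j) = c s.1) : J D c s = turn D (j + 1) s := by
  have h1 : rb D c s ∧ ∃ j : Fin d, c (fc D s j) = c s.1 := ⟨h, j, hj⟩
  rw [J, dif_pos h1]
  have h2 : h1.2.choose = j := h (by
    show c (fc D s h1.2.choose) = c (fc D s j)
    rw [h1.2.choose_spec, hj])
  rw [h2]

theorem J_turn {c : L → Fin d} {s : St d L} (h : rb D c s) {k : ℕ} (h0 : 1 ≤ k) (h1 : k ≤ d)
    (hk : c (cell D s k) = c s.1) : J D c s = turn D k s := by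
  obtain ⟨j, rfl, hj⟩ := exists_fc D s h0 h1
  exact J_eq h (by rw [hj, hk])

/-- the cells of a turned state, in terms of the cells of the state -/
theorem fc_turn {s : St d L} (j i : Fin d) :
    (i + j + 1 = (d : ℕ) ∧ fc D (turn D (j + 1) s) i = s.1) ∨
      ∃ l : Fin d, l ≠ j ∧ fc D (turn D (j + 1) s) i = fc D s l ∧
        ((i + j + 1 < d ∧ (l : ℕ) = i + j + 1) ∨ (d < i + j + 1 ∧ (l : ℕ) + d = i + j)) := by
  rcases lt_trichotomy ((i : ℕ) + j + 1) d with h | h | h
  · refine Or.inr ⟨⟨i + j + 1, h⟩, ?_, ?_, Or.inl ⟨h, rfl⟩⟩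
    · intro h1
      have := congrArg Fin.val h1
      simp at this
      omega
    · rw [fc, fc, cell_turn]
      congr 1
      show (j : ℕ) + 1 + (i + 1) = i + j + 1 + 1
      omega
  · refine Or.inl ⟨h, ?_⟩
    rw [fc, cell_turn, show (j : ℕ) + 1 + (i + 1) = d + 1 by omega, cell_full]
  · have hi := i.2
    have hj := j.2
    refine Or.inr ⟨⟨i + j - d, by omega⟩, ?_, ?_, Or.inr ⟨h, ?_⟩⟩
    · intro h1
      have := congrArg Fin.val h1
      simp at this
      omega
    · rw [fc, fc, cell_turn]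
      have h2 : (j : ℕ) + 1 + (i + 1) = (i + j - d + 1) + (d + 1) := by omega
      rw [h2, cell_period]
    · show (i : ℕ) + j - d + d = i + j
      omega

theorem rb_turn {c : L → Fin d} {s : St d L} (h : rb D c s) {j : Fin d}
    (hj : c (fc D s j) = c s.1) : rb D c (turn D (j + 1) s) := by
  intro i i' he
  have he' : c (fc D (turn D (j + 1) s) i) = c (fc D (turn D (j + 1) s) i') := he
  ext
  rcases fc_turn (D := D) (s := s) j i with ⟨h1, h2⟩ | ⟨l, h1, h2, h3⟩ <;>
    rcases fc_turn (D := D) (s := s) j i' with ⟨h1', h2'⟩ | ⟨l', h1', h2', h3'⟩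
  · omega
  · rw [h2, h2', ← hj] at he'
    exact absurd (h he').symm h1'
  · rw [h2, h2', ← hj] at he'
    exact absurd (h he') h1
  · rw [h2, h2'] at he'
    have h4 : l = l' := h he'
    have h5 := congrArg Fin.val h4
    omega

theorem rb_J {c : L → Fin d} {s : St d L} : rb D c (J D c s) ↔ rb D c s := by
  by_cases h : rb D c s
  · obtain ⟨j, hj⟩ := exists_fc_eq h (c s.1)
    rw [J_eq h hj]
    exact ⟨fun _ => h, fun _ => rb_turn h hj⟩
  · rw [J_not h]

theorem J_J (c : L → Fin d) (s : St d L) : J D c (J D c s) = s := by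
  by_cases h : rb D c s
  · obtain ⟨j, hj⟩ := exists_fc_eq h (c s.1)
    rw [J_eq h hj]
    have hj2 := j.2
    have h1 : fc D (turn D (j + 1) s) ⟨d - 1 - j, by omega⟩ = s.1 := by
      rw [fc, cell_turn]
      rw [show (j : ℕ) + 1 + (((⟨d - 1 - j, by omega⟩ : Fin d) : ℕ) + 1) = d + 1 by
        show (j : ℕ) + 1 + (d - 1 - j + 1) = d + 1
        omega, cell_full]
    have h2 : c (fc D (turn D (j + 1) s) ⟨d - 1 - j, by omega⟩) = c (turn D (j + 1) s).1 := by
      rw [h1, turn_fst]
      exact hj.symm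
    rw [J_eq (rb_turn h hj) h2, turn_turn]
    show turn D (j + 1 + (d - 1 - j + 1)) s = s
    rw [show (j : ℕ) + 1 + (d - 1 - j + 1) = d + 1 by omega, turn_full]
  · rw [J_not h, J_not h]

theorem rb_R {c : L → Fin d} {s : St d L} : rb D c (R D s) ↔ rb D c s := by
  rw [rb, rb]
  simp only [fc_R]

variable (D)

/-- the next edge -/
noncomputable def Phi (c : L → Fin d) : Equiv.Perm (St d L) where
  toFun s := J D c (R D s)
  invFun s := R D (J D c s)
  left_inv s := by simp only [J_J, R_R]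
  right_inv s := by simp only [R_R, J_J]

variable {D}

theorem Phi_apply (c : L → Fin d) (s : St d L) : Phi D c s = J D c (R D s) := rfl

theorem Phi_symm (c : L → Fin d) (s : St d L) : (Phi D c)⁻¹ s = R D (J D c s) := rfl

theorem rb_Phi {c : L → Fin d} {s : St d L} : rb D c (Phi D c s) ↔ rb D c s := by
  rw [Phi_apply, rb_J, rb_R]

theorem rb_Phi_inv {c : L → Fin d} {s : St d L} : rb D c ((Phi D c)⁻¹ s) ↔ rb D c s := by
  rw [Phi_symm, rb_R, rb_J]

theorem rb_Phi_pow {c : L → Fin d} {s : St d L} (k : ℕ) :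
    rb D c ((Phi D c ^ k) s) ↔ rb D c s := by
  induction k with
  | zero => rw [pow_zero]; rfl
  | succ k ih => rw [pow_succ', Equiv.Perm.mul_apply, rb_Phi, ih]

theorem rb_Phi_inv_pow {c : L → Fin d} {s : St d L} (k : ℕ) :
    rb D c (((Phi D c)⁻¹ ^ k) s) ↔ rb D c s := by
  induction k with
  | zero => rw [pow_zero]; rfl
  | succ k ih => rw [pow_succ', Equiv.Perm.mul_apply, rb_Phi_inv, ih]

/-- reversal -/
theorem R_Phi (c : L → Fin d) (s : St d L) : R D (Phi D c s) = (Phi D c)⁻¹ (R D s) := by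
  rw [Phi_symm, Phi_apply]

theorem R_Phi_inv (c : L → Fin d) (s : St d L) : R D ((Phi D c)⁻¹ s) = Phi D c (R D s) := by
  rw [Phi_symm, Phi_apply, R_R, R_R]

theorem R_Phi_pow (c : L → Fin d) (s : St d L) (k : ℕ) :
    R D ((Phi D c ^ k) s) = ((Phi D c)⁻¹ ^ k) (R D s) := by
  induction k with
  | zero => rfl
  | succ k ih => rw [pow_succ', pow_succ', Equiv.Perm.mul_apply, Equiv.Perm.mul_apply, R_Phi, ih]

theorem R_Phi_inv_pow (c : L → Fin d) (s : St d L) (k : ℕ) :
    R D (((Phi D c)⁻¹ ^ k) s) = (Phi D c ^ k) (R D s) := by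
  induction k with
  | zero => rfl
  | succ k ih =>
    rw [pow_succ', pow_succ', Equiv.Perm.mul_apply, Equiv.Perm.mul_apply, R_Phi_inv, ih]

/-- the hole of a `d`-colour edge has the colour of a cell of the edge; the hole of the next edge is
a cell of the edge -/
theorem Phi_fst {c : L → Fin d} {s : St d L} (h : rb D c s) :
    ∃ j : Fin d, (Phi D c s).1 = fc D s j ∧ c (fc D s j) = c (R D s).1 := by
  obtain ⟨j, hj⟩ := exists_fc_eq (rb_R.2 h) (c (R D s).1)
  refine ⟨j, ?_, ?_⟩
  · rw [Phi_apply, J_eq (rb_R.2 h) hj, turn_fst]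
    exact fc_R D s j
  · rw [← hj, fc_R]

/-- every cell of the edge `s` is a cell of the next edge or its hole -/
theorem fc_Phi {c : L → Fin d} {s : St d L} (h : rb D c s) (j : Fin d) :
    fc D s j = (Phi D c s).1 ∨ ∃ i : Fin d, fc D s j = fc D (Phi D c s) i := by
  obtain ⟨l, hl⟩ := exists_fc_eq (rb_R.2 h) (c (R D s).1)
  have hl2 := l.2
  have hj2 := j.2
  rw [Phi_apply, J_eq (rb_R.2 h) hl, ← fc_R D s j]
  rcases lt_trichotomy (j : ℕ) l with h1 | h1 | h1
  · refine Or.inr ⟨⟨d + j - l, by omega⟩, ?_⟩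
    rw [fc, fc, cell_turn]
    show _ = cell D (R D s) (l + 1 + (d + j - l + 1))
    rw [show (l : ℕ) + 1 + (d + j - l + 1) = (j + 1) + (d + 1) by omega, cell_period]
  · left
    rw [turn_fst, fc, h1]
  · refine Or.inr ⟨⟨j - l - 1, by omega⟩, ?_⟩
    rw [fc, fc, cell_turn]
    show _ = cell D (R D s) (l + 1 + (j - l - 1 + 1))
    rw [show (l : ℕ) + 1 + (j - l - 1 + 1) = j + 1 by omega]

/-- the hole at the other end of `s` is a cell of the next edge -/
theorem R_fst_mem {c : L → Fin d} {s : St d L} (h : rb D c s) :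
    ∃ i : Fin d, (R D s).1 = fc D (Phi D c s) i := by
  obtain ⟨l, hl⟩ := exists_fc_eq (rb_R.2 h) (c (R D s).1)
  have hl2 := l.2
  refine ⟨⟨d - 1 - l, by omega⟩, ?_⟩
  rw [Phi_apply, J_eq (rb_R.2 h) hl, fc, cell_turn]
  show _ = cell D (R D s) (l + 1 + (d - 1 - l + 1))
  rw [show (l : ℕ) + 1 + (d - 1 - l + 1) = d + 1 by omega, cell_full]

/-- `J` depends on the colours of the cells of the vertex only -/
theorem J_congr {c c' : L → Fin d} {s : St d L} (h : ∀ k ≤ d, c (cell D s k) = c' (cell D s k)) :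
    J D c s = J D c' s := by
  have h1 : ∀ j : Fin d, c (fc D s j) = c' (fc D s j) := fun j => h _ (by omega)
  have h2 : c s.1 = c' s.1 := by
    have := h 0 (by omega)
    rwa [cell_zero] at this
  have h3 : rb D c s ↔ rb D c' s := by
    rw [rb, rb]
    simp only [h1]
  by_cases h4 : rb D c s
  · obtain ⟨j, hj⟩ := exists_fc_eq h4 (c s.1)
    rw [J_eq h4 hj, J_eq (h3.1 h4) (j := j) (by rw [← h1, hj, h2])]
  · rw [J_not h4, J_not (fun h5 => h4 (h3.2 h5))]

/-- one step of the ray: the colours of the cells of the edge and of the next edge suffice -/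
theorem Phi_congr {c c' : L → Fin d} {s : St d L} (h : rb D c s)
    (h1 : ∀ j, c' (fc D s j) = c (fc D s j))
    (h2 : ∀ j, c' (fc D (Phi D c s) j) = c (fc D (Phi D c s) j)) :
    rb D c' s ∧ Phi D c' s = Phi D c s := by
  have h3 : rb D c' s := by
    rw [rb]
    simp only [h1]
    exact h
  refine ⟨h3, ?_⟩
  obtain ⟨i, hi⟩ := R_fst_mem h
  obtain ⟨j, hj⟩ := exists_fc_eq (rb_R.2 h) (c (R D s).1)
  rw [Phi_apply, Phi_apply, J_eq (rb_R.2 h) hj, J_eq (rb_R.2 h3) (j := j)]
  rw [fc_R] at hj ⊢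
  rw [h1, hj, hi, h2]

/-- the ray depends on the colours of the cells of its edges only -/
theorem Phi_pow_congr {c c' : L → Fin d} {s : St d L} (h : rb D c s)
    (h1 : ∀ k j, c' (fc D ((Phi D c ^ k) s) j) = c (fc D ((Phi D c ^ k) s) j)) :
    rb D c' s ∧ ∀ k, (Phi D c' ^ k) s = (Phi D c ^ k) s := by
  have h2 : rb D c' s := by
    have := h1 0
    rw [pow_zero] at this
    rw [rb]
    have h3 : ∀ j, c' (fc D s j) = c (fc D s j) := this
    simp only [h3]
    exact h
  refine ⟨h2, fun k => ?_⟩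
  induction k with
  | zero => rfl
  | succ k ih =>
    rw [pow_succ', pow_succ', Equiv.Perm.mul_apply, Equiv.Perm.mul_apply, ih]
    refine (Phi_congr ((rb_Phi_pow k).2 h) (h1 k) ?_).2
    have h4 := h1 (k + 1)
    rw [pow_succ', Equiv.Perm.mul_apply] at h4
    exact h4

end Pool.Agent.DCP
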