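import Mathlib

/-!
# d-colour paths in the permutohedron tessellation: combinatorics

Cells are the points of a lattice `L` with vectors `v 0, ..., v d`, `∑ v i = 0` (for `A_d^*`:
`v i = e_i - (1, ..., 1) / (d + 1)`). A vertex of the tessellation is in `d + 1` cells
`z, z + v (π 0), z + v (π 0) + v (π 1), ...`. A state `(z, π)` is a vertex together with one of its
cells `z` (the hole); it stands for the edge in the other `d` cells, oriented away from the vertex.
-/

set_option autoImplicit false

namespace Pool.Agent.DCP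

/-- lattice data -/
structure LD (d : ℕ) (L : Type) [AddCommGroup L] where
  v : Fin (d + 1) → L
  sum_v : ∑ i, v i = 0
  ty : L →+ ZMod (d + 1)
  ty_v : ∀ i, ty (v i) = 1
  rt : Fin (d + 1) → Fin (d + 1) → L →+ ℤ
  rt_v : ∀ i j k, rt i j (v k) = (if k = i then 1 else 0) - (if k = j then 1 else 0)

/-- states -/
abbrev St (d : ℕ) (L : Type) : Type := L × Equiv.Perm (Fin (d + 1))

variable {d : ℕ} {L : Type} [AddCommGroup L] (D : LD d L)

/-- the letters of a state -/
def letter (s : St d L) (i : ℕ) : Fin (d + 1) := s.2 (Fin.ofNat (d + 1) i)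

/-- the cells of a state -/
def cell (s : St d L) (k : ℕ) : L := s.1 + ∑ i ∈ Finset.range k, D.v (letter s i)

/-- the same vertex, other hole -/
def turn (k : ℕ) (s : St d L) : St d L :=
  (cell D s k, (Equiv.addLeft (Fin.ofNat (d + 1) k)).trans s.2)

/-- the other end of the edge -/
def R (s : St d L) : St d L :=
  (s.1 + D.v (letter s 0) - D.v (letter s d), (Equiv.swap 0 (Fin.last d)).trans s.2)

/-- the cells of the edge -/
def fc (s : St d L) (j : Fin d) : L := cell D s (j + 1)

theorem ofNat_add (i j : ℕ) :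
    Fin.ofNat (d + 1) (i + j) = Fin.ofNat (d + 1) i + Fin.ofNat (d + 1) j := by
  ext
  simp [Fin.val_add, Fin.ofNat, Nat.add_mod]

theorem letter_period (s : St d L) (i : ℕ) : letter s (i + (d + 1)) = letter s i := by
  rw [letter, letter]
  congr 1
  ext
  simp [Fin.ofNat]

theorem cell_zero (s : St d L) : cell D s 0 = s.1 := by
  rw [cell, Finset.range_zero, Finset.sum_empty, add_zero]

theorem cell_succ (s : St d L) (k : ℕ) : cell D s (k + 1) = cell D s k + D.v (letter s k) := by
  rw [cell, cell, Finset.sum_range_succ, add_assoc]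

theorem cell_full (s : St d L) : cell D s (d + 1) = s.1 := by
  rw [cell, Finset.sum_range]
  have h : ∀ i : Fin (d + 1), letter s (i : ℕ) = s.2 i := by
    intro i
    rw [letter]
    congr 1
    ext
    simp [Fin.ofNat, Nat.mod_eq_of_lt i.2]
  simp only [h]
  rw [Equiv.sum_comp s.2 D.v, D.sum_v, add_zero]

theorem cell_period (s : St d L) (k : ℕ) : cell D s (k + (d + 1)) = cell D s k := by
  induction k with
  | zero => rw [Nat.zero_add, cell_full, cell_zero]
  | succ k ih =>
    rw [show k + 1 + (d + 1) = k + (d + 1) + 1 by omega, cell_succ, ih, letter_period, cell_succ]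

theorem ty_cell (s : St d L) (k : ℕ) : D.ty (cell D s k) = D.ty s.1 + k := by
  induction k with
  | zero => rw [cell_zero, Nat.cast_zero, add_zero]
  | succ k ih =>
    rw [cell_succ, map_add, ih, D.ty_v, Nat.cast_succ, add_assoc]

theorem cell_inj (s : St d L) {i j : ℕ} (hi : i ≤ d) (hj : j ≤ d)
    (h : cell D s i = cell D s j) : i = j := by
  have h1 := congrArg D.ty h
  rw [ty_cell, ty_cell, add_right_inj, ZMod.natCast_eq_natCast_iff'] at h1
  rwa [Nat.mod_eq_of_lt (by omega), Nat.mod_eq_of_lt (by omega)] at h1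

theorem v_inj (hd : 1 ≤ d) {i j : Fin (d + 1)} (h : D.v i = D.v j) : i = j := by
  by_contra hne
  have h1 := congrArg (D.rt i j) h
  rw [D.rt_v, D.rt_v, if_pos rfl, if_neg hne, if_neg (Ne.symm hne), if_pos rfl] at h1
  norm_num at h1

theorem letter_turn (k : ℕ) (s : St d L) (i : ℕ) :
    letter (turn D k s) i = letter s (k + i) := by
  rw [letter, letter, turn, ofNat_add]
  rfl

theorem cell_turn (k : ℕ) (s : St d L) (i : ℕ) : cell D (turn D k s) i = cell D s (k + i) := by
  induction i with
  | zero => rw [cell_zero, add_zero]; rfl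
  | succ i ih => rw [cell_succ, ih, letter_turn, ← add_assoc, cell_succ]

theorem turn_fst (k : ℕ) (s : St d L) : (turn D k s).1 = cell D s k := rfl

theorem turn_turn (j k : ℕ) (s : St d L) : turn D j (turn D k s) = turn D (k + j) s := by
  refine Prod.ext (cell_turn D k s j) ?_
  ext i
  show ((s.2 (Fin.ofNat (d + 1) k + (Fin.ofNat (d + 1) j + i)) : Fin (d + 1)) : ℕ) =
    s.2 (Fin.ofNat (d + 1) (k + j) + i)
  rw [ofNat_add, add_assoc]

theorem turn_full (s : St d L) : turn D (d + 1) s = s := by
  refine Prod.ext (cell_full D s) ?_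
  ext i
  show ((s.2 (Fin.ofNat (d + 1) (d + 1) + i) : Fin (d + 1)) : ℕ) = s.2 i
  congr 2
  have : Fin.ofNat (d + 1) (d + 1) = 0 := by
    ext
    simp [Fin.ofNat]
  rw [this, zero_add]

theorem turn_zero (s : St d L) : turn D 0 s = s := by
  refine Prod.ext (cell_zero D s) ?_
  ext i
  show ((s.2 (Fin.ofNat (d + 1) 0 + i) : Fin (d + 1)) : ℕ) = s.2 i
  congr 2
  have : Fin.ofNat (d + 1) 0 = 0 := by
    ext
    simp [Fin.ofNat]
  rw [this, zero_add]

theorem turn_period (k : ℕ) (s : St d L) : turn D (k + (d + 1)) s = turn D k s := by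
  rw [add_comm, ← turn_turn, turn_full]

theorem ofNat_last : Fin.ofNat (d + 1) d = Fin.last d := by
  ext
  simp [Fin.ofNat]

theorem ofNat_zero : Fin.ofNat (d + 1) 0 = 0 := by
  ext
  simp [Fin.ofNat]

theorem letter_R_zero (s : St d L) : letter (R D s) 0 = letter s d := by
  rw [letter, letter, ofNat_last, ofNat_zero]
  show s.2 (Equiv.swap 0 (Fin.last d) 0) = _
  rw [Equiv.swap_apply_left]

theorem letter_R_last (s : St d L) : letter (R D s) d = letter s 0 := by
  rw [letter, letter, ofNat_last, ofNat_zero]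
  show s.2 (Equiv.swap 0 (Fin.last d) (Fin.last d)) = _
  rw [Equiv.swap_apply_right]

theorem letter_R_mid (s : St d L) {i : ℕ} (h0 : 0 < i) (h1 : i < d) :
    letter (R D s) i = letter s i := by
  rw [letter, letter]
  show s.2 (Equiv.swap 0 (Fin.last d) (Fin.ofNat (d + 1) i)) = _
  rw [Equiv.swap_apply_of_ne_of_ne]
  · intro h
    have := congrArg Fin.val h
    simp [Fin.ofNat, Nat.mod_eq_of_lt (show i < d + 1 by omega)] at this
    omega
  · intro h
    have := congrArg Fin.val h
    simp [Fin.ofNat, Nat.mod_eq_of_lt (show i < d + 1 by omega)] at this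
    omega

theorem R_fst (s : St d L) : (R D s).1 = s.1 + D.v (letter s 0) - D.v (letter s d) := rfl

theorem R_R (s : St d L) : R D (R D s) = s := by
  refine Prod.ext ?_ ?_
  · rw [R_fst, R_fst, letter_R_zero, letter_R_last]
    abel
  · ext i
    show ((s.2 (Equiv.swap 0 (Fin.last d) (Equiv.swap 0 (Fin.last d) i)) : Fin (d + 1)) : ℕ) = s.2 i
    rw [Equiv.swap_apply_self]

theorem cell_R (s : St d L) {k : ℕ} (h0 : 1 ≤ k) (h1 : k ≤ d) :
    cell D (R D s) k = cell D s k := by
  induction k with
  | zero => omega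
  | succ k ih =>
    rcases Nat.eq_zero_or_pos k with rfl | hk
    · rw [cell_succ, cell_succ, cell_zero, cell_zero, letter_R_zero, R_fst]
      abel
    · rw [cell_succ, cell_succ, ih (by omega) (by omega), letter_R_mid D s hk (by omega)]

theorem fc_R (s : St d L) (j : Fin d) : fc D (R D s) j = fc D s j :=
  cell_R D s (by omega) (by omega)

theorem fc_ne (s : St d L) (j : Fin d) : fc D s j ≠ s.1 := by
  intro h
  rw [fc, ← cell_zero D s] at h
  have := cell_inj D s (by omega) (by omega) h
  omega

theorem ty_R (s : St d L) : D.ty (R D s).1 = D.ty s.1 := by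
  rw [R_fst, map_sub, map_add, D.ty_v, D.ty_v]
  ring

theorem letter_inj (s : St d L) {i j : ℕ} (hi : i ≤ d) (hj : j ≤ d)
    (h : letter s i = letter s j) : i = j := by
  have h1 := s.2.injective h
  have h2 := congrArg Fin.val h1
  simp [Fin.ofNat] at h2
  rwa [Nat.mod_eq_of_lt (by omega), Nat.mod_eq_of_lt (by omega)] at h2

theorem exists_letter (s : St d L) (a : Fin (d + 1)) : ∃ i, i ≤ d ∧ letter s i = a := by
  refine ⟨(s.2.symm a : Fin (d + 1)), by omega, ?_⟩
  rw [letter]
  have : Fin.ofNat (d + 1) ((s.2.symm a : Fin (d + 1)) : ℕ) = s.2.symm a := by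
    ext
    simp [Fin.ofNat, Nat.mod_eq_of_lt (s.2.symm a).2]
  rw [this, Equiv.apply_symm_apply]

/-- every cell of the vertex other than the hole is a cell of the edge -/
theorem exists_fc (s : St d L) {k : ℕ} (h0 : 1 ≤ k) (h1 : k ≤ d) :
    ∃ j : Fin d, (j : ℕ) + 1 = k ∧ fc D s j = cell D s k :=
  ⟨⟨k - 1, by omega⟩, by show k - 1 + 1 = k; omega, by
    rw [fc]; congr 1; show k - 1 + 1 = k; omega⟩

end Pool.Agent.DCP
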