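import Pool.Agent.DCP.Sys
import Pool.Agent.VINO.PA

/-!
# d-colour paths: averages along the rays converge

PROOF. `Pool.Agent.VINO.birk` (pointwise ergodic theorem for bounded measurable `f : X → ℂ`, any
`c > 0`, e.g. `c = 1`; first conclusion) for `X = XX d L`, `μ = mX L ν`, `T = The D` (`The_mp`),
`f x = (if x.1 0 = i then 1 else 0) - (if x.1 (Fin.last d) = i then 1 else 0)`; by `The_iter`
`f ((The D)^[k] (π, c)) = [letter (Φ^k (0, π)) 0 = i] - [letter (Φ^k (0, π)) d = i]`. The other states are translates.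
-/

set_option autoImplicit false

namespace Pool.Agent.DCP

open MeasureTheory Filter Topology

variable {d : ℕ} {L : Type} [AddCommGroup L] {D : LD d L}
variable (ν : Measure (Fin d)) [IsProbabilityMeasure ν]

/-- the observable, as a function of the permutation -/
noncomputable def obs (i : Fin (d + 1)) (π : Equiv.Perm (Fin (d + 1))) : ℝ :=
  (if letter ((0 : L), π) 0 = i then (1 : ℝ) else 0) -
    (if letter ((0 : L), π) d = i then (1 : ℝ) else 0)

theorem obs_eq (i : Fin (d + 1)) (s : St d L) :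
    obs (L := L) i s.2 = (if letter s 0 = i then (1 : ℝ) else 0) -
      (if letter s d = i then (1 : ℝ) else 0) := rfl

theorem obs_abs (i : Fin (d + 1)) (π : Equiv.Perm (Fin (d + 1))) : |obs (L := L) i π| ≤ 2 := by
  unfold obs
  rw [abs_le]
  constructor <;> split_ifs <;> norm_num

theorem birk_zero [Countable L] (i : Fin (d + 1)) (π : Equiv.Perm (Fin (d + 1))) :
    ∀ᵐ c ∂(mu L ν), ∃ q : ℝ, Tendsto (fun N : ℕ => (N : ℝ)⁻¹ *
      ∑ k ∈ Finset.range N, obs (L := L) i ((Phi D c ^ k) ((0 : L), π)).2) atTop (𝓝 q) := by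
  have h := Pool.Agent.VINO.birk (c := 1) one_pos (mX L ν) (The D) (The_mp ν)
    (fun x => ((obs (L := L) i x.1 : ℝ) : ℂ))
    (Complex.measurable_ofReal.comp ((measurable_of_countable (obs (L := L) i)).comp
      measurable_fst))
    ⟨2, fun x => by
      rw [Complex.norm_real, Real.norm_eq_abs]
      exact obs_abs i x.1⟩
  rw [ae_iff] at h
  have h1 := mX_null ν h π
  rw [ae_iff]
  refine measure_mono_null ?_ h1
  intro c hc
  simp only [Set.mem_setOf_eq] at hc ⊢
  intro h2
  obtain ⟨z, hz, -⟩ := h2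
  refine hc ⟨z.re, ?_⟩
  have h3 := (Complex.continuous_re.tendsto z).comp hz
  refine h3.congr fun N => ?_
  have h4 : ∀ m, ((The D)^[m] ((π, c) : XX d L)).1 = ((Phi D c ^ m) ((0 : L), π)).2 := fun m => by
    rw [The_iter]
  simp only [Function.comp, h4]
  rw [← Complex.ofReal_natCast, ← Complex.ofReal_inv, ← Complex.ofReal_sum, ← Complex.ofReal_mul,
    Complex.ofReal_re]

theorem birk_all [Countable L] (i : Fin (d + 1)) :
    ∀ᵐ c ∂(mu L ν), ∀ s : St d L, ∃ q : ℝ, Tendsto (fun N : ℕ => (N : ℝ)⁻¹ *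
      ∑ k ∈ Finset.range N, ((if letter ((Phi D c ^ k) s) 0 = i then (1 : ℝ) else 0) -
        (if letter ((Phi D c ^ k) s) d = i then (1 : ℝ) else 0))) atTop (𝓝 q) := by
  rw [ae_all_iff]
  rintro ⟨z, π⟩
  have h := (mu_equiv ν (Equiv.addRight z)).quasiMeasurePreserving.ae
    (birk_zero (D := D) ν i π)
  filter_upwards [h] with c hc
  obtain ⟨q, hq⟩ := hc
  refine ⟨q, hq.congr fun N => ?_⟩
  congr 1
  refine Finset.sum_congr rfl fun k _ => ?_
  have h1 : ((z, π) : St d L) = tr z ((0 : L), π) := by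
    unfold tr
    simp
  rw [h1, Phi_pow_tr, obs_eq]
  rfl

end Pool.Agent.DCP
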