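import Pool.Agent.DCP.PathDef

/-!
# d-colour paths: the colouring which follows the path

PROOF. `Q` = the finite set of the `(r i).1` and the `rf m (r i).1`, `i ≤ N` (`psi_rf`, `above`).
Let `Q1` = the set of the `(r i).1`, `i ≤ N`. Let `c_0 = c`, `c_{i+1} = Function.update c_i (r i).1 (c_i (cell (r i) (k i)))`.
(1) For `i < i'`: `(r i').1` is not a cell of `r i` (`fresh` with `i' - 1 ≥ i`). So `c_n x = c_{i+1} x` for all cells `x` of `r i` and `n ≥ i + 1`, and
`c_n x = c_i x`, `n ≥ i`, for the cells `x ≠ (r i).1` of `r i` (a cell `cell (r i) j`, `1 ≤ j ≤ d`, is not `(r i).1`: `cell_inj`). Let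
`c1 = c_{N+1}`. For `i ≤ N`: `c1 (r i).1 = c_{i+1} (r i).1 = c_i (cell (r i) (k i)) = c1 (cell (r i) (k i))`. `c1 x = c x` for `x ∉ Q1`.
(2) `rb D c1 (r i)` for `i ≤ N` (only `i ≤ N`): `i = 0`: the cells of the edge have `ψ ≤ l`, so are not in `Q1`: `c1 = c` on them.
`i → i+1 ≤ N`: `J c1 (r i) = turn (k i) (r i)` (`J_turn`, with the colour rule), which is `rb` by `rb_J`; `r (i+1) = R (...)` is `rb` by `rb_R`.
(3) `c' x = c1 x` if `x ∈ Q1`; `c1 (rf m x)` if `x ∉ Q1`, `rf m x ∈ Q1`; `c x` otherwise. Let `x` be a cell of `r i`, `i ≤ N`; by `cells` `x ∈ Q1`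
(`i' ≤ i ≤ N`) or `x = fc s j`. Claim `c' x = c1 x` and `c' (rf x) = c1 x`.
If `x = fc s j`: `ψ x ≤ l`, `ψ (rf x) = ψ x ≤ l` (`psi_rf`), so `x, rf x ∉ Q1` (also `rf (rf x) = x`): `c' x = c x = c1 x`,
`c' (rf x) = c (rf x) = c x` by hypothesis.
If `x ∈ Q1`: `c' x = c1 x`. If `rf x ∉ Q1`: `rf (rf x) = x ∈ Q1`, so `c' (rf x) = c1 x`. If `rf x ∈ Q1`: `η = rt b b'`; `η x ≤ m`, `η (rf x) ≤ m` by `mir`
(elements of `Q1` are `(r i).1 = cell (r i) 0`) and `η (rf x) = 2 m - η x` (`rt_rf`), so `η x = m` and `rf x = x` (`rf_fix`).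
So `c' = c1` on the cells of the `r i`, `i ≤ N`, hence `rb D c' (r i)` and the colour rule, and `c' (rf x) = c' x` for these cells.
`c' x = c x` for `x ∉ Q`: `x ∉ Q1`, `rf x ∉ Q1` (otherwise `x = rf (rf x) ∈ Q`).
-/

set_option autoImplicit false

namespace Pool.Agent.DCP

variable {d : ℕ} {L : Type} [AddCommGroup L] {D : LD d L}

theorem exists_colour {ψ : L →+ ℤ} {b b' : Fin (d + 1)} (hb : b ≠ b')
    (hψ : ψ (D.v b) = ψ (D.v b')) {s : St d L} {l : ℤ} {r : ℕ → St d L} {k : ℕ → ℕ} {N : ℕ}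
    {m : ℤ} (P : Pth D ψ b b' s l r k N m) :
    ∃ Q : Finset L, (∀ x ∈ Q, l < ψ x) ∧ ∀ c : L → Fin d, rb D c s →
      (∀ j, ψ (fc D s j) ≤ l) → (∀ j, c (rf D b b' m (fc D s j)) = c (fc D s j)) →
      ∃ c' : L → Fin d, (∀ x, x ∉ Q → c' x = c x) ∧
        (∀ i ≤ N, rb D c' (r i) ∧ c' (r i).1 = c' (cell D (r i) (k i))) ∧
        ∀ i ≤ N, ∀ n ≤ d, c' (rf D b b' m (cell D (r i) n)) = c' (cell D (r i) n) := by
  classical
  obtain ⟨Q1, hQ1⟩ : ∃ Q1 : Finset L, ∀ x, x ∈ Q1 ↔ ∃ i ≤ N, x = (r i).1 := by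
    refine ⟨(Finset.range (N + 1)).image (fun i => (r i).1), fun x => ?_⟩
    rw [Finset.mem_image]
    constructor
    · rintro ⟨i, hi, rfl⟩
      exact ⟨i, Nat.lt_succ_iff.1 (Finset.mem_range.1 hi), rfl⟩
    · rintro ⟨i, hi, rfl⟩
      exact ⟨i, Finset.mem_range.2 (Nat.lt_succ_of_le hi), rfl⟩
  have hQψ : ∀ x ∈ Q1, l < ψ x := by
    intro x hx
    obtain ⟨i, -, rfl⟩ := (hQ1 x).1 hx
    exact P.above i
  refine ⟨Q1 ∪ Q1.image (rf D b b' m), ?_, fun c hrb hl hrf => ?_⟩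
  · intro x hx
    rcases Finset.mem_union.1 hx with h | h
    · exact hQψ x h
    · obtain ⟨y, hy, rfl⟩ := Finset.mem_image.1 h
      rw [psi_rf hψ]
      exact hQψ y hy
  obtain ⟨C, hC0, hCs⟩ : ∃ C : ℕ → L → Fin d, C 0 = c ∧
      ∀ i, C (i + 1) = Function.update (C i) (r i).1 (C i (cell D (r i) (k i))) :=
    ⟨fun n => Nat.rec c (fun i ci => Function.update ci (r i).1 (ci (cell D (r i) (k i)))) n,
      rfl, fun _ => rfl⟩
  have hstep : ∀ n x, x ≠ (r n).1 → C (n + 1) x = C n x := by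
    intro n x hx
    rw [hCs, Function.update_of_ne hx]
  have hlate : ∀ i n t, n ≤ d → C (i + 1 + t) (cell D (r i) n) = C (i + 1) (cell D (r i) n) := by
    intro i n t hn
    induction t with
    | zero => rfl
    | succ t ih =>
      rw [← ih, ← add_assoc]
      apply hstep
      have h1 := P.fresh (i + t) i n (Nat.le_add_right _ _) hn
      rw [show i + 1 + t = i + t + 1 by ring]
      exact h1.symm
  have hfar : ∀ n x, (∀ i < n, x ≠ (r i).1) → C n x = c x := by
    intro n x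
    induction n with
    | zero =>
      intro _
      rw [hC0]
    | succ n ih =>
      intro h
      rw [hstep n x (h n (Nat.lt_succ_self n)), ih fun i hi => h i (Nat.lt_succ_of_lt hi)]
  obtain ⟨c1, hc1⟩ : ∃ c1, c1 = C (N + 1) := ⟨_, rfl⟩
  have hc1i : ∀ i ≤ N, ∀ n ≤ d, c1 (cell D (r i) n) = C (i + 1) (cell D (r i) n) := by
    intro i hi n hn
    have h1 := hlate i n (N - i) hn
    rw [show i + 1 + (N - i) = N + 1 by omega] at h1
    rw [hc1, h1]
  have hc1Q : ∀ x, x ∉ Q1 → c1 x = c x := by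
    intro x hx
    rw [hc1]
    apply hfar
    intro i hi h
    exact hx ((hQ1 x).2 ⟨i, by omega, h⟩)
  have hrule : ∀ i ≤ N, c1 (r i).1 = c1 (cell D (r i) (k i)) := by
    intro i hi
    have h0 : cell D (r i) (k i) ≠ (r i).1 := by
      intro h
      rw [← cell_zero D (r i)] at h
      have h1 := cell_inj D (r i) (P.le i) (Nat.zero_le d) h
      have h2 := P.pos i
      omega
    rw [hc1i i hi (k i) (P.le i), hstep i _ h0]
    have h1 := hc1i i hi 0 (Nat.zero_le d)
    rw [cell_zero] at h1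
    rw [h1, hCs, Function.update_self]
  have hfcQ : ∀ j, fc D s j ∉ Q1 := fun j h => absurd (hQψ _ h) (not_lt.2 (hl j))
  have hrb1 : ∀ i ≤ N, rb D c1 (r i) := by
    intro i
    induction i with
    | zero =>
      intro _
      rw [P.zero]
      unfold rb
      have h1 : (fun j : Fin d => c1 (fc D s j)) = fun j => c (fc D s j) :=
        funext fun j => hc1Q _ (hfcQ j)
      rw [h1]
      exact hrb
    | succ i ih =>
      intro hi
      have h1 := ih (by omega)
      rw [P.succ, rb_R, ← J_turn h1 (P.pos i) (P.le i) (hrule i (by omega)).symm, rb_J]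
      exact h1
  obtain ⟨c', hc'⟩ : ∃ c' : L → Fin d, ∀ x, c' x = if x ∈ Q1 then c1 x else
      if rf D b b' m x ∈ Q1 then c1 (rf D b b' m x) else c x := ⟨_, fun _ => rfl⟩
  have hmain : ∀ i ≤ N, ∀ n ≤ d, c' (cell D (r i) n) = c1 (cell D (r i) n) ∧
      c' (rf D b b' m (cell D (r i) n)) = c1 (cell D (r i) n) := by
    intro i hi n hn
    obtain ⟨x, hx⟩ : ∃ x, x = cell D (r i) n := ⟨_, rfl⟩
    rw [← hx]
    by_cases hxQ : x ∈ Q1
    · have h1 : c' x = c1 x := by rw [hc', if_pos hxQ]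
      refine ⟨h1, ?_⟩
      by_cases hrx : rf D b b' m x ∈ Q1
      · have h2 : D.rt b b' x ≤ m := by
          rw [hx]
          exact P.mir i hi n hn
        have h3 : D.rt b b' (rf D b b' m x) ≤ m := by
          obtain ⟨i', hi', h4⟩ := (hQ1 _).1 hrx
          rw [h4, ← cell_zero D (r i')]
          exact P.mir i' hi' 0 (Nat.zero_le d)
        rw [rt_rf hb] at h3
        rw [rf_fix (show D.rt b b' x = m by omega)]
        exact h1
      · rw [hc', if_neg hrx, rf_rf hb, if_pos hxQ]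
    · rcases P.cells i n hn with ⟨i', hi', h1⟩ | ⟨j, h1⟩
      · exact absurd ((hQ1 x).2 ⟨i', by omega, by rw [hx, h1]⟩) hxQ
      · rw [← hx] at h1
        have hrx : rf D b b' m x ∉ Q1 := by
          intro h2
          have h3 := hQψ _ h2
          rw [psi_rf hψ, h1] at h3
          exact absurd h3 (not_lt.2 (hl j))
        refine ⟨?_, ?_⟩
        · rw [hc', if_neg hxQ, if_neg hrx, hc1Q x hxQ]
        · rw [hc', if_neg hrx, rf_rf hb, if_neg hxQ, hc1Q x hxQ, h1]
          exact hrf j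
  refine ⟨c', ?_, ?_, ?_⟩
  · intro x hx
    have h1 : x ∉ Q1 := fun h => hx (Finset.mem_union_left _ h)
    have h2 : rf D b b' m x ∉ Q1 := by
      intro h
      apply hx
      apply Finset.mem_union_right
      exact Finset.mem_image.2 ⟨_, h, rf_rf hb m x⟩
    rw [hc', if_neg h1, if_neg h2]
  · intro i hi
    refine ⟨?_, ?_⟩
    · unfold rb
      have h1 : (fun j : Fin d => c' (fc D (r i) j)) = fun j => c1 (fc D (r i) j) :=
        funext fun j => (hmain i hi (j + 1) (by omega)).1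
      rw [h1]
      exact hrb1 i hi
    · have h1 := (hmain i hi 0 (Nat.zero_le d)).1
      rw [cell_zero] at h1
      rw [h1, (hmain i hi (k i) (P.le i)).1]
      exact hrule i hi
  · intro i hi n hn
    rw [(hmain i hi n hn).1, (hmain i hi n hn).2]

end Pool.Agent.DCP
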