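import Mathlib

/-!
# d-colour paths: the tessellation

Definitions of the final statement. The hyperplane `∑ x i = 0` of `ℝ^(d+1)`; `Ast d` is the dual of the root
lattice `A_d = {y ∈ ℤ^(d+1) : ∑ y i = 0}`, since `⟨x, e i - e j⟩ = x i - x j`. The Voronoi cell of a lattice
point `x` contains `p` iff `x` is a nearest lattice point of `p`.
-/

set_option autoImplicit false

namespace Pool.Agent.DCP

/-- the lattice `A_d^*` in the hyperplane `∑ i, x i = 0` of `ℝ^(d+1)` -/
def Ast (d : ℕ) : AddSubgroup (Fin (d + 1) → ℝ) where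
  carrier := {x | ∑ i, x i = 0 ∧ ∀ i j, ∃ k : ℤ, x i - x j = k}
  zero_mem' := by
    refine ⟨by simp, fun i j => ⟨0, by simp⟩⟩
  add_mem' := by
    rintro x y ⟨hx, hx'⟩ ⟨hy, hy'⟩
    refine ⟨?_, fun i j => ?_⟩
    · simp only [Pi.add_apply, Finset.sum_add_distrib, hx, hy, add_zero]
    · obtain ⟨k, hk⟩ := hx' i j
      obtain ⟨l, hl⟩ := hy' i j
      refine ⟨k + l, ?_⟩
      simp only [Pi.add_apply]
      push_cast
      rw [← hk, ← hl]
      ring
  neg_mem' := by
    rintro x ⟨hx, hx'⟩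
    refine ⟨?_, fun i j => ?_⟩
    · simp only [Pi.neg_apply, Finset.sum_neg_distrib, hx, neg_zero]
    · obtain ⟨k, hk⟩ := hx' i j
      refine ⟨-k, ?_⟩
      simp only [Pi.neg_apply]
      push_cast
      rw [← hk]
      ring

/-- the squared distance in `ℝ^(d+1)` -/
def sqd {d : ℕ} (p q : Fin (d + 1) → ℝ) : ℝ := ∑ i, (p i - q i) ^ 2

/-- the (centres of the) cells containing `p`: the lattice points nearest to `p` -/
def cellsAt {d : ℕ} (p : Fin (d + 1) → ℝ) : Set (Ast d) :=
  {x | ∀ y : Ast d, sqd p x ≤ sqd p y}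

/-- the vertices of the tessellation: the points of the hyperplane in exactly `d + 1` cells -/
def IsVertex {d : ℕ} (p : Fin (d + 1) → ℝ) : Prop :=
  ∑ i, p i = 0 ∧ (cellsAt p).ncard = d + 1

/-- the vertices `p`, `q` are the two ends of an edge (they have exactly `d` cells in common), whose
`d` cells have distinct colours -/
def ColEdge {d : ℕ} (c : Ast d → Fin d) (p q : Fin (d + 1) → ℝ) : Prop :=
  IsVertex p ∧ IsVertex q ∧ (cellsAt p ∩ cellsAt q).ncard = d ∧
    Set.InjOn c (cellsAt p ∩ cellsAt q)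

end Pool.Agent.DCP
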