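import Pool.Agent.DCP.Basic
import Pool.Agent.DCP.Tess

/-!
# d-colour paths: the lattice `A_d^*` and the tessellation

Definitions of the final statement. The hyperplane `∑ x i = 0` of `ℝ^(d+1)`; `Ast d` is the dual of the root
lattice `A_d = {y ∈ ℤ^(d+1) : ∑ y i = 0}`: `⟨x, e i - e j⟩ = x i - x j ∈ ℤ`. The Voronoi cell of a lattice point `x` contains
`p` iff `x` is a nearest lattice point of `p`.

PROOFS. `v i = e i - (1, ..., 1) / (d + 1)`: the sum is `1 - (d+1)/(d+1) = 0`, differences of coordinates are in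
`{0, 1, -1}`. `rt i j x` = the integer `x i - x j` (`(x.2.2 i j).choose`, additive by `Int.cast_injective`).
`ty x = -∑ j, rt 0 j x` in `ZMod (d + 1)`; `ty (v k) = -∑ j, ([k = 0] - [k = j]) = -((d+1) [k = 0] - 1) = 1`.
`sum_v`: coordinatewise, `∑ i, ([j = i] - 1/(d+1)) = 0`. Countable: `x ↦ (fun j => rt 0 j x)` is injective into
`Fin (d+1) → ℤ`: if the differences `x 0 - x j` agree then, by `∑ x j = 0`, `(d+1) x 0 = ∑ (x 0 - x j)` agree.
`psiN n = -∑ i, n i • rt 0 i`; `(psiN n x : ℝ) = ∑ i, n i * x i` since `∑ n i = 0`; on `v k` this is `n k`.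
-/

set_option autoImplicit false

namespace Pool.Agent.DCP

/-- the integer `x i - x j` -/
noncomputable def rtF {d : ℕ} (i j : Fin (d + 1)) : Ast d →+ ℤ where
  toFun x := (x.2.2 i j).choose
  map_zero' := by
    have h := ((0 : Ast d).2.2 i j).choose_spec
    have h' : (((0 : Ast d).2.2 i j).choose : ℝ) = ((0 : ℤ) : ℝ) := by
      rw [← h]
      simp
    exact Int.cast_injective h'
  map_add' x y := by
    have h := ((x + y).2.2 i j).choose_spec
    have h1 := (x.2.2 i j).choose_spec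
    have h2 := (y.2.2 i j).choose_spec
    have h' : (((x + y).2.2 i j).choose : ℝ) =
        (((x.2.2 i j).choose + (y.2.2 i j).choose : ℤ) : ℝ) := by
      rw [← h]
      push_cast
      rw [← h1, ← h2]
      simp only [AddSubgroup.coe_add, Pi.add_apply]
      ring
    exact Int.cast_injective h'

theorem rtF_cast {d : ℕ} (i j : Fin (d + 1)) (x : Ast d) :
    (rtF i j x : ℝ) = (x : Fin (d + 1) → ℝ) i - (x : Fin (d + 1) → ℝ) j :=
  ((x.2.2 i j).choose_spec).symm

/-- the vectors `e i - (1, ..., 1) / (d + 1)` -/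
noncomputable def vF {d : ℕ} (i : Fin (d + 1)) : Ast d :=
  ⟨fun j => (if j = i then 1 else 0) - 1 / ((d : ℝ) + 1), by
    constructor
    · rw [Finset.sum_sub_distrib, Finset.sum_ite_eq' Finset.univ i (fun _ => (1 : ℝ))]
      rw [if_pos (Finset.mem_univ i), Finset.sum_const, Finset.card_univ, Fintype.card_fin,
        nsmul_eq_mul]
      have hd : ((d : ℝ) + 1) ≠ 0 := by positivity
      push_cast
      field_simp
      ring
    · intro a b
      refine ⟨(if a = i then 1 else 0) - (if b = i then 1 else 0), ?_⟩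
      push_cast
      ring⟩

theorem vF_apply {d : ℕ} (i j : Fin (d + 1)) :
    ((vF i : Ast d) : Fin (d + 1) → ℝ) j = (if j = i then 1 else 0) - 1 / ((d : ℝ) + 1) := rfl

theorem rtF_vF {d : ℕ} (i j k : Fin (d + 1)) :
    rtF i j (vF k) = (if k = i then 1 else 0) - (if k = j then 1 else 0) := by
  have h : (rtF i j (vF k) : ℝ) =
      (((if k = i then 1 else 0) - (if k = j then 1 else 0) : ℤ) : ℝ) := by
    rw [rtF_cast, vF_apply, vF_apply]
    push_cast
    simp only [eq_comm (a := k)]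
    ring
  exact Int.cast_injective h

theorem rtF_inj {d : ℕ} {x y : Ast d} (h : ∀ j, rtF 0 j x = rtF 0 j y) : x = y := by
  have h1 : ∀ j, (x : Fin (d + 1) → ℝ) 0 - (x : Fin (d + 1) → ℝ) j =
      (y : Fin (d + 1) → ℝ) 0 - (y : Fin (d + 1) → ℝ) j := by
    intro j
    rw [← rtF_cast, ← rtF_cast, h j]
  have h2 := Finset.sum_congr (rfl : (Finset.univ : Finset (Fin (d + 1))) = Finset.univ)
    (fun j _ => h1 j)
  rw [Finset.sum_sub_distrib, Finset.sum_sub_distrib, x.2.1, y.2.1, Finset.sum_const,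
    Finset.sum_const, Finset.card_univ, Fintype.card_fin, nsmul_eq_mul, nsmul_eq_mul, sub_zero,
    sub_zero] at h2
  have hd : (((d + 1 : ℕ) : ℝ)) ≠ 0 := by positivity
  have h0 := mul_left_cancel₀ hd h2
  refine Subtype.ext (funext fun j => ?_)
  have := h1 j
  linarith

instance (d : ℕ) : Countable (Ast d) := by
  refine Function.Injective.countable (f := fun (x : Ast d) (j : Fin (d + 1)) => rtF 0 j x) ?_
  intro x y h
  exact rtF_inj fun j => congrFun h j

/-- the lattice data of `A_d^*` -/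
noncomputable def AD (d : ℕ) : LD d (Ast d) where
  v := vF
  sum_v := by
    refine Subtype.ext (funext fun j => ?_)
    rw [AddSubgroup.val_finsetSum, Finset.sum_apply]
    simp only [vF_apply]
    rw [Finset.sum_sub_distrib, Finset.sum_ite_eq Finset.univ j (fun _ => (1 : ℝ))]
    rw [if_pos (Finset.mem_univ j), Finset.sum_const, Finset.card_univ, Fintype.card_fin,
      nsmul_eq_mul]
    have hd : ((d : ℝ) + 1) ≠ 0 := by positivity
    push_cast
    field_simp
    simp
  ty := -∑ j, (Int.castAddHom (ZMod (d + 1))).comp (rtF 0 j)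
  ty_v := by
    intro k
    rw [AddMonoidHom.neg_apply, AddMonoidHom.finsetSum_apply]
    simp only [AddMonoidHom.comp_apply, rtF_vF, Int.coe_castAddHom]
    push_cast
    rw [Finset.sum_sub_distrib, Finset.sum_const, Finset.card_univ, Fintype.card_fin,
      nsmul_eq_mul, ZMod.natCast_self, zero_mul, Finset.sum_ite_eq Finset.univ k (fun _ => (1 : ZMod (d + 1))),
      if_pos (Finset.mem_univ k)]
    ring
  rt := rtF
  rt_v := rtF_vF

theorem AD_v {d : ℕ} (i j : Fin (d + 1)) :
    ((AD d).v i : Fin (d + 1) → ℝ) j = (if j = i then 1 else 0) - 1 / (d + 1) :=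
  vF_apply i j

theorem AD_rt {d : ℕ} (i j : Fin (d + 1)) (x : Ast d) :
    ((AD d).rt i j x : ℝ) = (x : Fin (d + 1) → ℝ) i - (x : Fin (d + 1) → ℝ) j :=
  rtF_cast i j x

/-- an integer linear form -/
noncomputable def psiN {d : ℕ} (n : Fin (d + 1) → ℤ) : Ast d →+ ℤ :=
  -∑ i, n i • (AD d).rt 0 i

theorem psiN_cast {d : ℕ} {n : Fin (d + 1) → ℤ} (hn : ∑ i, n i = 0) (x : Ast d) :
    (psiN n x : ℝ) = ∑ i, n i * (x : Fin (d + 1) → ℝ) i := by
  have hn' : ∑ i, (n i : ℝ) = 0 := by exact_mod_cast hn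
  rw [psiN, AddMonoidHom.neg_apply, AddMonoidHom.finsetSum_apply]
  simp only [AddMonoidHom.smul_apply, smul_eq_mul]
  push_cast
  simp only [AD_rt, mul_sub]
  rw [Finset.sum_sub_distrib, ← Finset.sum_mul, hn', zero_mul, zero_sub, neg_neg]

theorem psiN_v {d : ℕ} {n : Fin (d + 1) → ℤ} (hn : ∑ i, n i = 0) (i : Fin (d + 1)) :
    psiN n ((AD d).v i) = n i := by
  have hn' : ∑ i, (n i : ℝ) = 0 := by exact_mod_cast hn
  have h : (psiN n ((AD d).v i) : ℝ) = (n i : ℝ) := by
    rw [psiN_cast hn]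
    simp only [AD_v, mul_sub]
    rw [Finset.sum_sub_distrib, ← Finset.sum_mul, hn', zero_mul, sub_zero]
    simp
  exact Int.cast_injective h

end Pool.Agent.DCP
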