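import Pool.Agent.DCP.GeoA

/-!
# d-colour paths: the cells at a vertex

Write `n = d + 1`. PROOF of `vertex_state`.

Step 1. `x ∈ cellsAt p`, `w ∈ Ast d`: `sqd p x ≤ sqd p (x + w)`, i.e. with `u = p - x`: `2 ∑ u i * w i ≤ ∑ (w i)^2`. For `w = v i`:
`∑ u j * (v i) j = u i` (`∑ u = 0`) and `∑ (v i j)^2 = d / n`, so `u i ≤ d / (2 n)`; for `w = -v i`: `-u i ≤ d / (2 n)`. So
`|p i - x i| ≤ d / (2 n)`.

Step 2. `x, y ∈ cellsAt p`: `|x i - y i| ≤ d / n < 1` for all `i`. Let `t = x - y ∈ Ast d`: the coordinates of `t` are in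
`(-1, 1)`, their differences are integers, their sum is `0`. So (if `t ≠ 0`) with `S = {i | 0 < t i}`: `t i - t j` is an integer in
`(-2, 2)`; for `i, j ∈ S` it is in `(-1, 1)`, so `0`; for `i, j ∉ S` (`t ∈ (-1, 0]`) also `0`; for `i ∈ S`, `j ∉ S` it is in `(0, 2)`, so
`1`. Hence `t i = α + [i ∈ S]` for all `i`, and `∑ t = 0` gives `α = - |S| / n`: `x - y = ∑ i ∈ S, v i` (coordinatewise; `AD_v`).
So `ty x - ty y = |S|` in `ZMod n` and `|S| < n` (a sum of the `t i` over all `i` is `0`, so not all `t i > 0`). Consequences: (i) if `ty x = ty y`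
then `|S| = 0`, so `x = y`; (ii) if `ty x = ty y + 1` then `|S| = 1` (for `d ≥ 1`; `|S| ≡ 1 mod n`, `|S| ≤ d`), so
`x = y + v i` for some `i`. (`d = 0` is excluded by `hd`.)

Step 3. `cellsAt p` has `n` elements and `ty` is injective on it, so `ty : cellsAt p → ZMod n` is bijective (finite sets of the same
cardinality; `(cellsAt p).ncard = n`, `ZMod.card`). Let `x_k` (`k : ℕ`) be the element with `ty x_k = ty z + k`: `x_0 = z`, `x_{k+n} = x_k`. By (ii)
`x_{k+1} = x_k + v (q k)`, `q : ℕ → Fin n` (with `q (k+n) = q k` if you like; only `k ≤ d` is used). `x_{d+1} = x_0` gives `∑ k : Fin n, v (q k) = 0`;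
apply `rt i j`: `#{k | q k = i} = #{k | q k = j}` for all `i j` (`LD.rt_v`), the sum over `i` is `n`, so all are `1`: `q` is a bijection
of `Fin n` (surjective suffices, `Finite.injective_iff_surjective`): `π = Equiv.ofBijective`. `cell (AD d) (z, π) k = x_k` for `k ≤ d` by
induction (`cell_succ`; `letter (z, π) k = π k = q k`).

Step 4. `vtx (z, π) = p`: for `k ≤ d` `sqd p x_k = sqd p x_{k+1}` (both are minimal), `x_{k+1} = x_k + v (q k)`:
`2 ∑ (p - x_k) i * (v (q k)) i = ∑ (v (q k) i)^2 = d / n`, i.e. `(p - x_k) (q k) = d / (2 n)`; and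
`(x_k - z) (q k) = ∑ j < k, (v (q j)) (q k) = -k / n` (`q j ≠ q k`). So `p (q k) = z (q k) + (d / 2 - k) / n`, which is
`vtx (z, π) (q k)`, as `π.symm (q k) = k`.
-/

set_option autoImplicit false

namespace Pool.Agent.DCP

/-- the vertex of a state -/
noncomputable def vtx {d : ℕ} (s : St d (Ast d)) : Fin (d + 1) → ℝ := fun i =>
  (s.1 : Fin (d + 1) → ℝ) i + ((d : ℝ) / 2 - ((s.2.symm i : Fin (d + 1)) : ℕ)) / (d + 1)

private theorem sum_ast {d : ℕ} (x : Ast d) : ∑ i, (x : Fin (d + 1) → ℝ) i = 0 := x.2.1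

private theorem sum_uv {d : ℕ} {u : Fin (d + 1) → ℝ} (hu : ∑ i, u i = 0) (i : Fin (d + 1)) :
    ∑ j, u j * ((AD d).v i : Fin (d + 1) → ℝ) j = u i := by
  simp only [AD_v, mul_sub, Finset.sum_sub_distrib]
  rw [← Finset.sum_mul, hu, zero_mul, sub_zero]
  simp

private theorem sum_vv {d : ℕ} (i : Fin (d + 1)) :
    ∑ j, ((AD d).v i : Fin (d + 1) → ℝ) j ^ 2 = d / (d + 1) := by
  have h := sum_uv (u := ((AD d).v i : Fin (d + 1) → ℝ)) (sum_ast _) i
  simp only [pow_two]
  rw [h, AD_v, if_pos rfl]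
  have h1 : (d : ℝ) + 1 ≠ 0 := by positivity
  field_simp
  ring

private theorem sqd_add_v {d : ℕ} {p : Fin (d + 1) → ℝ} (hp : ∑ i, p i = 0) (x : Ast d)
    (i : Fin (d + 1)) : sqd p ((x + (AD d).v i : Ast d) : Fin (d + 1) → ℝ) =
      sqd p x - 2 * (p i - (x : Fin (d + 1) → ℝ) i) + d / (d + 1) := by
  have hu : ∑ j, (p j - (x : Fin (d + 1) → ℝ) j) = 0 := by
    rw [Finset.sum_sub_distrib, hp, sum_ast, sub_zero]
  have h1 := sum_uv hu i
  rw [← h1, ← sum_vv i]
  unfold sqd
  rw [Finset.mul_sum, ← Finset.sum_sub_distrib, ← Finset.sum_add_distrib]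
  refine Finset.sum_congr rfl fun j _ => ?_
  rw [AddSubgroup.coe_add, Pi.add_apply]
  ring

private theorem sqd_sub_v {d : ℕ} {p : Fin (d + 1) → ℝ} (hp : ∑ i, p i = 0) (x : Ast d)
    (i : Fin (d + 1)) : sqd p ((x - (AD d).v i : Ast d) : Fin (d + 1) → ℝ) =
      sqd p x + 2 * (p i - (x : Fin (d + 1) → ℝ) i) + d / (d + 1) := by
  have hu : ∑ j, (p j - (x : Fin (d + 1) → ℝ) j) = 0 := by
    rw [Finset.sum_sub_distrib, hp, sum_ast, sub_zero]
  have h1 := sum_uv hu i
  rw [← h1, ← sum_vv i]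
  unfold sqd
  rw [Finset.mul_sum, ← Finset.sum_add_distrib, ← Finset.sum_add_distrib]
  refine Finset.sum_congr rfl fun j _ => ?_
  rw [AddSubgroup.coe_sub, Pi.sub_apply]
  ring

/-- the coordinates of `p - x` -/
private theorem abs_le_of_cell {d : ℕ} {p : Fin (d + 1) → ℝ} (hp : ∑ i, p i = 0) {x : Ast d}
    (hx : x ∈ cellsAt p) (i : Fin (d + 1)) :
    |p i - (x : Fin (d + 1) → ℝ) i| ≤ d / (d + 1) / 2 := by
  have h1 := hx (x + (AD d).v i)
  have h2 := hx (x - (AD d).v i)
  rw [sqd_add_v hp] at h1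
  rw [sqd_sub_v hp] at h2
  rw [abs_le]
  constructor <;> linarith

/-- the difference of two cells at a point -/
private theorem diff_cells {d : ℕ} {p : Fin (d + 1) → ℝ} (hp : ∑ i, p i = 0) {x y : Ast d}
    (hx : x ∈ cellsAt p) (hy : y ∈ cellsAt p) :
    ∃ S : Finset (Fin (d + 1)), S.card ≤ d ∧ x - y = ∑ i ∈ S, (AD d).v i := by
  classical
  have hn : (0 : ℝ) < d + 1 := by positivity
  obtain ⟨t, ht⟩ : ∃ t : Fin (d + 1) → ℝ, ∀ i, t i = (x : Fin (d + 1) → ℝ) i -
    (y : Fin (d + 1) → ℝ) i := ⟨_, fun _ => rfl⟩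
  have hb : ∀ i, |t i| < 1 := by
    intro i
    have h1 := abs_le.1 (abs_le_of_cell hp hx i)
    have h2 := abs_le.1 (abs_le_of_cell hp hy i)
    have h3 : (d : ℝ) / (d + 1) < 1 := by
      rw [div_lt_one hn]
      linarith
    rw [ht, abs_lt]
    constructor <;> linarith [h1.1, h1.2, h2.1, h2.2]
  have hint : ∀ i j, ∃ k : ℤ, t i - t j = k := by
    intro i j
    refine ⟨(AD d).rt i j (x - y), ?_⟩
    rw [AD_rt, ht, ht, AddSubgroup.coe_sub, Pi.sub_apply, Pi.sub_apply]
  have hsum : ∑ i, t i = 0 := by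
    simp only [ht]
    rw [Finset.sum_sub_distrib, sum_ast, sum_ast, sub_zero]
  obtain ⟨S, hS⟩ : ∃ S : Finset (Fin (d + 1)), ∀ i, i ∈ S ↔ 0 < t i :=
    ⟨Finset.univ.filter fun i => 0 < t i, fun i => by simp⟩
  have hdiff : ∀ i j, t i - t j = (if i ∈ S then 1 else 0) - (if j ∈ S then 1 else 0) := by
    intro i j
    obtain ⟨k, hk⟩ := hint i j
    have hi := abs_lt.1 (hb i)
    have hj := abs_lt.1 (hb j)
    by_cases h1 : i ∈ S
    · have h1' := (hS i).1 h1
      by_cases h2 : j ∈ S
      · have h2' := (hS j).1 h2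
        have h3 : (-1 : ℝ) < k := by rw [← hk]; linarith [hj.2]
        have h4 : (k : ℝ) < 1 := by rw [← hk]; linarith [hi.2]
        have h5 : k = 0 := by
          have h6 : (-1 : ℤ) < k := by exact_mod_cast h3
          have h7 : k < 1 := by exact_mod_cast h4
          omega
        rw [hk, h5, if_pos h1, if_pos h2]
        norm_num
      · have h2' : t j ≤ 0 := not_lt.1 fun h => h2 ((hS j).2 h)
        have h3 : (0 : ℝ) < k := by rw [← hk]; linarith
        have h4 : (k : ℝ) < 2 := by rw [← hk]; linarith [hi.2, hj.1]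
        have h5 : k = 1 := by
          have h6 : (0 : ℤ) < k := by exact_mod_cast h3
          have h7 : k < 2 := by exact_mod_cast h4
          omega
        rw [hk, h5, if_pos h1, if_neg h2]
        norm_num
    · have h1' : t i ≤ 0 := not_lt.1 fun h => h1 ((hS i).2 h)
      by_cases h2 : j ∈ S
      · have h2' := (hS j).1 h2
        have h3 : (-2 : ℝ) < k := by rw [← hk]; linarith [hi.1, hj.2]
        have h4 : (k : ℝ) < 0 := by rw [← hk]; linarith
        have h5 : k = -1 := by
          have h6 : (-2 : ℤ) < k := by exact_mod_cast h3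
          have h7 : k < 0 := by exact_mod_cast h4
          omega
        rw [hk, h5, if_neg h1, if_pos h2]
        norm_num
      · have h2' : t j ≤ 0 := not_lt.1 fun h => h2 ((hS j).2 h)
        have h3 : (-1 : ℝ) < k := by rw [← hk]; linarith [hi.1]
        have h4 : (k : ℝ) < 1 := by rw [← hk]; linarith [hj.1]
        have h5 : k = 0 := by
          have h6 : (-1 : ℤ) < k := by exact_mod_cast h3
          have h7 : k < 1 := by exact_mod_cast h4
          omega
        rw [hk, h5, if_neg h1, if_neg h2]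
        norm_num
  have hval : ∀ j, t j = (if j ∈ S then 1 else 0) - S.card / (d + 1) := by
    intro j
    have h1 : ∑ i, (t i - t j) = ∑ i, ((if i ∈ S then (1 : ℝ) else 0) -
        (if j ∈ S then 1 else 0)) := Finset.sum_congr rfl fun i _ => hdiff i j
    rw [Finset.sum_sub_distrib, Finset.sum_sub_distrib, hsum, Finset.sum_const,
      Finset.sum_const, Finset.card_univ, Fintype.card_fin, Finset.sum_ite_mem,
      Finset.univ_inter, Finset.sum_const, nsmul_eq_mul, nsmul_eq_mul, nsmul_eq_mul] at h1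
    push_cast at h1
    field_simp
    linarith
  refine ⟨S, ?_, ?_⟩
  · by_contra hcon
    have h1 : S.card ≤ d + 1 := by
      have := S.card_le_univ
      rwa [Fintype.card_fin] at this
    have h2 : S.card = d + 1 := by omega
    have h3 : S = Finset.univ := by
      rw [← Finset.card_eq_iff_eq_univ, Fintype.card_fin]
      exact h2
    have h4 : (0 : Fin (d + 1)) ∈ S := by
      rw [h3]
      exact Finset.mem_univ _
    have h5 := hval 0
    rw [if_pos h4, h2] at h5
    push_cast at h5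
    rw [div_self hn.ne', sub_self] at h5
    exact absurd ((hS 0).1 h4) (by rw [h5]; exact lt_irrefl _)
  · refine Subtype.ext (funext fun j => ?_)
    rw [AddSubgroup.coe_sub, Pi.sub_apply, ← ht, hval, AddSubgroup.val_finset_sum,
      Finset.sum_apply]
    simp only [AD_v]
    rw [Finset.sum_sub_distrib, Finset.sum_ite_eq, Finset.sum_const, nsmul_eq_mul,
      mul_one_div]

private theorem eq_of_ty {d : ℕ} {p : Fin (d + 1) → ℝ} (hp : ∑ i, p i = 0) {x y : Ast d}
    (hx : x ∈ cellsAt p) (hy : y ∈ cellsAt p) (h : (AD d).ty x = (AD d).ty y) : x = y := by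
  obtain ⟨S, hS, he⟩ := diff_cells hp hx hy
  have h1 : ((S.card : ℕ) : ZMod (d + 1)) = 0 := by
    have h2 := congrArg (AD d).ty he
    rw [map_sub, h, sub_self, map_sum] at h2
    simp only [(AD d).ty_v] at h2
    rw [Finset.sum_const, nsmul_eq_mul, mul_one] at h2
    exact h2.symm
  have h3 : S.card = 0 := by
    rw [ZMod.natCast_eq_zero_iff] at h1
    exact Nat.eq_zero_of_dvd_of_lt h1 (by omega)
  rw [Finset.card_eq_zero] at h3
  rw [h3, Finset.sum_empty] at he
  exact sub_eq_zero.1 he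

private theorem next_of_ty {d : ℕ} (hd : 1 ≤ d) {p : Fin (d + 1) → ℝ} (hp : ∑ i, p i = 0)
    {x y : Ast d} (hx : x ∈ cellsAt p) (hy : y ∈ cellsAt p)
    (h : (AD d).ty x = (AD d).ty y + 1) : ∃ i, x = y + (AD d).v i := by
  obtain ⟨S, hS, he⟩ := diff_cells hp hx hy
  have h1 : ((S.card : ℕ) : ZMod (d + 1)) = ((1 : ℕ) : ZMod (d + 1)) := by
    have h2 := congrArg (AD d).ty he
    rw [map_sub, h, add_sub_cancel_left, map_sum] at h2
    simp only [(AD d).ty_v] at h2
    rw [Finset.sum_const, nsmul_eq_mul, mul_one] at h2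
    rw [Nat.cast_one]
    exact h2.symm
  have h3 : S.card = 1 := by
    rw [ZMod.natCast_eq_natCast_iff', Nat.mod_eq_of_lt (by omega),
      Nat.mod_eq_of_lt (by omega)] at h1
    exact h1
  obtain ⟨i, rfl⟩ := Finset.card_eq_one.1 h3
  rw [Finset.sum_singleton] at he
  exact ⟨i, by rw [← he]; abel⟩

theorem vertex_state {d : ℕ} (hd : 1 ≤ d) {p : Fin (d + 1) → ℝ} (hp : IsVertex p) {z : Ast d}
    (hz : z ∈ cellsAt p) :
    ∃ π : Equiv.Perm (Fin (d + 1)), vtx (z, π) = p ∧
      ∀ x, x ∈ cellsAt p ↔ ∃ k ≤ d, x = cell (AD d) (z, π) k := by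
  classical
  obtain ⟨hp0, hcard⟩ := hp
  have hn : (0 : ℝ) < d + 1 := by positivity
  have hinj : Set.InjOn (AD d).ty (cellsAt p) := fun x hx y hy h => eq_of_ty hp0 hx hy h
  have hsurj : ∀ a : ZMod (d + 1), ∃ x ∈ cellsAt p, (AD d).ty x = a := by
    have h1 : ((AD d).ty '' cellsAt p).ncard = d + 1 := by
      rw [Set.ncard_image_of_injOn hinj, hcard]
    have h2 : (AD d).ty '' cellsAt p = Set.univ := by
      refine Set.eq_of_subset_of_ncard_le (Set.subset_univ _) ?_ Set.finite_univ
      rw [h1, Set.ncard_univ, Nat.card_zmod]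
    intro a
    have h3 : a ∈ (AD d).ty '' cellsAt p := by
      rw [h2]
      exact Set.mem_univ a
    exact h3
  choose X hXm hXt using fun k : ℕ => hsurj ((AD d).ty z + (k : ZMod (d + 1)))
  have hX0 : X 0 = z := by
    refine hinj (hXm 0) hz ?_
    rw [hXt, Nat.cast_zero, add_zero]
  have hXe : X (d + 1) = z := by
    refine hinj (hXm _) hz ?_
    rw [hXt, ZMod.natCast_self, add_zero]
  have hnext : ∀ k, ∃ i, X (k + 1) = X k + (AD d).v i := by
    intro k
    refine next_of_ty hd hp0 (hXm _) (hXm _) ?_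
    rw [hXt, hXt, Nat.cast_succ, add_assoc]
  choose q hq using hnext
  have hXsum : ∀ k, X k = z + ∑ j ∈ Finset.range k, (AD d).v (q j) := by
    intro k
    induction k with
    | zero => rw [Finset.range_zero, Finset.sum_empty, add_zero, hX0]
    | succ k ih => rw [hq, ih, Finset.sum_range_succ, add_assoc]
  have hzero : ∑ k : Fin (d + 1), (AD d).v (q k) = 0 := by
    have h1 := hXsum (d + 1)
    rw [hXe, Finset.sum_range] at h1
    exact (left_eq_add.1 h1)
  have hqs : Function.Surjective fun k : Fin (d + 1) => q k := by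
    intro i
    by_contra hcon
    push Not at hcon
    have h1 : ∀ j, ((Finset.univ.filter fun k : Fin (d + 1) => q k = j).card : ℤ) = 0 := by
      intro j
      have h2 := congrArg ((AD d).rt j i) hzero
      rw [map_sum, map_zero] at h2
      simp only [(AD d).rt_v] at h2
      rw [Finset.sum_sub_distrib, Finset.sum_boole, Finset.sum_boole] at h2
      have h3 : (Finset.univ.filter fun k : Fin (d + 1) => q k = i) = ∅ :=
        Finset.filter_eq_empty_iff.2 fun k _ => hcon k
      rw [h3, Finset.card_empty, Nat.cast_zero, sub_zero] at h2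
      exact h2
    have h4 := h1 (q (0 : Fin (d + 1)))
    have h5 : (0 : Fin (d + 1)) ∈ Finset.univ.filter
        fun k : Fin (d + 1) => q k = q (0 : Fin (d + 1)) := by simp
    have h6 : 0 < (Finset.univ.filter
        fun k : Fin (d + 1) => q k = q (0 : Fin (d + 1))).card := Finset.card_pos.2 ⟨_, h5⟩
    omega
  have hqb : Function.Bijective fun k : Fin (d + 1) => q k :=
    ⟨Finite.injective_iff_surjective.2 hqs, hqs⟩
  obtain ⟨π, hπ⟩ : ∃ π : Equiv.Perm (Fin (d + 1)), ∀ k : Fin (d + 1), π k = q k :=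
    ⟨Equiv.ofBijective _ hqb, fun k => rfl⟩
  have hlet : ∀ k, k ≤ d → letter (z, π) k = q k := by
    intro k hk
    have h1 : ((Fin.ofNat (d + 1) k : Fin (d + 1)) : ℕ) = k := by
      simp [Fin.ofNat, Nat.mod_eq_of_lt (show k < d + 1 by omega)]
    rw [letter, hπ, h1]
  have hcell : ∀ k, k ≤ d → cell (AD d) (z, π) k = X k := by
    intro k
    induction k with
    | zero => intro _; rw [cell_zero, hX0]
    | succ k ih =>
      intro hk
      rw [cell_succ, ih (by omega), hlet k (by omega), hq]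
  refine ⟨π, ?_, ?_⟩
  · funext i
    obtain ⟨k, rfl⟩ : ∃ k, i = π k := ⟨π.symm i, (Equiv.apply_symm_apply π i).symm⟩
    have h1 : sqd p (X k) = sqd p (X (k + 1)) :=
      le_antisymm (hXm k _) (hXm (k + 1) _)
    rw [hq, sqd_add_v hp0, ← hπ] at h1
    have h2 : (X k : Fin (d + 1) → ℝ) (π k) =
        (z : Fin (d + 1) → ℝ) (π k) - (k : ℕ) / (d + 1) := by
      rw [hXsum, AddSubgroup.coe_add, Pi.add_apply, AddSubgroup.val_finset_sum,
        Finset.sum_apply]
      have h3 : ∀ j ∈ Finset.range (k : ℕ), ((AD d).v (q j) : Fin (d + 1) → ℝ) (π k) =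
          -(1 / (d + 1)) := by
        intro j hj
        have hj' := Finset.mem_range.1 hj
        rw [AD_v, if_neg, zero_sub]
        intro h4
        have h5 : π k = π ⟨j, by omega⟩ := by
          rw [h4, hπ]
        have h6 := congrArg Fin.val (π.injective h5)
        dsimp only at h6
        omega
      rw [Finset.sum_congr rfl h3, Finset.sum_const, Finset.card_range, nsmul_eq_mul]
      ring
    unfold vtx
    rw [Equiv.symm_apply_apply]
    dsimp only
    have h7 : p (π k) = (X k : Fin (d + 1) → ℝ) (π k) + d / (d + 1) / 2 := by linarith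
    rw [h7, h2]
    field_simp
    ring
  · intro x
    constructor
    · intro hx
      refine ⟨((AD d).ty x - (AD d).ty z).val, ?_, ?_⟩
      · have := ZMod.val_lt ((AD d).ty x - (AD d).ty z)
        omega
      · rw [hcell _ (by
          have := ZMod.val_lt ((AD d).ty x - (AD d).ty z)
          omega)]
        refine hinj hx (hXm _) ?_
        rw [hXt, ZMod.natCast_zmod_val]
        abel
    · rintro ⟨k, hk, rfl⟩
      rw [hcell k hk]
      exact hXm k

end Pool.Agent.DCP
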