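import Pool.Agent.DCP.GeoB
import Pool.Agent.DCP.Dyn

/-!
# d-colour paths: the vertex of a state

`vtx_turn` (the same vertex): write `n = d + 1`, `l i = letter s i`. `(turn D k s).1 = cell s k = s.1 + ∑ i < k, v (l i)`. For `k ≤ d`,
coordinate `l j`, `j ≤ d`: `∑ i < k, (v (l i)) (l j) = [j < k] - k / n`; the index of `l j` in `turn k s`
(`(turn k s).2.symm (l j)`) is `j - k` if `j ≥ k`, `j - k + n` if `j < k` (`(Equiv.addLeft (ofNat k)).trans s.2`), so the second term of `vtx`
changes by `(k - [j < k] n) / n`: the sum does not change. Or: it suffices to treat `k = 1` and use `turn_turn`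
(`turn 1 (turn k s) = turn (k + 1) s`), for all `k` by induction (`turn_zero`).

`vtx_R`: `(R s).1 = s.1 + v (l 0) - v (l d)`, coordinatewise `[i = l 0] - [i = l d]`; the index of `l 0` in `R s` is `d` instead of `0`, that of
`l d` is `0` instead of `d`, others are unchanged: the change is `[i = l 0] (1 - d/n) - [i = l d] (1 - d/n)`.
`vtx_Phi`: `J` is a `turn` or the identity (`J_eq`, `J_not`, `exists_fc_eq`), so `vtx (Phi c s) = vtx (R s)`.
`vtx_cell`: `vtx s = vtx (turn k s)` and `vtx t i - t.1 i = (d/2 - index) / n`, index in `{0, ..., d}`, so the absolute value is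
`≤ d / (2 n) ≤ 1/2`; `(turn k s).1 = cell s k`.
`vtx_R_ne`: `vtx_R` at the coordinate `letter s 0` (`letter s 0 ≠ letter s d` as `d ≥ 1`: `letter_inj`).
-/

set_option autoImplicit false

namespace Pool.Agent.DCP

private theorem fin_neg_one_zero {d : ℕ} : ((-1 + 0 : Fin (d + 1)) : ℕ) = d := by
  rw [add_zero, Fin.coe_neg_one]

private theorem fin_neg_one {d : ℕ} {x : Fin (d + 1)} (hx : x ≠ 0) :
    ((-1 + x : Fin (d + 1)) : ℕ) + 1 = x := by
  have h1 : (-1 + x : Fin (d + 1)) = x - 1 := (add_comm _ _).trans (sub_eq_add_neg x 1).symm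
  have h2 : (x : ℕ) ≠ 0 := fun h => hx (Fin.ext h)
  rw [h1, Fin.val_sub_one_of_ne_zero hx]
  omega

private theorem vtx_turn_one {d : ℕ} (s : St d (Ast d)) : vtx (turn (AD d) 1 s) = vtx s := by
  funext i
  have h1 : ((turn (AD d) 1 s).1 : Fin (d + 1) → ℝ) i =
      (s.1 : Fin (d + 1) → ℝ) i + ((if i = s.2 0 then 1 else 0) - 1 / (d + 1)) := by
    have h2 : (turn (AD d) 1 s).1 = s.1 + (AD d).v (letter s 0) := by
      rw [turn_fst, cell_succ, cell_zero]
    rw [h2]
    change (s.1 : Fin (d + 1) → ℝ) i + ((AD d).v (letter s 0) : Fin (d + 1) → ℝ) i = _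
    rw [AD_v, letter, ofNat_zero]
  have h3 : (turn (AD d) 1 s).2.symm i = -1 + s.2.symm i := by
    have h4 : Fin.ofNat (d + 1) 1 = 1 := rfl
    change (Equiv.addLeft (Fin.ofNat (d + 1) 1)).symm (s.2.symm i) = _
    rw [h4]
    rfl
  have hd : (0 : ℝ) < d + 1 := by positivity
  unfold vtx
  rw [h1, h3]
  by_cases hi : i = s.2 0
  · have h5 : s.2.symm i = 0 := by rw [hi, Equiv.symm_apply_apply]
    rw [if_pos hi, h5, fin_neg_one_zero, Fin.val_zero]
    field_simp
    push_cast
    ring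
  · have h5 : s.2.symm i ≠ 0 := fun h => hi (by rw [← h, Equiv.apply_symm_apply])
    have h6 := fin_neg_one h5
    have h7 : (((-1 + s.2.symm i : Fin (d + 1)) : ℕ) : ℝ) = ((s.2.symm i : Fin (d + 1)) : ℕ) - 1 := by
      rw [← h6]
      push_cast
      ring
    rw [if_neg hi, h7]
    field_simp
    ring

theorem vtx_turn {d : ℕ} (s : St d (Ast d)) (k : ℕ) : vtx (turn (AD d) k s) = vtx s := by
  induction k with
  | zero => rw [turn_zero]
  | succ k ih => rw [← turn_turn, vtx_turn_one, ih]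

theorem vtx_R {d : ℕ} (s : St d (Ast d)) (i : Fin (d + 1)) :
    vtx (R (AD d) s) i = vtx s i +
      ((if letter s 0 = i then 1 else 0) - (if letter s d = i then 1 else 0)) / (d + 1) := by
  have h1 : ((R (AD d) s).1 : Fin (d + 1) → ℝ) i = (s.1 : Fin (d + 1) → ℝ) i +
      ((if i = s.2 0 then 1 else 0) - (if i = s.2 (Fin.last d) then 1 else 0)) := by
    rw [R_fst]
    change (s.1 : Fin (d + 1) → ℝ) i + ((AD d).v (letter s 0) : Fin (d + 1) → ℝ) i -
      ((AD d).v (letter s d) : Fin (d + 1) → ℝ) i = _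
    rw [AD_v, AD_v, letter, letter, ofNat_zero, ofNat_last]
    ring
  have h2 : (R (AD d) s).2.symm i = Equiv.swap 0 (Fin.last d) (s.2.symm i) := rfl
  have hd : (0 : ℝ) < d + 1 := by positivity
  have h3 : (letter s 0 = i) ↔ i = s.2 0 := by
    rw [letter, ofNat_zero]
    exact eq_comm
  have h4 : (letter s d = i) ↔ i = s.2 (Fin.last d) := by
    rw [letter, ofNat_last]
    exact eq_comm
  unfold vtx
  rw [h1, h2]
  simp only [h3, h4]
  by_cases hi : i = s.2 0
  · have h5 : s.2.symm i = 0 := by rw [hi, Equiv.symm_apply_apply]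
    rw [if_pos hi, h5, Equiv.swap_apply_left, Fin.val_last, Fin.val_zero]
    by_cases hj : i = s.2 (Fin.last d)
    · have h6 : s.2 0 = s.2 (Fin.last d) := hi.symm.trans hj
      have h7 : (0 : Fin (d + 1)) = Fin.last d := s.2.injective h6
      have h8 := congrArg Fin.val h7
      rw [Fin.val_zero, Fin.val_last] at h8
      have h9 : (d : ℝ) = 0 := by exact_mod_cast h8.symm
      rw [if_pos hj, h9]
      simp
    · rw [if_neg hj]
      push_cast
      field_simp
      ring
  · rw [if_neg hi]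
    have h5 : s.2.symm i ≠ 0 := fun h => hi (by rw [← h, Equiv.apply_symm_apply])
    by_cases hj : i = s.2 (Fin.last d)
    · have h6 : s.2.symm i = Fin.last d := by rw [hj, Equiv.symm_apply_apply]
      rw [if_pos hj, h6, Equiv.swap_apply_right, Fin.val_last, Fin.val_zero]
      push_cast
      field_simp
      ring
    · have h6 : s.2.symm i ≠ Fin.last d := fun h => hj (by rw [← h, Equiv.apply_symm_apply])
      rw [if_neg hj, Equiv.swap_apply_of_ne_of_ne h5 h6]
      ring

theorem vtx_Phi {d : ℕ} (c : Ast d → Fin d) (s : St d (Ast d)) (i : Fin (d + 1)) :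
    vtx (Phi (AD d) c s) i = vtx s i +
      ((if letter s 0 = i then 1 else 0) - (if letter s d = i then 1 else 0)) / (d + 1) := by
  rw [← vtx_R s i, Phi_apply]
  by_cases h : rb (AD d) c (R (AD d) s)
  · obtain ⟨j, hj⟩ := exists_fc_eq h (c (R (AD d) s).1)
    rw [J_eq h hj, vtx_turn]
  · rw [J_not h]

theorem vtx_cell {d : ℕ} (s : St d (Ast d)) {k : ℕ} (hk : k ≤ d) (i : Fin (d + 1)) :
    |vtx s i - ((cell (AD d) s k : Ast d) : Fin (d + 1) → ℝ) i| ≤ 1 / 2 := by
  have _ := hk
  rw [← vtx_turn s k, ← turn_fst]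
  unfold vtx
  rw [add_sub_cancel_left]
  have h1 : (((turn (AD d) k s).2.symm i : Fin (d + 1)) : ℕ) ≤ d := by
    have := ((turn (AD d) k s).2.symm i).2
    omega
  have h2 : ((((turn (AD d) k s).2.symm i : Fin (d + 1)) : ℕ) : ℝ) ≤ d := by exact_mod_cast h1
  have h3 : (0 : ℝ) ≤ ((((turn (AD d) k s).2.symm i : Fin (d + 1)) : ℕ) : ℝ) := Nat.cast_nonneg _
  have hd : (0 : ℝ) < d + 1 := by positivity
  rw [abs_le]
  constructor
  · rw [le_div_iff₀ hd]
    linarith
  · rw [div_le_iff₀ hd]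
    linarith

end Pool.Agent.DCP
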