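import Mathlib

/-!
# d-colour paths: the law of the colouring
-/

set_option autoImplicit false

namespace Pool.Agent.DCP

open MeasureTheory

/-- the law of the colouring: independent colours with law `ν` -/
noncomputable def mu (L : Type) {d : ℕ} (ν : Measure (Fin d)) [IsProbabilityMeasure ν] :
    Measure (L → Fin d) := Measure.infinitePi (fun _ : L => ν)

variable {L : Type} {d : ℕ} {ν : Measure (Fin d)} [IsProbabilityMeasure ν]

instance : IsProbabilityMeasure (mu L ν) := by
  unfold mu
  infer_instance

theorem mu_box (s : Finset L) (t : L → Set (Fin d)) :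
    mu L ν (Set.pi s t) = ∏ i ∈ s, ν (t i) := by
  unfold mu
  exact Measure.infinitePi_pi _ (fun i _ => MeasurableSet.of_discrete)

theorem meas_box (s : Finset L) (t : L → Set (Fin d)) :
    MeasurableSet (Set.pi (s : Set L) t) :=
  MeasurableSet.pi s.countable_toSet (fun i _ => MeasurableSet.of_discrete)

theorem mu_eq {m : Measure (L → Fin d)}
    (h : ∀ (s : Finset L) (t : L → Set (Fin d)), m (Set.pi s t) = ∏ i ∈ s, ν (t i)) :
    m = mu L ν := by
  unfold mu
  exact Measure.eq_infinitePi _ (fun s t _ => h s t)

end Pool.Agent.DCP
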