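import Pool.Agent.DCP.Prob

/-!
# d-colour paths: mixing

PROOF (work with `measureReal`, convert at the end, or directly with real numbers and
`ENNReal.tendsto_toReal`). Write `B_m = {c | (fun x => c (σ m x)) ∈ B}`; `mu B_m = mu B` by `mu_equiv`
(`(mu_equiv ν (σ m)).measure_preimage`).

Step 1. `B = Set.pi S u` a box (`S` finite); the class of measurable `A` with
`mu (A ∩ B_m) → mu A * mu B`. (i) Boxes `A = Set.pi T t`: by `hσ` (finitely many pairs) for large `m`
`(S.image (σ m))` and `T` are disjoint; then `A ∩ B_m` is the box over `T ∪ S.image (σ m)` with sets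
`t` on `T`, `u ∘ (σ m).symm` on `S.image (σ m)`; its measure is `mu A * mu B` (`mu_box`,
`Finset.prod_union`, `Finset.prod_image`). (ii) complements:
`mu (Aᶜ ∩ B_m) = mu B_m - mu (A ∩ B_m) = mu B - mu (A ∩ B_m)`. (iii) disjoint countable unions:
`mu ((⋃ A_i) ∩ B_m) = ∑' i, mu (A_i ∩ B_m)` (`measureReal`/`hasSum`), dominated by `mu A_i`, which is
summable: `tendsto_tsum_of_dominated_convergence`. The boxes are a π-system (`isPiSystem`; intersection
of the boxes `(T, t)`, `(T', t')` is the box over `T ∪ T'` with sets
`(if x ∈ T then t x else univ) ∩ (if x ∈ T' then t' x else univ)`) generating the product σ-algebra (a set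
`{c | c x ∈ W}` is the box over `{x}`; `MeasurableSpace.pi` = `iSup` of comaps; or
`generateFrom_squareCylinders`-like lemmas in Mathlib: `MeasureTheory.squareCylinders`,
`generateFrom_squareCylinders`, `isPiSystem_squareCylinders` are the same sets).
`MeasurableSpace.induction_on_inter`.

Step 2. `A` measurable, fixed; the class of measurable `B` with the limit. Boxes: step 1. Complements:
`mu (A ∩ (Bᶜ)_m) = mu A - mu (A ∩ B_m)`. Disjoint unions: dominated by `mu ((B_i)_m) = mu B_i`.
-/

set_option autoImplicit false

namespace Pool.Agent.DCP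

open MeasureTheory Filter Topology

variable {L : Type} {d : ℕ} (ν : Measure (Fin d)) [IsProbabilityMeasure ν]

/-- convergence of dominated finite measures on a generating pi-system gives convergence on all
measurable sets -/
theorem conv_all {X : Type*} [mX : MeasurableSpace X] (S : Set (Set X))
    (hgen : mX = MeasurableSpace.generateFrom S) (hpi : IsPiSystem S) (κ : ℕ → Measure X)
    (κ' lam : Measure X) [IsFiniteMeasure lam] [IsFiniteMeasure κ'] (hle : ∀ m, κ m ≤ lam)
    (huniv : Tendsto (fun m => κ m Set.univ) atTop (𝓝 (κ' Set.univ)))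
    (hS : ∀ s ∈ S, Tendsto (fun m => κ m s) atTop (𝓝 (κ' s))) {A : Set X}
    (hA : MeasurableSet A) : Tendsto (fun m => κ m A) atTop (𝓝 (κ' A)) := by
  have hfin : ∀ m (s : Set X), κ m s ≠ ⊤ := fun m s =>
    ne_top_of_le_ne_top (measure_ne_top lam s) (hle m s)
  refine MeasurableSpace.induction_on_inter
    (C := fun A _ => Tendsto (fun m => κ m A) atTop (𝓝 (κ' A))) hgen hpi ?_ hS ?_ ?_ A hA
  · simp only [measure_empty]
    exact tendsto_const_nhds
  · intro t ht h
    have h1 : (fun m => κ m tᶜ) = fun m => κ m Set.univ - κ m t := by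
      funext m
      exact measure_compl ht (hfin m t)
    rw [h1, measure_compl ht (measure_ne_top κ' t)]
    exact ENNReal.Tendsto.sub huniv h (Or.inl (measure_ne_top κ' _))
  · intro f hd hm h
    have h1 : (fun m => κ m (⋃ i, f i)) = fun m => ∫⁻ i, κ m (f i) ∂Measure.count := by
      funext m
      rw [measure_iUnion hd hm, lintegral_count]
    have h2 : κ' (⋃ i, f i) = ∫⁻ i, κ' (f i) ∂Measure.count := by
      rw [measure_iUnion hd hm, lintegral_count]
    rw [h1, h2]
    refine tendsto_lintegral_of_dominated_convergence (fun i => lam (f i))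
      (fun m => Measurable.of_discrete) (fun m => Eventually.of_forall fun i => hle m (f i)) ?_
      (Eventually.of_forall fun i => h i)
    rw [lintegral_count, ← measure_iUnion hd hm]
    exact measure_ne_top lam _

theorem mix_box (σ : ℕ → L ≃ L) (hσ : ∀ x y : L, ∀ᶠ m in atTop, σ m x ≠ y) (T S : Finset L)
    (t u : L → Set (Fin d)) :
    Tendsto (fun m => mu L ν (Set.pi (T : Set L) t ∩
      {c | (fun x => c (σ m x)) ∈ Set.pi (S : Set L) u})) atTop
      (𝓝 (mu L ν (Set.pi (T : Set L) t) * mu L ν (Set.pi (S : Set L) u))) := by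
  classical
  have h1 : ∀ᶠ m in atTop, ∀ x ∈ S, ∀ y ∈ T, σ m x ≠ y :=
    (Filter.eventually_all_finset S).2 fun x _ =>
      (Filter.eventually_all_finset T).2 fun y _ => hσ x y
  refine tendsto_const_nhds.congr' ?_
  filter_upwards [h1] with m hm
  have h2 : Set.pi (T : Set L) t ∩ {c : L → Fin d | (fun x => c (σ m x)) ∈ Set.pi (S : Set L) u} =
      Set.pi ((T ∪ S.image (σ m) : Finset L) : Set L)
        (fun z => if z ∈ T then t z else u ((σ m).symm z)) := by
    ext c
    constructor
    · rintro ⟨hc1, hc2⟩ z hz
      rw [Finset.mem_coe, Finset.mem_union] at hz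
      by_cases hzT : z ∈ T
      · simp only [if_pos hzT]
        exact hc1 z hzT
      · simp only [if_neg hzT]
        rcases hz with hz | hz
        · exact absurd hz hzT
        · obtain ⟨x, hx, rfl⟩ := Finset.mem_image.1 hz
          rw [Equiv.symm_apply_apply]
          exact hc2 x hx
    · intro hc
      refine ⟨fun z hz => ?_, fun x hx => ?_⟩
      · have h3 := hc z (by
          rw [Finset.mem_coe, Finset.mem_union]
          exact Or.inl hz)
        simp only [if_pos (show z ∈ T from hz)] at h3
        exact h3
      · have h3 := hc (σ m x) (by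
          rw [Finset.mem_coe, Finset.mem_union]
          exact Or.inr (Finset.mem_image.2 ⟨x, hx, rfl⟩))
        have h4 : σ m x ∉ T := fun h => hm x hx (σ m x) h rfl
        simp only [if_neg h4, Equiv.symm_apply_apply] at h3
        exact h3
  have hdis : Disjoint T (S.image (σ m)) := by
    rw [Finset.disjoint_left]
    intro y hy hy'
    obtain ⟨x, hx, hxy⟩ := Finset.mem_image.1 hy'
    exact hm x hx y hy hxy
  rw [h2, mu_box, mu_box, mu_box, Finset.prod_union hdis,
    Finset.prod_image (fun x _ y _ h => (σ m).injective h)]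
  congr 1
  · exact Finset.prod_congr rfl fun z hz => by rw [if_pos hz]
  · refine Finset.prod_congr rfl fun x hx => ?_
    have h4 : σ m x ∉ T := fun h => hm x hx (σ m x) h rfl
    rw [if_neg h4, Equiv.symm_apply_apply]

theorem mixing (σ : ℕ → L ≃ L) (hσ : ∀ x y : L, ∀ᶠ m in atTop, σ m x ≠ y)
    {A B : Set (L → Fin d)} (hA : MeasurableSet A) (hB : MeasurableSet B) :
    Tendsto (fun m => mu L ν (A ∩ {c | (fun x => c (σ m x)) ∈ B})) atTop
      (𝓝 (mu L ν A * mu L ν B)) := by
  have hgen : (MeasurableSpace.pi : MeasurableSpace (L → Fin d)) =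
      MeasurableSpace.generateFrom (squareCylinders fun _ : L => {s : Set (Fin d) | MeasurableSet s}) :=
    generateFrom_squareCylinders.symm
  have hpi : IsPiSystem (squareCylinders fun _ : L => {s : Set (Fin d) | MeasurableSet s}) :=
    isPiSystem_squareCylinders (fun _ => MeasurableSpace.isPiSystem_measurableSet) (by simp)
  have hpre : ∀ m (B : Set (L → Fin d)), MeasurableSet B →
      mu L ν {c | (fun x => c (σ m x)) ∈ B} = mu L ν B := fun m B hB =>
    (mu_equiv ν (σ m)).measure_preimage hB.nullMeasurableSet
  have hmeas : ∀ m (B : Set (L → Fin d)), MeasurableSet B →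
      MeasurableSet {c : L → Fin d | (fun x => c (σ m x)) ∈ B} := fun m B hB =>
    (mu_equiv ν (σ m)).measurable hB
  -- step 1
  have step1 : ∀ (S : Finset L) (u : L → Set (Fin d)) (A : Set (L → Fin d)), MeasurableSet A →
      Tendsto (fun m => mu L ν (A ∩ {c | (fun x => c (σ m x)) ∈ Set.pi (S : Set L) u})) atTop
        (𝓝 (mu L ν A * mu L ν (Set.pi (S : Set L) u))) := by
    intro S u A hA
    have : IsFiniteMeasure (mu L ν (Set.pi (S : Set L) u) • mu L ν) :=
      Measure.smul_finite _ (measure_ne_top _ _)
    have h := conv_all _ hgen hpi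
      (fun m => (mu L ν).restrict {c | (fun x => c (σ m x)) ∈ Set.pi (S : Set L) u})
      (mu L ν (Set.pi (S : Set L) u) • mu L ν) (mu L ν)
      (fun m => Measure.restrict_le_self) ?_ ?_ hA
    · simp only [Measure.restrict_apply hA, Measure.smul_apply, smul_eq_mul] at h
      rw [mul_comm]
      exact h
    · simp only [Measure.restrict_apply MeasurableSet.univ, Set.univ_inter, Measure.smul_apply,
        smul_eq_mul, measure_univ, mul_one]
      refine tendsto_const_nhds.congr fun m => ?_
      exact (hpre m _ (meas_box S u)).symm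
    · rintro _ ⟨T, t, ht, rfl⟩
      have h1 := mix_box ν σ hσ T S t u
      simp only [Measure.restrict_apply (meas_box T t), Measure.smul_apply, smul_eq_mul]
      rw [mul_comm]
      exact h1
  -- step 2
  have : IsFiniteMeasure (mu L ν A • mu L ν) := Measure.smul_finite _ (measure_ne_top _ _)
  have h := conv_all _ hgen hpi
    (fun m => ((mu L ν).restrict A).map (fun (c : L → Fin d) (x : L) => c (σ m x)))
    (mu L ν A • mu L ν) (mu L ν) ?_ ?_ ?_ hB
  · have h1 : ∀ m, ((mu L ν).restrict A).map (fun (c : L → Fin d) (x : L) => c (σ m x)) B =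
        mu L ν (A ∩ {c | (fun x => c (σ m x)) ∈ B}) := by
      intro m
      rw [Measure.map_apply (mu_equiv ν (σ m)).measurable hB]
      refine (Measure.restrict_apply (hmeas m B hB)).trans ?_
      rw [Set.inter_comm]
    simp only [h1, Measure.smul_apply, smul_eq_mul] at h
    exact h
  · intro m
    rw [Measure.le_iff]
    intro s hs
    rw [Measure.map_apply (mu_equiv ν (σ m)).measurable hs]
    calc (mu L ν).restrict A ((fun (c : L → Fin d) (x : L) => c (σ m x)) ⁻¹' s)
        ≤ mu L ν ((fun (c : L → Fin d) (x : L) => c (σ m x)) ⁻¹' s) :=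
          Measure.restrict_le_self _
      _ = mu L ν s := hpre m s hs
  · have h1 : ∀ m, ((mu L ν).restrict A).map (fun (c : L → Fin d) (x : L) => c (σ m x)) Set.univ =
        mu L ν A := by
      intro m
      rw [Measure.map_apply (mu_equiv ν (σ m)).measurable MeasurableSet.univ, Set.preimage_univ,
        Measure.restrict_apply MeasurableSet.univ, Set.univ_inter]
    simp only [h1, Measure.smul_apply, smul_eq_mul, measure_univ, mul_one]
    exact tendsto_const_nhds
  · rintro _ ⟨S, u, hu, rfl⟩
    have h1 : ∀ m, ((mu L ν).restrict A).map (fun (c : L → Fin d) (x : L) => c (σ m x))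
        (Set.pi (S : Set L) u) =
        mu L ν (A ∩ {c | (fun x => c (σ m x)) ∈ Set.pi (S : Set L) u}) := by
      intro m
      rw [Measure.map_apply (mu_equiv ν (σ m)).measurable (meas_box S u)]
      refine (Measure.restrict_apply (hmeas m _ (meas_box S u))).trans ?_
      rw [Set.inter_comm]
    simp only [h1, Measure.smul_apply, smul_eq_mul]
    exact step1 S u A hA

end Pool.Agent.DCP
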