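import Pool.Agent.DCP.PathDef

/-!
# d-colour paths: existence of the connecting path

PROOF. Let `K` with `K < d`, `letter (r_d) K = b'` (see below), `kk i = d` for `i < d`, `kk d = K + 1`, `kk i = 1` for `i > d`; `r 0 = s`,
`r (i+1) = R (turn (kk i) (r i))` (a recursive definition with the parameter `K`; `r_i`, `i ≤ d`, does not depend on `K`).
General facts for `r' = R (turn k r)`, `1 ≤ k ≤ d`:
* `letter r' 0 = letter r (k + d) = letter r (k - 1)`, `letter r' d = letter r k`, `letter r' j = letter r (k + j)`, `0 < j < d`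
  (`letter_R_zero/last/mid`, `letter_turn`, `letter_period`);
* `cell r' j = cell r (k + j)` for `1 ≤ j ≤ d` (`cell_R`, `cell_turn`): these are the cells of `r` other than `cell r k`;
* `r'.1 = cell r k + v (letter r k) - v (letter r (k-1)) = cell r (k+1) - v (letter r (k-1))`; `ty r'.1 = ty (cell r k)` (`ty_R`).

(T) Let `ct s τ = cell s ((τ - ty s.1).val)` for `τ : ZMod (d+1)`: the cell of `s` of type `τ` (`ty_cell`; every `cell s n` is
`ct s (ty (cell s n))`, by `cell_period`/`cell_inj`). `ct r' τ = ct r τ` if `τ ≠ ty r'.1`, `ct r' (ty r'.1) = r'.1`,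
`ct r (ty r'.1) = cell r k`.

(θ) Let `θ = rt a b'`. In every step of our path `θ (r'.1) > θ (cell r k)`: `θ (r'.1) - θ (cell r k) = θ (v (letter r k)) - θ (v (letter r (k-1)))`
with `θ (v a) = 1`, `θ (v b') = -1`, `θ (v i) = 0` otherwise (`rt_v`, `a ≠ b'`); for `k = d`, `letter r d = a` it is `1 + [letter r (d-1) = b'] ≥ 1`;
for `letter r (k-1) = b'` it is `1 + [letter r k = a] ≥ 1`. So `θ (ct (r i) τ)` is monotone in `i` for every `τ`, and
`θ (ct (r (i+1)) τ) > θ (ct (r i) τ)` for `τ = ty (r (i+1)).1`. `fresh`: if `(r (i+1)).1 = cell (r j) n`, `j ≤ i`, with `τ` its type: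
`θ ((r (i+1)).1) > θ (ct (r i) τ) ≥ θ (ct (r j) τ) = θ (cell (r j) n)`. Contradiction.

(1) `i ≤ d`: `letter (r i) d = a` (start `ha`; step with `k = d`: `letter r' d = letter r d`). Step: `cell (r (i+1)) j = cell (r i) (j - 1)` for
`1 ≤ j ≤ d` and `(r (i+1)).1 = cell (r i) (d+1) - v (letter (r i) (d-1)) = (r i).1 - v p`, `p = letter (r i) (d-1) ≠ a`, so
`ψ (r (i+1)).1 > ψ (r i).1`. By induction: `ψ (cell (r i) j) > l` for `j ≤ i` (`i ≤ d`); in particular all cells of `r d` are `> l`.
(2) `K`: `b' = letter (r d) K`, `K ≤ d` (`exists_letter`), `K ≠ d` since `letter (r d) d = a ≠ b'`. So `kk d = K + 1 ≤ d`.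
(3) `i ≥ d + 1`: `letter (r i) 0 = b'` (for `i = d+1`: `letter (r d) K`; step with `k = 1`: `letter r' 0 = letter r 0`). In all steps with
`i ≥ d`: `letter (r i) (kk i - 1) = b'`, so `(r (i+1)).1 = cell (r i) (kk i + 1) - v b'`, with `ψ > ψ (cell (r i) (kk i + 1)) > l` (a cell of `r i`,
by `cell_period` if `kk i = d`). So all cells of `r i`, `i ≥ d`, are `> l`. `above` follows (`i ≤ d`: (1) with `j = 0`).
`cells`: induction on `i`: for `i = 0`, `n = 0` the first alternative (`i' = 0`), `n ≥ 1` the second (`exists_fc`); step: `n = 0` first alternative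
with `i' = i+1`; `n ≥ 1`: `cell (r (i+1)) n = cell (r i) (kk i + n)`, reduce the index modulo `d + 1`.
(4) the mirror. Let `η = rt b b'` (`η (v b) = 1`, `η (v b') = -1`, else `0`). For `i ≥ d+1` (step `k = 1`, `letter (r i) 0 = b'`):
`(r (i+1)).1 = cell (r i) 2 - v b' = (r i).1 + v (letter (r i) 1)`, so `η (r (i+1)).1 = η (r i).1 + [letter (r i) 1 = b]` (`letter (r i) 1 ≠ b'`);
`cell (r i) n = (r i).1 + v b' + v (letter 1) + ... + v (letter (n-1))` gives `η (cell (r i) n) ≤ η (r i).1` for `n ≤ d` (`b` occurs at most once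
among the letters; `n = 0`: equality). The letters `1..d` of `r (i+1)` are those of `r i` rotated: `letter (r (i+1)) j = letter (r i) (j+1)` for
`1 ≤ j < d`, `letter (r (i+1)) d = letter (r i) 1`. So from every `i ≥ d+1` there is `i' ≥ i` with `letter (r i') 1 = b`
(if `letter (r i) j = b`, `1 ≤ j ≤ d`, take `i' = i + j - 1`), and `η (r (i'+1)).1 = η (r i').1 + 1`. Hence for every `M` there is `N ≥ d + 1` with
`letter (r N) 1 = b` and `η (r N).1 ≥ M` (induction on `M`, `η (r i).1` is monotone for `i ≥ d+1`). Take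
`M ≥ M0` and `M ≥ η (cell (r i) n)` for all `i ≤ d`, `n ≤ d`, and `m = η (r N).1`. `mir` follows. `last`: `kk N = 1`.
`join`: let `t = turn 1 (r N)`, `x = t.1 = cell (r N) 1 = (r N).1 + v b'`, `η x = m - 1`, `letter t 0 = letter (r N) 1 = b`,
`letter t d = letter (r N) (d+1) = b'`. `(R t).1 = x + v b - v b'` and `rf m x = x + (m - η x) • (v b - v b') = x + v b - v b'`. Permutations: `(R t).2 =
(swap 0 (last d)).trans t.2`, `(rfs m t).2 = t.2.trans (swap b b')`, `t.2 0 = b`, `t.2 (last d) = b'`: equal
(`Equiv.swap_apply_def` at every point, or `Equiv.mul_swap_eq_swap_mul`).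
`top`: `R (r N) = turn 1 (r (N-1))` (`R_R`; `N - 1 ≥ d`, `kk (N-1)` instead of `1`), so `(R (r N)).1 = cell (r (N-1)) (kk (N-1))` is a cell of `r (N-1)`,
`> l`; and `(r N).1` is `> l`.
-/

set_option autoImplicit false

namespace Pool.Agent.DCP

variable {d : ℕ} {L : Type} [AddCommGroup L] {D : LD d L}

namespace PathAux

private theorem cell_add_mul (s : St d L) (k q : ℕ) :
    cell D s (k + (d + 1) * q) = cell D s k := by
  induction q with
  | zero => rw [Nat.mul_zero, add_zero]
  | succ q ih => rw [Nat.mul_succ, ← add_assoc, cell_period, ih]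

private theorem cell_mod (s : St d L) (k : ℕ) : cell D s k = cell D s (k % (d + 1)) := by
  conv_lhs => rw [← Nat.mod_add_div k (d + 1)]
  exact cell_add_mul s _ _

private theorem nx_letter_zero (r : St d L) {k : ℕ} (h0 : 1 ≤ k) :
    letter (R D (turn D k r)) 0 = letter r (k - 1) := by
  rw [letter_R_zero, letter_turn, show k + d = (k - 1) + (d + 1) by omega, letter_period]

private theorem nx_letter_last (r : St d L) (k : ℕ) :
    letter (R D (turn D k r)) d = letter r k := by
  rw [letter_R_last, letter_turn, add_zero]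

private theorem nx_letter_mid (r : St d L) (k : ℕ) {j : ℕ} (h0 : 0 < j) (h1 : j < d) :
    letter (R D (turn D k r)) j = letter r (k + j) := by
  rw [letter_R_mid D _ h0 h1, letter_turn]

private theorem nx_cell (r : St d L) (k : ℕ) {j : ℕ} (h0 : 1 ≤ j) (h1 : j ≤ d) :
    cell D (R D (turn D k r)) j = cell D r (k + j) := by
  rw [cell_R D _ h0 h1, cell_turn]

private theorem nx_fst (r : St d L) {k : ℕ} (h0 : 1 ≤ k) :
    (R D (turn D k r)).1 = cell D r k + D.v (letter r k) - D.v (letter r (k - 1)) := by
  rw [R_fst, letter_turn, letter_turn, add_zero, turn_fst,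
    show k + d = (k - 1) + (d + 1) by omega, letter_period]

private theorem nx_ty (r : St d L) (k : ℕ) :
    D.ty (R D (turn D k r)).1 = D.ty (cell D r k) := by
  rw [ty_R, turn_fst]

private theorem theta_step {a b' : Fin (d + 1)} (hab : a ≠ b') (r : St d L) {k : ℕ} (h0 : 1 ≤ k)
    (h1 : k ≤ d) (h : letter r k = a ∨ letter r (k - 1) = b') :
    D.rt a b' (cell D r k) < D.rt a b' (R D (turn D k r)).1 := by
  have hne : letter r k ≠ letter r (k - 1) := fun he => by
    have := letter_inj r h1 (by omega) he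
    omega
  rw [nx_fst r h0, map_sub, map_add, D.rt_v, D.rt_v]
  rcases h with h | h
  · rw [h] at hne ⊢
    rw [if_pos rfl, if_neg hab, if_neg hne.symm]
    split_ifs <;> linarith
  · rw [h] at hne ⊢
    rw [if_neg hab.symm, if_pos rfl, if_neg hne]
    split_ifs <;> linarith

private theorem eta_aux {b b' : Fin (d + 1)} (hbb : b ≠ b') (r : St d L) (h : letter r 0 = b')
    (n : ℕ) (hn : n ≤ d + 1) : D.rt b b' (cell D r n) ≤ D.rt b b' r.1 ∧
      (1 ≤ n → (∀ t < n, letter r t ≠ b) → D.rt b b' (cell D r n) ≤ D.rt b b' r.1 - 1) := by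
  induction n with
  | zero =>
    refine ⟨by rw [cell_zero], fun h => absurd h (by omega)⟩
  | succ n ih =>
    obtain ⟨ih1, ih2⟩ := ih (by omega)
    rw [cell_succ, map_add, D.rt_v]
    rcases Nat.eq_zero_or_pos n with h0 | h0
    · subst h0
      rw [h, cell_zero, if_neg hbb.symm, if_pos rfl]
      exact ⟨by linarith, fun _ _ => by linarith⟩
    · have hb' : letter r n ≠ b' := by
        intro he
        rw [← h] at he
        have := letter_inj r (by omega) (by omega) he
        omega
      rw [if_neg hb']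
      by_cases hb : letter r n = b
      · have h1 : ∀ t < n, letter r t ≠ b := by
          intro t ht he
          rw [← hb] at he
          have := letter_inj r (by omega) (by omega) he
          omega
        rw [if_pos hb]
        refine ⟨by have := ih2 h0 h1; linarith, fun _ h2 => ?_⟩
        exact absurd hb (h2 n (Nat.lt_succ_self n))
      · rw [if_neg hb]
        refine ⟨by linarith, fun _ h2 => ?_⟩
        have := ih2 h0 (fun t ht => h2 t (by omega))
        linarith

/-- the numbers of the turns -/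
private def kk (d K i : ℕ) : ℕ := if i < d then d else if i = d then K + 1 else 1

private theorem kk_lt {d K i : ℕ} (h : i < d) : kk d K i = d := by rw [kk, if_pos h]

private theorem kk_eq {d K : ℕ} : kk d K d = K + 1 := by
  rw [kk, if_neg (lt_irrefl d), if_pos rfl]

private theorem kk_gt {d K i : ℕ} (h : d < i) : kk d K i = 1 := by
  rw [kk, if_neg (by omega), if_neg (by omega)]

/-- the path -/
private def sq (D : LD d L) (K : ℕ) (s : St d L) : ℕ → St d L
  | 0 => s
  | i + 1 => R D (turn D (kk d K i) (sq D K s i))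

private theorem sq_zero (K : ℕ) (s : St d L) : sq D K s 0 = s := rfl

private theorem sq_succ (K : ℕ) (s : St d L) (i : ℕ) :
    sq D K s (i + 1) = R D (turn D (kk d K i) (sq D K s i)) := rfl

private theorem sq_congr (K K' : ℕ) (s : St d L) (i : ℕ) (hi : i ≤ d) :
    sq D K s i = sq D K' s i := by
  induction i with
  | zero => rfl
  | succ i ih =>
    rw [sq_succ, sq_succ, ih (by omega), kk_lt (by omega), kk_lt (by omega)]

end PathAux

open PathAux in
theorem exists_path (hd : 2 ≤ d) {ψ : L →+ ℤ} {a b b' : Fin (d + 1)} (hD : Dir D ψ a b b')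
    {s : St d L} {l : ℤ} (hs : l < ψ s.1) (ha : letter s d = a) (M0 : ℤ) :
    ∃ (r : ℕ → St d L) (k : ℕ → ℕ) (N : ℕ) (m : ℤ), Pth D ψ b b' s l r k N m ∧ M0 ≤ m := by
  -- the letter `a`
  have hA : ∀ K i, i ≤ d → letter (sq D K s i) d = a := by
    intro K i hi
    induction i with
    | zero => exact ha
    | succ i ih =>
      rw [sq_succ, nx_letter_last, kk_lt (by omega)]
      exact ih (by omega)
  obtain ⟨K, hKd, hK⟩ := exists_letter (sq D 0 s d) b'
  have hK' : K < d := by
    rcases lt_or_eq_of_le hKd with h | h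
    · exact h
    · rw [h, hA 0 d le_rfl] at hK
      exact absurd hK.symm hD.ba'
  rw [sq_congr 0 K s d le_rfl] at hK
  obtain ⟨r, hr⟩ : ∃ r, r = sq D K s := ⟨_, rfl⟩
  obtain ⟨k, hk⟩ : ∃ k, k = kk d K := ⟨_, rfl⟩
  have hA' : ∀ i, i ≤ d → letter (r i) d = a := fun i hi => by rw [hr]; exact hA K i hi
  rw [← hr] at hK
  have hr0 : r 0 = s := by rw [hr]; rfl
  have hsucc : ∀ i, r (i + 1) = R D (turn D (k i) (r i)) := fun i => by rw [hr, hk]; rfl
  have klt : ∀ i, i < d → k i = d := fun i hi => by rw [hk]; exact kk_lt hi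
  have keq : k d = K + 1 := by rw [hk]; exact kk_eq
  have kgt : ∀ i, d < i → k i = 1 := fun i hi => by rw [hk]; exact kk_gt hi
  clear hA hr hk
  have kpos : ∀ i, 1 ≤ k i := by
    intro i
    rcases lt_trichotomy i d with h | h | h
    · rw [klt i h]
      omega
    · rw [h, keq]
      omega
    · rw [kgt i h]
  have kle : ∀ i, k i ≤ d := by
    intro i
    rcases lt_trichotomy i d with h | h | h
    · rw [klt i h]
    · rw [h, keq]
      omega
    · rw [kgt i h]
      omega
  -- the letter `b'`
  have hB0 : ∀ i, d < i → letter (r i) 0 = b' := by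
    intro i hi
    induction i with
    | zero => omega
    | succ i ih =>
      rw [hsucc, nx_letter_zero _ (kpos i)]
      rcases Nat.lt_or_ge d i with h | h
      · rw [kgt i h]
        exact ih h
      · have h1 : i = d := by omega
        rw [h1, keq]
        exact hK
  have hB : ∀ i, d ≤ i → letter (r i) (k i - 1) = b' := by
    intro i hi
    rcases lt_or_eq_of_le hi with h | h
    · rw [kgt i h]
      exact hB0 i h
    · rw [← h, keq]
      exact hK
  -- heights
  have hH1 : ∀ i, i ≤ d → ∀ j, j ≤ i → l < ψ (cell D (r i) j) := by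
    intro i
    induction i with
    | zero =>
      intro _ j hj
      have : j = 0 := by omega
      rw [this, cell_zero, hr0]
      exact hs
    | succ i ih =>
      intro hi j hj
      rcases Nat.eq_zero_or_pos j with h0 | h0
      · rw [h0, cell_zero, hsucc, klt i (by omega), nx_fst _ (by omega), ← cell_succ,
          cell_full, map_sub]
        have h1 : letter (r i) (d - 1) ≠ a := by
          rw [← hA' i (by omega)]
          intro h2
          have := letter_inj _ (by omega) (by omega) h2
          omega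
        have h2 := hD.neg _ h1
        have h3 := ih (by omega) 0 (by omega)
        rw [cell_zero] at h3
        linarith
      · rw [hsucc, nx_cell _ _ h0 (by omega), klt i (by omega),
          show d + j = (j - 1) + (d + 1) by omega, cell_period]
        exact ih (by omega) _ (by omega)
  have hH2 : ∀ i, d ≤ i → ∀ j, l < ψ (cell D (r i) j) := by
    intro i hi
    induction i, hi using Nat.le_induction with
    | base =>
      intro j
      rw [cell_mod]
      exact hH1 d le_rfl _ (Nat.lt_succ_iff.1 (Nat.mod_lt _ (Nat.succ_pos d)))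
    | succ i hi ih =>
      intro j
      rw [cell_mod]
      have hj := Nat.lt_succ_iff.1 (Nat.mod_lt j (Nat.succ_pos d))
      rcases Nat.eq_zero_or_pos (j % (d + 1)) with h0 | h0
      · rw [h0, cell_zero, hsucc, nx_fst _ (kpos i), ← cell_succ, hB i hi, map_sub]
        have h2 := hD.neg _ hD.ba'
        have h3 := ih (k i + 1)
        linarith
      · rw [hsucc, nx_cell _ _ h0 hj]
        exact ih _
  have hab : ∀ i, l < ψ (r i).1 := by
    intro i
    rcases le_total i d with h | h
    · have := hH1 i h 0 (Nat.zero_le _)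
      rwa [cell_zero] at this
    · have := hH2 i h 0
      rwa [cell_zero] at this
  -- `θ`
  have hth : ∀ i, D.rt a b' (cell D (r i) (k i)) < D.rt a b' (r (i + 1)).1 := by
    intro i
    rw [hsucc]
    refine theta_step hD.ba'.symm _ (kpos i) (kle i) ?_
    rcases Nat.lt_or_ge i d with h | h
    · left
      rw [klt i h]
      exact hA' i h.le
    · right
      exact hB i h
  have hty : ∀ i, D.ty (r (i + 1)).1 = D.ty (cell D (r i) (k i)) := by
    intro i
    rw [hsucc, nx_ty]
  have hmon : ∀ j i, j ≤ i → ∀ n n' : ℕ, D.ty (cell D (r j) n) = D.ty (cell D (r i) n') →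
      D.rt a b' (cell D (r j) n) ≤ D.rt a b' (cell D (r i) n') := by
    intro j i hij
    induction i, hij using Nat.le_induction with
    | base =>
      intro n n' h
      rw [ty_cell, ty_cell, add_right_inj, ZMod.natCast_eq_natCast_iff'] at h
      rw [cell_mod _ n, cell_mod _ n', h]
    | succ i hi ih =>
      intro n n' h
      rw [cell_mod _ n'] at h ⊢
      have hj := Nat.lt_succ_iff.1 (Nat.mod_lt n' (Nat.succ_pos d))
      rcases Nat.eq_zero_or_pos (n' % (d + 1)) with h0 | h0
      · rw [h0, cell_zero] at h ⊢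
        rw [hty] at h
        exact (ih n _ h).trans (hth i).le
      · rw [hsucc, nx_cell _ _ h0 hj] at h ⊢
        exact ih n _ h
  have hfresh : ∀ i j n, j ≤ i → n ≤ d → (r (i + 1)).1 ≠ cell D (r j) n := by
    intro i j n hj _ he
    have h1 : D.ty (cell D (r j) n) = D.ty (cell D (r i) (k i)) := by
      rw [← he, hty]
    have h2 := hmon j i hj n _ h1
    have h3 := hth i
    rw [he] at h3
    exact absurd (lt_of_le_of_lt h2 h3) (lt_irrefl _)
  -- cells
  have hcells : ∀ i n, n ≤ d →
      (∃ i' ≤ i, cell D (r i) n = (r i').1) ∨ ∃ j : Fin d, cell D (r i) n = fc D s j := by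
    intro i
    induction i with
    | zero =>
      intro n hn
      rcases Nat.eq_zero_or_pos n with h0 | h0
      · exact Or.inl ⟨0, le_rfl, by rw [h0, cell_zero]⟩
      · obtain ⟨j, -, hj⟩ := exists_fc D s h0 hn
        exact Or.inr ⟨j, by rw [hr0, hj]⟩
    | succ i ih =>
      intro n hn
      rcases Nat.eq_zero_or_pos n with h0 | h0
      · exact Or.inl ⟨i + 1, le_rfl, by rw [h0, cell_zero]⟩
      · have h1 : cell D (r (i + 1)) n = cell D (r i) ((k i + n) % (d + 1)) := by
          rw [hsucc, nx_cell _ _ h0 hn, cell_mod]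
        rw [h1]
        rcases ih _ (Nat.lt_succ_iff.1 (Nat.mod_lt (k i + n) (Nat.succ_pos d))) with
          ⟨i', hi', h2⟩ | ⟨j, h2⟩
        · exact Or.inl ⟨i', by omega, h2⟩
        · exact Or.inr ⟨j, h2⟩
  -- `η`
  have hL1 : ∀ i, d < i → letter (r i) 1 ≠ b' := by
    intro i hi he
    rw [← hB0 i hi] at he
    have := letter_inj _ (by omega) (by omega) he
    omega
  have hfst : ∀ i, d < i → (r (i + 1)).1 = (r i).1 + D.v (letter (r i) 1) := by
    intro i hi
    rw [hsucc, nx_fst _ (kpos i), kgt i hi, Nat.sub_self, cell_succ, cell_zero]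
    abel
  have heta1 : ∀ i, d < i → D.rt b b' (r i).1 ≤ D.rt b b' (r (i + 1)).1 := by
    intro i hi
    rw [hfst i hi, map_add, D.rt_v, if_neg (hL1 i hi)]
    split_ifs <;> linarith
  have heta2 : ∀ i, d < i → letter (r i) 1 = b →
      D.rt b b' (r (i + 1)).1 = D.rt b b' (r i).1 + 1 := by
    intro i hi hb
    rw [hfst i hi, map_add, D.rt_v, if_neg (hL1 i hi), if_pos hb, sub_zero]
  have heta3 : ∀ i, d < i → ∀ i', i ≤ i' → D.rt b b' (r i).1 ≤ D.rt b b' (r i').1 := by
    intro i hi i' hi'
    induction i', hi' using Nat.le_induction with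
    | base => exact le_rfl
    | succ i' h ih => exact ih.trans (heta1 i' (by omega))
  have hnext : ∀ j, 1 ≤ j → j ≤ d → ∀ i, d < i → letter (r i) j = b →
      ∃ i', i ≤ i' ∧ letter (r i') 1 = b := by
    intro j hj
    induction j, hj using Nat.le_induction with
    | base => exact fun _ i _ h => ⟨i, le_rfl, h⟩
    | succ j hj ih =>
      intro hjd i hi h
      obtain ⟨i', h1, h2⟩ := ih (by omega) (i + 1) (by omega) (by
        rw [hsucc, nx_letter_mid _ _ (by omega) (by omega), kgt i hi, add_comm 1 j]
        exact h)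
      exact ⟨i', by omega, h2⟩
  have hnext2 : ∀ i, d < i → ∃ i', i ≤ i' ∧ letter (r i') 1 = b := by
    intro i hi
    obtain ⟨j, hj, h⟩ := exists_letter (r i) b
    refine hnext j ?_ hj i hi h
    rcases Nat.eq_zero_or_pos j with h0 | h0
    · rw [h0, hB0 i hi] at h
      exact absurd h.symm hD.bb
    · exact h0
  have hbig : ∀ n : ℕ, ∃ N, d < N ∧ letter (r N) 1 = b ∧
      D.rt b b' (r (d + 1)).1 + n ≤ D.rt b b' (r N).1 := by
    intro n
    induction n with
    | zero =>
      obtain ⟨i', h1, h2⟩ := hnext2 (d + 1) (by omega)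
      refine ⟨i', by omega, h2, ?_⟩
      have := heta3 (d + 1) (by omega) i' h1
      push_cast
      linarith
    | succ n ih =>
      obtain ⟨N, h1, h2, h3⟩ := ih
      obtain ⟨i', h4, h5⟩ := hnext2 (N + 1) (by omega)
      refine ⟨i', by omega, h5, ?_⟩
      have h6 := heta3 (N + 1) (by omega) i' h4
      have h7 := heta2 N h1 h2
      push_cast
      linarith
  obtain ⟨M, hM⟩ := (((Finset.range (d + 1)) ×ˢ (Finset.range (d + 1))).image
    (fun p => D.rt b b' (cell D (r p.1) p.2))).exists_le
  obtain ⟨N, hN1, hN2, hN3⟩ := hbig (max M0 M - D.rt b b' (r (d + 1)).1).toNat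
  have hN4 : max M0 M ≤ D.rt b b' (r N).1 := by
    have := Int.self_le_toNat (max M0 M - D.rt b b' (r (d + 1)).1)
    linarith
  refine ⟨r, k, N, D.rt b b' (r N).1, ⟨hr0, kpos, kle, hsucc, hfresh, hab, hcells, kgt N hN1,
    ?_, ?_, ?_⟩, (le_max_left _ _).trans hN4⟩
  · intro i hi n hn
    rcases Nat.lt_or_ge d i with h | h
    · exact ((eta_aux hD.bb _ (hB0 i h) n (by omega)).1).trans (heta3 i h N hi)
    · refine (hM _ ?_).trans ((le_max_right _ _).trans hN4)
      rw [Finset.mem_image]
      exact ⟨(i, n), by rw [Finset.mem_product, Finset.mem_range, Finset.mem_range]; omega, rfl⟩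
  · have ht0 : letter (turn D 1 (r N)) 0 = b := by
      rw [letter_turn]
      exact hN2
    have htd : letter (turn D 1 (r N)) d = b' := by
      rw [letter_turn, show 1 + d = 0 + (d + 1) by omega, letter_period]
      exact hB0 N hN1
    refine Prod.ext ?_ ?_
    · rw [R_fst, ht0, htd]
      show rf D b b' _ (turn D 1 (r N)).1 = _
      rw [rf]
      have h1 : D.rt b b' (turn D 1 (r N)).1 = D.rt b b' (r N).1 - 1 := by
        rw [turn_fst, cell_succ, cell_zero, map_add, hB0 N hN1, D.rt_v, if_neg hD.bb.symm,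
          if_pos rfl]
        ring
      rw [h1, sub_sub_cancel, one_smul]
      abel
    · have h0 : (turn D 1 (r N)).2 0 = b := by
        rw [letter, ofNat_zero] at ht0
        exact ht0
      have h1 : (turn D 1 (r N)).2 (Fin.last d) = b' := by
        rw [letter, ofNat_last] at htd
        exact htd
      show (turn D 1 (r N)).2.trans (Equiv.swap b b') =
        (Equiv.swap 0 (Fin.last d)).trans (turn D 1 (r N)).2
      have h2 := Equiv.mul_swap_eq_swap_mul (turn D 1 (r N)).2 0 (Fin.last d)
      rw [h0, h1] at h2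
      exact h2.symm
  · obtain ⟨n, rfl⟩ : ∃ n, N = n + 1 := ⟨N - 1, by omega⟩
    have h1 := hab (n + 1)
    have h2 := hH2 n (by omega) (k n)
    rw [Hh]
    have h3 : (R D (r (n + 1))).1 = cell D (r n) (k n) := by
      rw [hsucc n, R_R, turn_fst]
    rw [h3]
    linarith

end Pool.Agent.DCP
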