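import Pool.Agent.DCP.Meas
import Pool.Agent.DCP.Prob

/-!
# d-colour paths: the environment seen from the edge

`X = Perm (Fin (d+1)) × (L → Fin d)` with the discrete σ-algebra on the first factor; `mX ν` = uniform law
times `mu`. `The D (π, c) = (π', c (· + z))` where `(z, π') = Phi D c (0, π)`.

`invol`: let `f : X → X` be measurable with `f (f x) = x`; `g i` (i in a finite or countable type)
measurable equivalences preserving the measure, and for all `x` some `i` with `f x = g i x`. Then `f`
preserves the measure. PROOF: let (index `ℕ` or a `Fintype` with a linear order; simplest: assume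
a measurable function `κ : X → ι` with `f x = g (κ x) x`) `P_i = κ ⁻¹' {i}`. For `A` measurable:
`A = f '' (f ⁻¹' A) = ⋃ i, g i '' (f ⁻¹' A ∩ P_i)`, a disjoint union (`f` is injective), and
`μ (g i '' B) = μ B` (`g i` a measurable equivalence preserving `μ`), so
`μ A = ∑' i, μ (f ⁻¹' A ∩ P_i) = μ (f ⁻¹' A)`.

`The_mp`: `The D = Jt ∘ Rt`, `Rt (π, c) = ((R D (0, π)).2, c (· + (R D (0, π)).1))`,
`Jt (π, c) = ((J D c (0, π)).2, c (· + (J D c (0, π)).1))` (by `J_tr`: `R D (0, π) = tr z (0, π')`). Both are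
involutions (`R_R`, `J_J`, `R_tr`, `J_tr`), measurable. For a fixed bijection `e` of the
permutations and a fixed function `w : Perm → L` the map `(π, c) ↦ (e π, c (· + w π))` preserves `mX`: it is a
measurable equivalence (inverse `(π, c) ↦ (e⁻¹ π, c (· - w (e⁻¹ π)))`); `MeasurePreserving.skew_product` with
`mu_equiv ν (Equiv.addRight (w π))` and uniform law preserved by `e`. `Rt` is such a map
(`e = ` composition with the swap). `Jt` is, by `J_not`/`J_eq`, on the measurable piece
`{(π, c) | J D c (0, π) = turn D k (0, π)}` (take the least `k ∈ {0, ..., d}`; `k = 0`: `turn_zero`) equal to such a map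
(`e π = (Equiv.addLeft (Fin.ofNat (d + 1) k)).trans π`, `w π = cell D (0, π) k`). `meas_J` gives the measurability.

`The_iter`: induction on `k` by `Function.iterate_succ_apply'`, `Phi_tr`, `pow_succ'`.

`top_null`: let `T = {x : X | Top D ψ x.2 (0, x.1)}` (measurable: finite union over `π` of
`{π} ×ˢ {c | Top D ψ c (0, π)}`). If `mX T ≠ 0`, by `MeasurePreserving.exists_mem_iterate_mem` there are `x ∈ T`,
`m ≠ 0` with `(The D)^[m] x ∈ T`. By `The_iter` and `Top_tr` (`(z, π') = tr z (0, π')`) both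
`Top D ψ c s` and `Top D ψ c (Φ^m s)`, `s = (0, π)`, `Φ = Phi D c`. The first gives
`Hh (Φ^m s) < Hh s`, the second (third clause with `k = m`, `Φ⁻¹^m (Φ^m s) = s`) `Hh s ≤ Hh (Φ^m s)`: contradiction. So
`mX T = 0`, so `mu {c | Top D ψ c (0, π)} = 0` for every `π` (the singleton `{π}` has positive uniform mass), and for
`s = (z, π) = tr z (0, π)` by `Top_tr` and `mu_equiv ν (Equiv.addRight z)`.
-/

set_option autoImplicit false

namespace Pool.Agent.DCP

open MeasureTheory

/-- the space of environments -/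
abbrev XX (d : ℕ) (L : Type) : Type := Equiv.Perm (Fin (d + 1)) × (L → Fin d)

instance (d : ℕ) : MeasurableSpace (Equiv.Perm (Fin (d + 1))) := ⊤

instance (d : ℕ) : DiscreteMeasurableSpace (Equiv.Perm (Fin (d + 1))) := ⟨fun _ => trivial⟩

variable {d : ℕ} {L : Type} [AddCommGroup L] (D : LD d L)

/-- the environment seen from the next edge -/
noncomputable def The (x : XX d L) : XX d L :=
  ((Phi D x.2 (0, x.1)).2, fun y => x.2 (y + (Phi D x.2 (0, x.1)).1))

/-- the law -/
noncomputable def mX (L : Type) {d : ℕ} (ν : Measure (Fin d)) [IsProbabilityMeasure ν] :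
    Measure (XX d L) :=
  (PMF.uniformOfFintype (Equiv.Perm (Fin (d + 1)))).toMeasure.prod (mu L ν)

variable {D} (ν : Measure (Fin d)) [IsProbabilityMeasure ν]

instance : IsProbabilityMeasure (mX L ν) := by
  unfold mX
  infer_instance

theorem The_iter (x : XX d L) (k : ℕ) :
    (The D)^[k] x = (((Phi D x.2 ^ k) (0, x.1)).2, fun y => x.2 (y + ((Phi D x.2 ^ k) (0, x.1)).1)) := by
  induction k with
  | zero =>
    obtain ⟨π, c⟩ := x
    simp
  | succ k ih =>
    obtain ⟨π, c⟩ := x
    rw [Function.iterate_succ_apply', ih]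
    simp only
    rw [pow_succ', Equiv.Perm.mul_apply]
    set s := (Phi D c ^ k) (0, π) with hs
    have h1 : s = tr s.1 (0, s.2) := Prod.ext (zero_add _).symm rfl
    have h2 : Phi D c s = tr s.1 (Phi D (fun x => c (x + s.1)) (0, s.2)) := by
      conv_lhs => rw [h1]
      rw [Phi_tr]
    rw [h2]
    refine Prod.ext rfl ?_
    funext y
    show c (y + (Phi D (fun x => c (x + s.1)) (0, s.2)).1 + s.1) =
      c (y + ((Phi D (fun x => c (x + s.1)) (0, s.2)).1 + s.1))
    rw [add_assoc]

/-- a measurable involution which is piecewise measure preserving is measure preserving -/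
theorem invol_mp {X : Type*} [MeasurableSpace X] {μ : Measure X} (f : X → X)
    (hinv : ∀ x, f (f x) = x) (κ : X → ℕ) (hκ : Measurable κ) (g : ℕ → X → X)
    (hgi : ∀ i, Function.Injective (g i)) (hg : ∀ i, MeasurePreserving (g i) μ μ)
    (hf : ∀ x, f x = g (κ x) x) : MeasurePreserving f μ μ := by
  have hP : ∀ i, MeasurableSet (κ ⁻¹' {i}) := fun i => hκ (measurableSet_singleton i)
  have hfm : Measurable f := by
    intro A hA
    have h1 : f ⁻¹' A = ⋃ i, κ ⁻¹' {i} ∩ g i ⁻¹' A := by
      ext x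
      simp only [Set.mem_preimage, Set.mem_iUnion, Set.mem_inter_iff, Set.mem_singleton_iff,
        exists_eq_left']
      rw [hf]
    rw [h1]
    exact MeasurableSet.iUnion fun i => (hP i).inter ((hg i).measurable hA)
  refine ⟨hfm, ?_⟩
  ext A hA
  rw [Measure.map_apply hfm hA]
  have e1 : f ⁻¹' A = ⋃ i, f ⁻¹' A ∩ κ ⁻¹' {i} := by
    ext x; simp
  have e2 : A = ⋃ i, A ∩ f ⁻¹' (κ ⁻¹' {i}) := by
    ext x; simp
  have e3 : ∀ i, f ⁻¹' A ∩ κ ⁻¹' {i} = g i ⁻¹' (A ∩ f ⁻¹' (κ ⁻¹' {i})) := by
    intro i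
    ext x
    simp only [Set.mem_inter_iff, Set.mem_preimage, Set.mem_singleton_iff]
    constructor
    · rintro ⟨h1, h2⟩
      have h3 : g i x = f x := by rw [hf x, h2]
      rw [h3, hinv]
      exact ⟨h1, h2⟩
    · rintro ⟨h1, h2⟩
      have h3 : g i (f (g i x)) = g i x := by
        have := hf (f (g i x))
        rw [hinv, h2] at this
        exact this.symm
      have h4 : f (g i x) = x := hgi i h3
      rw [h4] at h2
      have h5 : f x = g i x := by rw [hf x, h2]
      rw [h5]
      exact ⟨h1, h2⟩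
  conv_lhs => rw [e1]
  conv_rhs => rw [e2]
  rw [measure_iUnion, measure_iUnion]
  · refine tsum_congr fun i => ?_
    rw [e3]
    exact (hg i).measure_preimage (hA.inter (hfm (hP i))).nullMeasurableSet
  · intro i j hij
    refine Set.disjoint_left.2 fun x h1 h2 => hij ?_
    exact (h1.2 : κ (f x) = i).symm.trans h2.2
  · exact fun i => hA.inter (hfm (hP i))
  · intro i j hij
    refine Set.disjoint_left.2 fun x h1 h2 => hij ?_
    exact (h1.2 : κ x = i).symm.trans h2.2
  · exact fun i => (hfm hA).inter (hP i)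

/-- the simple maps -/
def sm (τ : Equiv.Perm (Fin (d + 1))) (w : Equiv.Perm (Fin (d + 1)) → L) (x : XX d L) : XX d L :=
  (τ.trans x.1, fun y => x.2 (y + w x.1))

theorem sm_inj (τ : Equiv.Perm (Fin (d + 1))) (w : Equiv.Perm (Fin (d + 1)) → L) :
    Function.Injective (sm τ w) := by
  rintro ⟨π, c⟩ ⟨π', c'⟩ h
  have h1 : τ.trans π = τ.trans π' := congrArg Prod.fst h
  have h2 : (fun y => c (y + w π)) = fun y => c' (y + w π') := congrArg Prod.snd h
  have h3 : π = π' := by
    ext i
    have := congrArg (fun e : Equiv.Perm (Fin (d + 1)) => ((e (τ.symm i) : Fin (d + 1)) : ℕ)) h1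
    simpa using this
  subst h3
  refine Prod.ext rfl ?_
  funext y
  have h4 := congrFun h2 (y - w π)
  simpa using h4

theorem unif_mp (τ : Equiv.Perm (Fin (d + 1))) :
    MeasurePreserving (fun π : Equiv.Perm (Fin (d + 1)) => τ.trans π)
      (PMF.uniformOfFintype (Equiv.Perm (Fin (d + 1)))).toMeasure
      (PMF.uniformOfFintype (Equiv.Perm (Fin (d + 1)))).toMeasure := by
  refine ⟨Measurable.of_discrete, ?_⟩
  refine Measure.ext_of_singleton fun π => ?_
  rw [Measure.map_apply Measurable.of_discrete (MeasurableSet.of_discrete)]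
  have h1 : (fun π : Equiv.Perm (Fin (d + 1)) => τ.trans π) ⁻¹' {π} = {τ.symm.trans π} := by
    ext σ
    simp only [Set.mem_preimage, Set.mem_singleton_iff]
    constructor
    · rintro rfl
      ext i
      simp
    · rintro rfl
      ext i
      simp
  rw [h1, PMF.toMeasure_apply_singleton _ _ MeasurableSet.of_discrete,
    PMF.toMeasure_apply_singleton _ _ MeasurableSet.of_discrete, PMF.uniformOfFintype_apply,
    PMF.uniformOfFintype_apply]

theorem sm_mp (τ : Equiv.Perm (Fin (d + 1))) (w : Equiv.Perm (Fin (d + 1)) → L) :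
    MeasurePreserving (sm τ w) (mX L ν) (mX L ν) := by
  have hm : Measurable (Function.uncurry
      fun (π : Equiv.Perm (Fin (d + 1))) (c : L → Fin d) (y : L) => c (y + w π)) := by
    refine measurable_from_prod_countable_right fun π => ?_
    exact measurable_pi_iff.2 fun y => measurable_pi_apply (y + w π)
  have h := (unif_mp τ).skew_product (μc := mu L ν) (μd := mu L ν) hm
    (Filter.Eventually.of_forall fun π => (mu_equiv ν (Equiv.addRight (w π))).map_eq)
  exact h

open Classical in
theorem The_mp [Countable L] : MeasurePreserving (The D) (mX L ν) (mX L ν) := by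
  have hT : The D = (fun x : XX d L => ((J D x.2 (0, x.1)).2, fun y => x.2 (y + (J D x.2 (0, x.1)).1)))
      ∘ sm (Equiv.swap 0 (Fin.last d)) (fun π => (R D (0, π)).1) := by
    funext x
    obtain ⟨π, c⟩ := x
    have h1 : R D (0, π) = tr (R D (0, π)).1 (0, (R D (0, π)).2) := Prod.ext (zero_add _).symm rfl
    have h2 : Phi D c (0, π) = tr (R D (0, π)).1
        (J D (fun x => c (x + (R D (0, π)).1)) (0, (R D (0, π)).2)) := by
      rw [Phi_apply]
      conv_lhs => rw [h1]
      rw [J_tr]
    have h3 : The D (π, c) =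
        ((Phi D c (0, π)).2, fun y => c (y + (Phi D c (0, π)).1)) := rfl
    rw [h3, h2]
    refine Prod.ext rfl ?_
    funext y
    show c (y + ((J D (fun x => c (x + (R D (0, π)).1)) (0, (R D (0, π)).2)).1 + (R D (0, π)).1)) =
      c (y + (J D (fun x => c (x + (R D (0, π)).1)) (0, (R D (0, π)).2)).1 + (R D (0, π)).1)
    rw [add_assoc]
  rw [hT]
  refine MeasurePreserving.comp ?_ (sm_mp ν _ _)
  have hex : ∀ x : XX d L, ∃ k : ℕ, J D x.2 (0, x.1) = turn D k (0, x.1) := by
    intro x
    by_cases h : rb D x.2 (0, x.1)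
    · obtain ⟨j, hj⟩ := exists_fc_eq h (x.2 ((0, x.1) : St d L).1)
      exact ⟨j + 1, J_eq h hj⟩
    · exact ⟨0, by rw [J_not h, turn_zero]⟩
  have hms : ∀ k : ℕ, MeasurableSet {x : XX d L | J D x.2 (0, x.1) = turn D k (0, x.1)} := by
    intro k
    have h1 : {x : XX d L | J D x.2 (0, x.1) = turn D k (0, x.1)} =
        ⋃ π, ({π} : Set (Equiv.Perm (Fin (d + 1)))) ×ˢ
          {c : L → Fin d | J D c (0, π) = turn D k (0, π)} := by
      ext x
      obtain ⟨π, c⟩ := x
      simp
    rw [h1]
    exact MeasurableSet.iUnion fun π => MeasurableSet.prod MeasurableSet.of_discrete (meas_J D _ _)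
  refine invol_mp _ ?_ (fun x => Nat.find (hex x)) (measurable_find hex hms)
    (fun k => sm (Equiv.addLeft (Fin.ofNat (d + 1) k)) (fun π => cell D (0, π) k))
    (fun k => sm_inj _ _) (fun k => sm_mp ν _ _) ?_
  · rintro ⟨π, c⟩
    set s := J D c (0, π) with hs
    have h1 : s = tr s.1 (0, s.2) := Prod.ext (zero_add _).symm rfl
    have h2 : J D c s = (0, π) := J_J c _
    have h3 : tr s.1 (J D (fun x => c (x + s.1)) (0, s.2)) = (0, π) := by
      rw [← J_tr, ← h1, h2]
    have h4 : (J D (fun x => c (x + s.1)) (0, s.2)).2 = π := congrArg Prod.snd h3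
    have h5 : (J D (fun x => c (x + s.1)) (0, s.2)).1 + s.1 = 0 := congrArg Prod.fst h3
    refine Prod.ext h4 ?_
    funext y
    show c (y + (J D (fun x => c (x + s.1)) (0, s.2)).1 + s.1) = c y
    rw [add_assoc, h5, add_zero]
  · rintro ⟨π, c⟩
    have h := Nat.find_spec (hex (π, c))
    set k := Nat.find (hex (π, c)) with hk
    show ((J D c (0, π)).2, fun y => c (y + (J D c (0, π)).1)) =
      (Equiv.trans (Equiv.addLeft (Fin.ofNat (d + 1) k)) π, fun y => c (y + cell D (0, π) k))
    have h' : J D c (0, π) = turn D k (0, π) := h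
    rw [h']
    rfl

/-- a set of environments is null iff all its sections are null -/
theorem mX_null {T : Set (XX d L)} (hT : mX L ν T = 0) (π : Equiv.Perm (Fin (d + 1))) :
    mu L ν {c | (π, c) ∈ T} = 0 := by
  have h1 : ({π} : Set (Equiv.Perm (Fin (d + 1)))) ×ˢ {c : L → Fin d | (π, c) ∈ T} ⊆ T := by
    rintro ⟨π', c⟩ ⟨h1, h2⟩
    have h1' : π' = π := h1
    subst h1'
    exact h2
  have h2 := measure_mono_null h1 hT
  rw [mX, Measure.prod_prod, mul_eq_zero] at h2
  refine h2.resolve_left ?_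
  rw [PMF.toMeasure_apply_singleton _ _ MeasurableSet.of_discrete, PMF.uniformOfFintype_apply]
  exact ENNReal.inv_ne_zero.2 (ENNReal.natCast_ne_top _)

theorem top_null [Countable L] (ψ : L →+ ℤ) (s : St d L) :
    mu L ν {c | Top D ψ c s} = 0 := by
  have hms : MeasurableSet {x : XX d L | Top D ψ x.2 (0, x.1)} := by
    have h1 : {x : XX d L | Top D ψ x.2 (0, x.1)} =
        ⋃ π, ({π} : Set (Equiv.Perm (Fin (d + 1)))) ×ˢ {c : L → Fin d | Top D ψ c (0, π)} := by
      ext x
      obtain ⟨π, c⟩ := x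
      simp
    rw [h1]
    exact MeasurableSet.iUnion fun π =>
      MeasurableSet.prod MeasurableSet.of_discrete (meas_Top D ψ _)
  have hT : mX L ν {x : XX d L | Top D ψ x.2 (0, x.1)} = 0 := by
    by_contra hne
    obtain ⟨x, hx, m, hm, hmx⟩ :=
      (The_mp (D := D) ν).exists_mem_iterate_mem hms.nullMeasurableSet hne
    rw [The_iter] at hmx
    obtain ⟨π, c⟩ := x
    have hx' : Top D ψ c (0, π) := hx
    have hmx' : Top D ψ (fun y => c (y + ((Phi D c ^ m) (0, π)).1))
        (0, ((Phi D c ^ m) (0, π)).2) := hmx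
    rw [← Top_tr] at hmx'
    have h1 : tr ((Phi D c ^ m) (0, π)).1 (0, ((Phi D c ^ m) (0, π)).2) =
        (Phi D c ^ m) (0, π) := Prod.ext (zero_add _) rfl
    rw [h1] at hmx'
    have h2 := hx'.2.1 (m - 1)
    rw [Nat.sub_add_cancel (Nat.one_le_iff_ne_zero.2 hm)] at h2
    have h3 := hmx'.2.2 m
    have h4 : ((Phi D c)⁻¹ ^ m) ((Phi D c ^ m) (0, π)) = (0, π) := by
      rw [← Equiv.Perm.mul_apply, inv_pow, inv_mul_cancel, Equiv.Perm.one_apply]
    rw [h4] at h3
    exact absurd h2 (not_lt.2 h3)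
  obtain ⟨z, π⟩ := s
  have h0 := mX_null ν hT π
  have h1 : {c : L → Fin d | Top D ψ c (z, π)} =
      (fun (c : L → Fin d) (x : L) => c (Equiv.addRight z x)) ⁻¹' {c | Top D ψ c (0, π)} := by
    ext c
    have h2 : ((z, π) : St d L) = tr z (0, π) := Prod.ext (zero_add _).symm rfl
    show Top D ψ c (z, π) ↔ Top D ψ (fun x => c (x + z)) (0, π)
    rw [h2, Top_tr]
  rw [h1, (mu_equiv ν (Equiv.addRight z)).measure_preimage (meas_Top D ψ _).nullMeasurableSet]
  exact h0

end Pool.Agent.DCP
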