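import Pool.Agent.DCP.NullA
import Pool.Agent.DCP.Path
import Pool.Agent.DCP.Colour
import Pool.Agent.DCP.Mix
import Pool.Agent.DCP.Sys

/-!
# d-colour paths: the events are null
-/

set_option autoImplicit false

namespace Pool.Agent.DCP

open MeasureTheory Filter Topology

variable {d : ℕ} {L : Type} [AddCommGroup L] {D : LD d L}
variable {ν : Measure (Fin d)} [IsProbabilityMeasure ν]

theorem Ev_null [Countable L] (hd : 2 ≤ d) (hν : ∀ i, ν {i} ≠ 0) {ψ : L →+ ℤ}
    {a b b' : Fin (d + 1)} (hD : Dir D ψ a b b') (s : St d L) (l : ℤ) :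
    mu L ν {c | Ev D ψ c s l} = 0 := by
  by_contra hpos
  -- a colour pattern on the edge
  obtain ⟨κ, hκ⟩ : ∃ κ : Fin d → Fin d,
      mu L ν {c | Ev D ψ c s l ∧ ∀ j, c (fc D s j) = κ j} ≠ 0 := by
    by_contra hall
    push Not at hall
    apply hpos
    have h1 : {c | Ev D ψ c s l} ⊆
        ⋃ κ : Fin d → Fin d, {c | Ev D ψ c s l ∧ ∀ j, c (fc D s j) = κ j} := by
      intro c hc
      exact Set.mem_iUnion.2 ⟨fun j => c (fc D s j), hc, fun j => rfl⟩
    exact measure_mono_null h1 (measure_iUnion_null hall)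
  set A : Set (L → Fin d) := {c | Ev D ψ c s l ∧ ∀ j, c (fc D s j) = κ j} with hA
  have mA : MeasurableSet A := by
    have h1 : A = {c | Ev D ψ c s l} ∩ ⋂ j, (fun c : L → Fin d => c (fc D s j)) ⁻¹' {κ j} := by
      ext c
      simp [hA]
    rw [h1]
    exact (meas_Ev D ψ s l).inter
      (MeasurableSet.iInter fun j => measurable_pi_apply _ MeasurableSet.of_discrete)
  obtain ⟨c0, hc0⟩ : A.Nonempty := nonempty_of_measure_ne_zero hκ
  have ha : letter s d = a := letter_of_Ev (by omega) hD hc0.1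
  -- mixing
  have hmix := mixing ν (fun m : ℕ => rfE D hD.bb (m : ℤ)) (fun x y => by
    refine eventually_atTop.2 ⟨(D.rt b b' x + D.rt b b' y).toNat + 1, fun m hm h => ?_⟩
    have h1 : D.rt b b' (rf D b b' m x) = D.rt b b' y := congrArg _ h
    rw [rt_rf hD.bb] at h1
    omega) mA mA
  have hne : mu L ν A * mu L ν A ≠ 0 := mul_ne_zero hκ hκ
  obtain ⟨M0, hM0⟩ := eventually_atTop.1 (hmix.eventually_ne hne)
  -- surgery
  obtain ⟨r, k, N, m, P, hm⟩ := exists_path hd hD hc0.1.2.2 ha (M0 : ℤ)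
  obtain ⟨Q, hQ, hcol⟩ := exists_colour hD.bb hD.eq P
  apply hM0 m.toNat (by omega)
  have hmm : ((m.toNat : ℕ) : ℤ) = m := Int.toNat_of_nonneg (by omega)
  have htop : mu L ν (⋃ t : St d L, {c | Top D ψ c t}) = 0 :=
    measure_iUnion_null fun t => top_null ν ψ t
  refine measure_mono_null ?_ (mu_modify ν hν htop Q)
  rintro c ⟨hc1, hc2⟩
  have hc2' : (fun x => c (rf D b b' m x)) ∈ A := by
    have : (fun x => c (rf D b b' ((m.toNat : ℕ) : ℤ) x)) ∈ A := hc2
    rwa [hmm] at this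
  have hsym : ∀ j, c (rf D b b' m (fc D s j)) = c (fc D s j) := fun j =>
    (hc2'.2 j).trans (hc1.2 j).symm
  have hE0 : ∀ j, ψ (fc D s j) ≤ l := fun j => by
    have := hc1.1.2.1 0 j
    rwa [pow_zero, Equiv.Perm.one_apply] at this
  obtain ⟨c', h1, h2, h3⟩ := hcol c hc1.1.1 hE0 hsym
  have hE' : Ev D ψ c (rfs D b b' m s) l := (Ev_rfs hD c m s l).2 hc2'.1
  obtain ⟨t, ht⟩ := exists_top hD.bb P hc1.1 hE' (fun x hx => h1 x fun hxQ => by
    have := hQ x hxQ
    omega) h2 h3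
  exact ⟨c', Set.mem_iUnion.2 ⟨t, ht⟩, h1⟩

theorem Dv_null [Countable L] (hd : 2 ≤ d) (hν : ∀ i, ν {i} ≠ 0) {ψ : L →+ ℤ}
    {a b b' : Fin (d + 1)} (hD : Dir D ψ a b b') (s : St d L) (l : ℤ) :
    mu L ν {c | Dv D ψ c s l} = 0 := by
  classical
  refine measure_mono_null ?_
    (mu_modify ν hν (Ev_null hd hν hD (R D (turn D d s)) l) {s.1})
  intro c hc
  refine ⟨Function.update c s.1 (c (cell D s d)), ?_, fun y hy => ?_⟩
  · have h1 := Ev_of_Dv (by omega) hD hc
    show Ev D ψ _ _ _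
    convert h1
  · exact Function.update_of_ne (by simpa using hy) _ _

/-- almost surely every infinite ray is unbounded above -/
theorem no_events [Countable L] (hd : 2 ≤ d) (hν : ∀ i, ν {i} ≠ 0) {ψ : L →+ ℤ}
    {a b b' : Fin (d + 1)} (hD : Dir D ψ a b b') :
    ∀ᵐ c ∂(mu L ν), (∀ s l, ¬Ev D ψ c s l) ∧ ∀ s l, ¬Dv D ψ c s l := by
  rw [Filter.eventually_and]
  constructor
  · rw [ae_all_iff]
    intro s
    rw [ae_all_iff]
    intro l
    rw [ae_iff]
    simp only [not_not]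
    exact Ev_null hd hν hD s l
  · rw [ae_all_iff]
    intro s
    rw [ae_all_iff]
    intro l
    rw [ae_iff]
    simp only [not_not]
    exact Dv_null hd hν hD s l

end Pool.Agent.DCP
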