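import Pool.Agent.DCP.Equi

/-!
# d-colour paths: no event, so unbounded

PROOF. Write `Φ = Phi D c`, `s_k = (Φ ^ k) s` (all `rb`: `rb_Phi_pow`), `T k = {fc D (s_i) j : i ≥ k}` (touched cells).
Suppose `ψ ≤ M` on `T 0`. For every `k` the set `ψ '' T k` is a nonempty (`d ≥ 1`) set of integers bounded above: it has a
maximum `l k` (`Int.exists_greatest_of_bdd` or similar), attained at a cell of `T k`; `l (k+1) ≤ l k`.

Case A: some `k` with `l (k+1) < l k`. The maximum `l k` is attained at a cell `x = fc D (s_i) j`, `i ≥ k`; `i ≥ k+1` is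
impossible, so `x = fc D (s_k) j`, and `x ∉ T (k+1)`. By `fc_Phi`, `x = (s_{k+1}).1` or `x = fc D (s_{k+1}) i'` (impossible).
So `Ev D ψ c (s_{k+1}) (l (k+1))`: `rb`, all cells of the ray from `s_{k+1}` (`(Φ^i) (s_{k+1}) = s_{k+1+i}`) have `ψ ≤ l (k+1)`, and
`ψ (s_{k+1}).1 = ψ x = l k > l (k+1)`. Contradiction to `hE`.

Case B: `l k = l 0 =: λ` for all `k` (antitone and never strictly decreasing). Let `x ∈ T 0`, `ψ x = λ`. The set
`{i | ∃ j, x = fc D (s_i) j}` is finite: `i ↦ s_i` is injective (`hinj`) and the set of states `t` with `x = fc D t j` for some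
`j` is finite (`t.1 = x - ∑ ...` is determined by `j` and the permutation `t.2`; finitely many). Let `k` be its maximum (it is nonempty):
`x = fc D (s_k) j`, `x ∉ T (k+1)`; by `fc_Phi` again `x = (s_{k+1}).1`. So `Dv D ψ c (s_{k+1}) λ`. Contradiction to `hD`.
-/

set_option autoImplicit false

namespace Pool.Agent.DCP

variable {d : ℕ} {L : Type} [AddCommGroup L] {D : LD d L}

private theorem pow_step (c : L → Fin d) (s : St d L) (k : ℕ) :
    (Phi D c ^ (k + 1)) s = Phi D c ((Phi D c ^ k) s) := by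
  rw [pow_succ', Equiv.Perm.mul_apply]

private theorem pow_comp (c : L → Fin d) (s : St d L) (k i : ℕ) :
    (Phi D c ^ i) ((Phi D c ^ k) s) = (Phi D c ^ (i + k)) s := by
  rw [pow_add, Equiv.Perm.mul_apply]

private theorem fin_states (x : L) : {t : St d L | ∃ j, fc D t j = x}.Finite := by
  refine (Set.finite_range (fun z : Fin d × Equiv.Perm (Fin (d + 1)) =>
    ((x - ∑ i ∈ Finset.range (z.1 + 1), D.v (z.2 (Fin.ofNat (d + 1) i)), z.2) : St d L))).subset ?_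
  rintro ⟨a, π⟩ ⟨j, hj⟩
  refine ⟨(j, π), Prod.ext ?_ rfl⟩
  show x - ∑ i ∈ Finset.range (j + 1), D.v (π (Fin.ofNat (d + 1) i)) = a
  rw [← hj]
  show a + ∑ i ∈ Finset.range (j + 1), D.v (π (Fin.ofNat (d + 1) i)) - _ = a
  rw [add_sub_cancel_right]

theorem unbounded (hd : 1 ≤ d) {ψ : L →+ ℤ} {c : L → Fin d} {s : St d L} (hs : rb D c s)
    (hinj : Function.Injective (fun k : ℕ => (Phi D c ^ k) s))
    (hE : ∀ t l, ¬Ev D ψ c t l) (hD : ∀ t l, ¬Dv D ψ c t l) (M : ℤ) :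
    ∃ k j, M < ψ (fc D ((Phi D c ^ k) s) j) := by
  by_contra hcon
  push Not at hcon
  have hex : ∀ k : ℕ, ∃ m : ℤ, (∃ i, k ≤ i ∧ ∃ j, ψ (fc D ((Phi D c ^ i) s) j) = m) ∧
      ∀ z, (∃ i, k ≤ i ∧ ∃ j, ψ (fc D ((Phi D c ^ i) s) j) = z) → z ≤ m := by
    intro k
    refine Int.exists_greatest_of_bdd ⟨M, ?_⟩ ⟨_, k, le_rfl, ⟨0, hd⟩, rfl⟩
    rintro z ⟨i, _, j, rfl⟩
    exact hcon i j
  choose l hl1 hl2 using hex
  have hle : ∀ k i, k ≤ i → ∀ j, ψ (fc D ((Phi D c ^ i) s) j) ≤ l k := fun k i hi j =>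
    hl2 k _ ⟨i, hi, j, rfl⟩
  have hrb : ∀ k, rb D c ((Phi D c ^ k) s) := fun k => (rb_Phi_pow k).2 hs
  have hray : ∀ k i j, ψ (fc D ((Phi D c ^ i) ((Phi D c ^ k) s)) j) ≤ l k := fun k i j => by
    rw [pow_comp]
    exact hle k (i + k) (Nat.le_add_left k i) j
  have hstep : ∀ k, l (k + 1) = l k := by
    intro k
    have h1 : l (k + 1) ≤ l k := by
      obtain ⟨i, hi, j, hj⟩ := hl1 (k + 1)
      rw [← hj]
      exact hle k i (by omega) j
    by_contra hne
    have hlt : l (k + 1) < l k := lt_of_le_of_ne h1 hne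
    obtain ⟨i, hi, j, hj⟩ := hl1 k
    rcases Nat.lt_or_ge k i with h2 | h2
    · have h3 := hle (k + 1) i h2 j
      omega
    · have h3 : i = k := by omega
      subst h3
      rcases fc_Phi (hrb i) j with h4 | ⟨i', h4⟩
      · refine hE ((Phi D c ^ (i + 1)) s) (l (i + 1)) ⟨hrb (i + 1), hray (i + 1), ?_⟩
        rw [pow_step, ← h4, hj]
        exact hlt
      · have h5 := hle (i + 1) (i + 1) le_rfl i'
        rw [pow_step, ← h4] at h5
        omega
  have hconst : ∀ k, l k = l 0 := by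
    intro k
    induction k with
    | zero => rfl
    | succ k ih => rw [hstep, ih]
  obtain ⟨i₀, -, j₀, hx⟩ := hl1 0
  obtain ⟨x, hxd⟩ : ∃ x, x = fc D ((Phi D c ^ i₀) s) j₀ := ⟨_, rfl⟩
  have hfin : {i : ℕ | ∃ j, fc D ((Phi D c ^ i) s) j = x}.Finite :=
    Set.Finite.preimage (f := fun k : ℕ => (Phi D c ^ k) s)
      (s := {t : St d L | ∃ j, fc D t j = x}) hinj.injOn (fin_states (D := D) x)
  obtain ⟨k, ⟨j, hk⟩, hmax⟩ := Set.exists_max_image {i : ℕ | ∃ j, fc D ((Phi D c ^ i) s) j = x} id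
    hfin ⟨i₀, j₀, hxd.symm⟩
  have hnot : ∀ i, k < i → ∀ j, fc D ((Phi D c ^ i) s) j ≠ x := by
    intro i hi j h
    have h1 : i ≤ k := hmax i ⟨j, h⟩
    omega
  have hx1 : ((Phi D c ^ (k + 1)) s).1 = x := by
    rcases fc_Phi (hrb k) j with h4 | ⟨i', h4⟩
    · rw [pow_step, ← h4, hk]
    · exfalso
      rw [hk, ← pow_step] at h4
      exact hnot (k + 1) (Nat.lt_succ_self k) i' h4.symm
  refine hD ((Phi D c ^ (k + 1)) s) (l 0) ⟨hrb (k + 1), ?_, ?_, ?_⟩
  · intro i j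
    rw [← hconst (k + 1)]
    exact hray (k + 1) i j
  · rw [hx1, hxd, hx]
  · intro i j
    rw [hx1, pow_comp]
    exact hnot (i + (k + 1)) (by omega) j

end Pool.Agent.DCP
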