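import Pool.Agent.DCP.Equi

/-!
# d-colour paths: the connecting path (interface)
-/

set_option autoImplicit false

namespace Pool.Agent.DCP

variable {d : ℕ} {L : Type} [AddCommGroup L]

/-- a path of states `r i` starting at `s`; at `r i` the hole is moved to the cell number `k i`,
then one goes to the other end of the edge. It can be joined to its mirror image after `r N`. -/
structure Pth (D : LD d L) (ψ : L →+ ℤ) (b b' : Fin (d + 1)) (s : St d L) (l : ℤ)
    (r : ℕ → St d L) (k : ℕ → ℕ) (N : ℕ) (m : ℤ) : Prop where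
  zero : r 0 = s
  pos : ∀ i, 1 ≤ k i
  le : ∀ i, k i ≤ d
  succ : ∀ i, r (i + 1) = R D (turn D (k i) (r i))
  fresh : ∀ i j n, j ≤ i → n ≤ d → (r (i + 1)).1 ≠ cell D (r j) n
  above : ∀ i, l < ψ (r i).1
  cells : ∀ i n, n ≤ d →
    (∃ i' ≤ i, cell D (r i) n = (r i').1) ∨ ∃ j : Fin d, cell D (r i) n = fc D s j
  last : k N = 1
  mir : ∀ i ≤ N, ∀ n ≤ d, D.rt b b' (cell D (r i) n) ≤ m
  join : rfs D b b' m (turn D 1 (r N)) = R D (turn D 1 (r N))
  top : 2 * l < Hh D ψ (r N)

end Pool.Agent.DCP
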