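import Pool.Agent.DCP.GeoC
import Pool.Agent.DCP.Osc

/-!
# d-colour paths: geometric rays
-/

set_option autoImplicit false

namespace Pool.Agent.DCP

open Filter Topology

variable {d : ℕ}

theorem dir_psiN {n : Fin (d + 1) → ℤ} {a b b' : Fin (d + 1)} (hn : ∑ i, n i = 0)
    (hneg : ∀ i, i ≠ a → n i < 0) (hb : b ≠ a) (hb' : b' ≠ a) (hbb : b ≠ b') (heq : n b = n b') :
    Dir (AD d) (psiN n) a b b' where
  neg i hi := by rw [psiN_v hn]; exact hneg i hi
  ba := hb
  ba' := hb'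
  bb := hbb
  eq := by rw [psiN_v hn, psiN_v hn, heq]

/-- a ray is unbounded above, if there is no event -/
theorem ray_up (hd : 1 ≤ d) {c : Ast d → Fin d} {n : Fin (d + 1) → ℤ} (hn : ∑ i, n i = 0)
    (hE : ∀ t l, ¬Ev (AD d) (psiN n) c t l) (hD : ∀ t l, ¬Dv (AD d) (psiN n) c t l)
    {γ : ℕ → Fin (d + 1) → ℝ} (hi : Function.Injective γ)
    (he : ∀ k, ColEdge c (γ k) (γ (k + 1))) (M : ℝ) : ∃ k, M < ∑ i, n i * γ k i := by
  obtain ⟨s, hs, hv⟩ := orbit hd hi he
  have hinj : Function.Injective (fun k : ℕ => (Phi (AD d) c ^ k) s) := by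
    intro k k' hk
    apply hi
    rw [← hv, ← hv]
    exact congrArg vtx hk
  obtain ⟨k, j, hkj⟩ := unbounded hd hs hinj hE hD ⌈M + ∑ i, |(n i : ℝ)| * (1 / 2)⌉
  refine ⟨k, ?_⟩
  set t := (Phi (AD d) c ^ k) s with ht
  have h1 : M + ∑ i, |(n i : ℝ)| * (1 / 2) < psiN n (fc (AD d) t j) :=
    (Int.le_ceil _).trans_lt (by exact_mod_cast hkj)
  rw [psiN_cast hn] at h1
  have h2 : ∑ i, (n i : ℝ) * ((fc (AD d) t j : Ast d) : Fin (d + 1) → ℝ) i -
      ∑ i, |(n i : ℝ)| * (1 / 2) ≤ ∑ i, n i * γ k i := by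
    rw [← Finset.sum_sub_distrib]
    refine Finset.sum_le_sum fun i _ => ?_
    have h3 := vtx_cell t (k := j + 1) (by omega) i
    rw [ht, hv k] at h3
    have h4 : |(n i : ℝ) * (γ k i - ((fc (AD d) t j : Ast d) : Fin (d + 1) → ℝ) i)| ≤
        |(n i : ℝ)| * (1 / 2) := by
      rw [abs_mul]
      exact mul_le_mul_of_nonneg_left h3 (abs_nonneg _)
    have h5 := (abs_le.1 h4).1
    linarith
  linarith

theorem freq_of_exists {f : ℕ → ℝ} (h : ∀ M, ∃ k, M < f k) (M : ℝ) :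
    ∃ᶠ k in atTop, M < f k := by
  rw [frequently_atTop]
  intro K
  obtain ⟨B, hB⟩ : ∃ B, ∀ k < K, f k ≤ B := by
    refine ⟨∑ k ∈ Finset.range K, |f k|, fun k hk => ?_⟩
    exact (le_abs_self _).trans
      (Finset.single_le_sum (f := fun k => |f k|) (fun i _ => abs_nonneg _)
        (Finset.mem_range.2 hk))
  obtain ⟨k, hk⟩ := h (max M B)
  refine ⟨k, ?_, (le_max_left _ _).trans_lt hk⟩
  by_contra hlt
  have := hB k (by omega)
  have := (le_max_right M B).trans_lt hk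
  linarith

/-- the form `(d, -1, ..., -1)` -/
def nn (a : Fin (d + 1)) : Fin (d + 1) → ℤ := fun i => if i = a then d else -1

theorem nn_sum (a : Fin (d + 1)) : ∑ i, nn a i = 0 := by
  have h : ∀ i, nn a i = (if i = a then (d : ℤ) + 1 else 0) - 1 := by
    intro i
    rw [nn]
    split_ifs <;> ring
  simp only [h, Finset.sum_sub_distrib, Finset.sum_ite_eq', Finset.mem_univ, if_true,
    Finset.sum_const, Finset.card_univ, Fintype.card_fin]
  simp

theorem nn_apply (a : Fin (d + 1)) {x : Fin (d + 1) → ℝ} (hx : ∑ i, x i = 0) :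
    ∑ i, (nn a i : ℝ) * x i = (d + 1) * x a := by
  have h : ∀ i, (nn a i : ℝ) * x i = (if i = a then ((d : ℝ) + 1) * x i else 0) - x i := by
    intro i
    rw [nn]
    split_ifs <;> push_cast <;> ring
  simp only [h, Finset.sum_sub_distrib, Finset.sum_ite_eq', Finset.mem_univ, if_true, hx, sub_zero]

theorem exists_two (hd : 2 ≤ d) (a : Fin (d + 1)) : ∃ b b' : Fin (d + 1),
    b ≠ a ∧ b' ≠ a ∧ b ≠ b' := by
  have h1 : 1 < ((Finset.univ : Finset (Fin (d + 1))).erase a).card := by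
    rw [Finset.card_erase_of_mem (Finset.mem_univ _), Finset.card_univ, Fintype.card_fin]
    omega
  obtain ⟨b, hb, b', hb', hbb⟩ := Finset.one_lt_card.1 h1
  exact ⟨b, b', (Finset.mem_erase.1 hb).1, (Finset.mem_erase.1 hb').1, hbb⟩

/-- zero speed from convergence and oscillation -/
theorem speed (hd : 2 ≤ d) {c : Ast d → Fin d} {γ : ℕ → Fin (d + 1) → ℝ}
    (hi : Function.Injective γ) (he : ∀ k, ColEdge c (γ k) (γ (k + 1)))
    (hB : ∀ i : Fin (d + 1), ∀ s : St d (Ast d), ∃ q : ℝ, Tendsto (fun N : ℕ => (N : ℝ)⁻¹ *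
      ∑ k ∈ Finset.range N, ((if letter ((Phi (AD d) c ^ k) s) 0 = i then (1 : ℝ) else 0) -
        (if letter ((Phi (AD d) c ^ k) s) d = i then (1 : ℝ) else 0))) atTop (𝓝 q))
    (hup : ∀ a, ∀ M : ℝ, ∃ k, M < ∑ i, (nn a i : ℝ) * γ k i)
    (hdn : ∀ a, ∀ M : ℝ, ∃ k, M < -∑ i, (nn a i : ℝ) * γ k i) :
    Tendsto (fun k : ℕ => (k : ℝ)⁻¹ • γ k) atTop (𝓝 0) := by
  obtain ⟨s, hs, hv⟩ := orbit (by omega) hi he
  have hsum : ∀ k, ∑ i, γ k i = 0 := fun k => (he k).1.1
  rw [tendsto_pi_nhds]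
  intro a
  obtain ⟨q, hq⟩ := hB a s
  have hd1 : (0 : ℝ) < d + 1 := by positivity
  -- the position is the sum of the increments
  have hpos : ∀ N : ℕ, γ N a = γ 0 a + (∑ k ∈ Finset.range N,
      ((if letter ((Phi (AD d) c ^ k) s) 0 = a then (1 : ℝ) else 0) -
        (if letter ((Phi (AD d) c ^ k) s) d = a then (1 : ℝ) else 0))) / (d + 1) := by
    intro N
    induction N with
    | zero => simp
    | succ N ih =>
      rw [Finset.sum_range_succ, add_div, ← add_assoc, ← ih, ← hv N, ← hv (N + 1), pow_succ',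
        Equiv.Perm.mul_apply, vtx_Phi]
  have hlim : Tendsto (fun N : ℕ => (N : ℝ)⁻¹ * γ N a) atTop (𝓝 (q / (d + 1))) := by
    have h1 : Tendsto (fun N : ℕ => (N : ℝ)⁻¹ * γ 0 a) atTop (𝓝 (0 * γ 0 a)) :=
      (tendsto_inv_atTop_nhds_zero_nat (𝕜 := ℝ)).mul_const _
    have h2 := h1.add (hq.div_const ((d : ℝ) + 1))
    rw [zero_mul, zero_add] at h2
    refine h2.congr fun N => ?_
    rw [hpos N]
    ring
  have hq0 : q / (d + 1) = 0 := by
    apply le_antisymm
    · -- infinitely often negative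
      by_contra hlt
      push Not at hlt
      have h1 : ∀ᶠ N : ℕ in atTop, 0 < (N : ℝ)⁻¹ * γ N a := hlim.eventually_const_lt hlt
      have h2 := freq_of_exists (f := fun k => -∑ i, (nn a i : ℝ) * γ k i) (hdn a) 0
      obtain ⟨N, h3, h4⟩ := (h2.and_eventually h1).exists
      rw [nn_apply a (hsum N)] at h3
      have h5 : γ N a < 0 := by
        by_contra h6
        push Not at h6
        have := mul_nonneg hd1.le h6
        linarith
      have h7 : (N : ℝ)⁻¹ * γ N a ≤ 0 :=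
        mul_nonpos_of_nonneg_of_nonpos (by positivity) h5.le
      linarith
    · by_contra hlt
      push Not at hlt
      have h1 : ∀ᶠ N : ℕ in atTop, (N : ℝ)⁻¹ * γ N a < 0 := hlim.eventually_lt_const hlt
      have h2 := freq_of_exists (f := fun k => ∑ i, (nn a i : ℝ) * γ k i) (hup a) 0
      obtain ⟨N, h3, h4⟩ := (h2.and_eventually h1).exists
      rw [nn_apply a (hsum N)] at h3
      have h5 : 0 < γ N a := by
        by_contra h6
        push Not at h6
        have := mul_nonpos_of_nonneg_of_nonpos hd1.le h6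
        linarith
      have h7 : 0 ≤ (N : ℝ)⁻¹ * γ N a := by positivity
      linarith
  rw [hq0] at hlim
  exact hlim

end Pool.Agent.DCP
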